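import Pool.Agent.Helper2.KX.T2
import Pool.Agent.Helper47.NI.Closure
import Pool.Agent.Helper63.NPD.Fin

/-!
# A good Wehler surface over an algebraically closed field as two double coverings
-/

namespace Pool.Agent.Helper2.KX

variable {t : Bool}

open MvPolynomial Pool.Agent.Helper47.NI

universe u

variable {k : Type u} [Field k]

/-- The forms of degree four in `v` with the values `W.G v`. -/
noncomputable def WD.Gp (W : WD t k) (p : Fin 3 × Fin 3) : MvPolynomial (Fin 3) k :=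
  (W.map (C : k →+* MvPolynomial (Fin 3) k)).G X p.1 p.2

theorem WD.eval_Gp (W : WD t k) (v : V3 k) (p : Fin 3 × Fin 3) :
    eval v (W.Gp p) = W.G v p.1 p.2 := by
  have hmap : (W.map (C : k →+* MvPolynomial (Fin 3) k)).map (eval v) = W := by
    cases W
    simp [WD.map]
  have hX : vmap (eval v : MvPolynomial (Fin 3) k →+* k) X = v := by
    funext i; simp [vmap]
  have := WD.G_map (eval v : MvPolynomial (Fin 3) k →+* k)
    (W.map (C : k →+* MvPolynomial (Fin 3) k)) X
  rw [hmap, hX] at this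
  exact (congrFun (congrFun this p.1) p.2).symm

theorem mon_hom (b : Bool) (r : Fin 3 × Fin 3) :
    (mon b (X : V3 (MvPolynomial (Fin 3) k)) r).IsHomogeneous (if b then 2 else 1) := by
  cases b
  · by_cases h : r.2 = 0
    · simp only [mon, h]
      exact isHomogeneous_X k r.1
    · simp only [mon, h]
      exact isHomogeneous_zero _ _ _
  · simp only [mon]
    exact (isHomogeneous_X k r.1).mul (isHomogeneous_X k r.2)

theorem WD.Gp_hom (W : WD t k) (p : Fin 3 × Fin 3) : (W.Gp p).IsHomogeneous (dd t) := by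
  classical
  set W' := W.map (C : k →+* MvPolynomial (Fin 3) k) with hW'
  have hm : ∀ (a : k) (b : Bool) (r : Fin 3 × Fin 3), (C a * mon b (X : V3 (MvPolynomial (Fin 3) k))
      r).IsHomogeneous (if b then 2 else 1) := by
    intro a b r
    have := (isHomogeneous_C (Fin 3) a).mul (mon_hom (k := k) b r)
    rwa [zero_add] at this
  have hl : ∀ i, (W'.line X i).IsHomogeneous (if t then 1 else 2) := by
    intro i
    cases t
    · show (∑ r, C (W.q (i, 0) r) * mon true X r : MvPolynomial (Fin 3) k).IsHomogeneous 2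
      exact IsHomogeneous.sum _ _ _ fun r _ => hm (W.q (i, 0) r) true r
    · show (∑ r, C (W.M (i, 0) r) * mon false X r : MvPolynomial (Fin 3) k).IsHomogeneous 1
      exact IsHomogeneous.sum _ _ _ fun r _ => hm (W.M (i, 0) r) false r
  have hc : ∀ i j, (W'.con X i j).IsHomogeneous (if t then 2 else 1) := by
    intro i j
    cases t
    · show (∑ r, C (W.M (i, j) r) * mon false X r : MvPolynomial (Fin 3) k).IsHomogeneous 1
      exact IsHomogeneous.sum _ _ _ fun r _ => hm (W.M (i, j) r) false r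
    · show (∑ r, C (W.q (i, j) r) * mon true X r : MvPolynomial (Fin 3) k).IsHomogeneous 2
      exact IsHomogeneous.sum _ _ _ fun r _ => hm (W.q (i, j) r) true r
  have he : ∀ i j : Fin 3, ((Pi.single i (1 : MvPolynomial (Fin 3) k) :
      V3 (MvPolynomial (Fin 3) k)) j).IsHomogeneous 0 := by
    intro i j
    by_cases h : j = i
    · subst h
      rw [Pi.single_eq_same]
      exact isHomogeneous_one _ _
    · rw [Pi.single_eq_of_ne h]
      exact isHomogeneous_zero _ _ _
  have hcr : ∀ i j : Fin 3, (crs (W'.line X) (Pi.single i 1) j).IsHomogeneous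
      (if t then 1 else 2) := by
    intro i j
    have hm : ∀ a b, (W'.line X a * (Pi.single i (1 : MvPolynomial (Fin 3) k) :
      V3 (MvPolynomial (Fin 3) k)) b).IsHomogeneous (if t then 1 else 2) :=
      fun a b => (hl a).mul (he i b)
    fin_cases j
    · exact (hm 1 2).sub (hm 2 1)
    · exact (hm 2 0).sub (hm 0 2)
    · exact (hm 0 1).sub (hm 1 0)
  refine IsHomogeneous.sum _ _ _ fun a _ => IsHomogeneous.sum _ _ _ fun b _ => ?_
  have h1 := (hc a b).mul (((hcr p.1 a).mul (hcr p.2 b)).add ((hcr p.2 a).mul (hcr p.1 b)))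
  cases t <;> exact h1

theorem uni_iff {v : V3 k} : Uni v ↔ v ≠ 0 := by
  classical
  constructor
  · rintro ⟨w, hw⟩ rfl
    simp [dot] at hw
  · intro h
    obtain ⟨i, hi⟩ : ∃ i, v i ≠ 0 := by
      by_contra hc
      push Not at hc
      exact h (funext hc)
    refine ⟨Pi.single i (v i)⁻¹, ?_⟩
    rw [dot, Finset.sum_eq_single i]
    · rw [Pi.single_eq_same, inv_mul_cancel₀ hi]
    · intro j _ hj
      rw [Pi.single_eq_of_ne hj, zero_mul]
    · intro hn
      exact absurd (Finset.mem_univ i) hn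

theorem WD.G_ne {W : WD t k} (hW : W.Half) {v : V3 k} (hv : v ≠ 0) :
    ∃ i j, W.G v i j ≠ 0 := by
  by_contra hc
  push Not at hc
  obtain ⟨N, hN⟩ := hW
  apply hv
  funext i
  have h1 := Ideal.mem_map_of_mem (eval v : MvPolynomial (Fin 3) k →+* k) (hN i)
  rw [map_pow, eval_X, Ideal.map_span] at h1
  have h2 : (eval v : MvPolynomial (Fin 3) k →+* k) '' (Set.range fun ij : Fin 3 × Fin 3 =>
      (W.map (C : k →+* MvPolynomial (Fin 3) k)).G X ij.1 ij.2) ⊆ {0} := by
    rintro _ ⟨_, ⟨ij, rfl⟩, rfl⟩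
    rw [Set.mem_singleton_iff]
    have := W.eval_Gp v ij
    rw [WD.Gp] at this
    rw [this, hc]
  have h3 := Ideal.span_mono h2 h1
  rw [Ideal.mem_span_singleton, zero_dvd_iff] at h3
  exact eq_zero_of_pow_eq_zero h3

theorem WD.exists_pt [IsAlgClosed k] (W : WD t k) (v : V3 k) :
    ∃ u : V3 k, u ≠ 0 ∧ W.IsPt u v := by
  obtain ⟨x, hx, h1, h2⟩ := Pool.Agent.Helper63.NPD.exists_zero (m := 1) (n := 3) (by norm_num)
    (fun _ => W.line v) (Matrix.of (W.con v))
  exact ⟨x, hx, h1 0, h2⟩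

theorem WD.conj_ne {W : WD t k} {u u' v : V3 k} (h : IsConj (W.G v) u u')
    (hp : ∃ p, eval v (W.Gp p) ≠ 0) : u' ≠ 0 := by
  rintro rfl
  obtain ⟨p, hp⟩ := hp
  apply hp
  rw [WD.eval_Gp, ← h p.1 p.2]
  simp

/-- The two double coverings. -/
noncomputable def WD.dbl [IsAlgClosed k] (W : WD t k) : Dbl k 3 (dd t) where
  G := W.Gp
  G' := W.swap.Gp
  hG := W.Gp_hom
  hG' := W.swap.Gp_hom
  S := {z | z.1 ≠ 0 ∧ z.2 ≠ 0 ∧ W.IsPt z.1 z.2}
  ne1 := fun h => h.1
  ne2 := fun h => h.2.1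
  sx := by
    rintro x y ⟨hx, hy, h⟩ hp
    obtain ⟨x', h1, h2⟩ := W.exists_conj (uni_iff.mpr hx) h
    exact ⟨x', ⟨WD.conj_ne h1 hp, hy, h2⟩, fun p => by
      rw [WD.eval_Gp, ← h1 p.1 p.2]; rfl⟩
  sy := by
    rintro x y ⟨hx, hy, h⟩ hp
    obtain ⟨y', h1, h2⟩ := W.swap.exists_conj (uni_iff.mpr hy) ((W.swap_isPt x y).mpr h)
    exact ⟨y', ⟨hx, WD.conj_ne h1 hp, (W.swap_isPt x y').mp h2⟩, fun p => by
      rw [WD.eval_Gp, ← h1 p.1 p.2]; rfl⟩
  ex := by
    intro y hy _
    obtain ⟨x, hx, h⟩ := W.exists_pt y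
    exact ⟨x, hx, hy, h⟩
  ex' := by
    intro x hx _
    obtain ⟨y, hy, h⟩ := W.swap.exists_pt x
    exact ⟨y, hx, hy, (W.swap_isPt x y).mp h⟩

theorem relPrime_X : IsRelPrime (X 0 : MvPolynomial (Fin 3) k) (X 1) := by
  have h0 : Irreducible (X 0 : MvPolynomial (Fin 3) k) := (X_prime (i := (0 : Fin 3))).irreducible
  rw [h0.isRelPrime_iff_not_dvd]
  rintro ⟨c, hc⟩
  have h4 := congrArg (eval (fun l : Fin 3 => if l = 1 then (1 : k) else 0)) hc
  simp at h4

theorem WD.dbl_dense [IsAlgClosed k] (W : WD t k) (hW : W.Good) : W.dbl.Dense := by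
  refine Dbl.dense_of_coprime _ (X 0) (X 1) relPrime_X fun y hy => ?_
  have h0 : y = 0 := by
    rcases hy with hy | hy
    · exact hy
    by_contra h0
    apply hy
    constructor
    · obtain ⟨i, j, h⟩ := WD.G_ne hW.1 h0
      exact ⟨(i, j), by rw [show W.dbl.G = W.Gp from rfl, WD.eval_Gp]; exact h⟩
    · rintro x ⟨hx, _, _⟩
      obtain ⟨i, j, h⟩ := WD.G_ne hW.2 hx
      exact ⟨(i, j), by rw [show W.dbl.G' = W.swap.Gp from rfl, WD.eval_Gp]; exact h⟩
  subst h0
  simp

theorem WD.dbl_swap_dense [IsAlgClosed k] (W : WD t k) (hW : W.Good) : W.dbl.swap.Dense := by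
  refine Dbl.dense_of_coprime _ (X 0) (X 1) relPrime_X fun y hy => ?_
  have h0 : y = 0 := by
    rcases hy with hy | hy
    · exact hy
    by_contra h0
    apply hy
    constructor
    · obtain ⟨i, j, h⟩ := WD.G_ne hW.2 h0
      exact ⟨(i, j), by rw [show W.dbl.swap.G = W.swap.Gp from rfl, WD.eval_Gp]; exact h⟩
    · rintro x ⟨_, hx, _⟩
      obtain ⟨i, j, h⟩ := WD.G_ne hW.1 hx
      exact ⟨(i, j), by rw [show W.dbl.swap.G' = W.Gp from rfl, WD.eval_Gp]; exact h⟩
  subst h0
  simp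

end Pool.Agent.Helper2.KX
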