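import Pool.Agent.Helper2.KX.Defs
import Pool.Agent.Helper16.CY.Elim

/-!
# Coprime ternary forms have finitely many common zeros
-/

namespace Pool.Agent.Helper2.KX

open MvPolynomial

universe u

variable {k : Type u} [Field k]

/-- The values of a form at a multiple of a vector. -/
theorem aeval_smul_of_hom {F : MvPolynomial (Fin 3) k} {e : ℕ} (h : F.IsHomogeneous e) (x : V3 k)
    (hx : aeval x F = 0) (c : k) : aeval (c • x) F = 0 := by
  rw [aeval_eq_eval] at hx ⊢
  have h1 : eval (c • x) F = c ^ e * eval x F := by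
    rw [eval_eq, eval_eq, Finset.mul_sum]
    refine Finset.sum_congr rfl fun m hm => ?_
    have hn := h.degree_eq_sum_deg_support hm
    simp only [Pi.smul_apply, smul_eq_mul, mul_pow]
    rw [Finset.prod_mul_distrib, Finset.prod_pow_eq_pow_sum, ← hn]
    ring
  change eval (c • x) F = 0
  rw [h1, show eval x F = 0 from hx, mul_zero]

theorem fin3_cases : ∀ a b d j : Fin 3, a ≠ d → b ≠ d → a ≠ b → j ≠ d → j = a ∨ j = b := by decide

/-- The ratios of two coordinates of the common zeros. -/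
theorem ratio_finite [Infinite k] {F1 F2 : MvPolynomial (Fin 3) k} {e1 e2 : ℕ}
    (h1 : F1.IsHomogeneous e1) (h2 : F2.IsHomogeneous e2) (h12 : IsRelPrime F1 F2)
    {a b d : Fin 3} (had : a ≠ d) (hbd : b ≠ d) (hab : a ≠ b) :
    {τ : k | ∃ x : V3 k, x b ≠ 0 ∧ aeval x F1 = 0 ∧ aeval x F2 = 0 ∧ τ = x a / x b}.Finite := by
  classical
  by_contra hinf
  obtain ⟨r, hr, hz⟩ := Pool.Agent.Helper16.CY.exists_elim d h12
  set S : Set k := {τ : k | ∃ x : V3 k, x b ≠ 0 ∧ aeval x F1 = 0 ∧ aeval x F2 = 0 ∧ τ = x a / x b}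
  set q : MvPolynomial (Fin 2) k :=
    aeval (fun j : {j : Fin 3 // j ≠ d} => if j.1 = a then X 0 * X 1 else X 1) r with hq
  have hqe : ∀ y : Fin 2 → k, eval y q =
      eval (fun j : {j : Fin 3 // j ≠ d} => if j.1 = a then y 0 * y 1 else y 1) r := by
    intro y
    rw [hq, ← aeval_eq_eval, ← AlgHom.comp_apply, comp_aeval, ← aeval_eq_eval]
    congr 2
    funext j
    split_ifs <;> simp
  have hcas : ∀ j : Fin 3, j ≠ d → j = a ∨ j = b := fun j => fin3_cases a b d j had hbd hab
  have hq0 : q = 0 := by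
    refine funext_set (fun i : Fin 2 => if i = 0 then S else Set.univ) ?_ ?_
    · intro i
      split_ifs
      · exact hinf
      · exact Set.infinite_univ
    · intro y hy
      have hy0 : y 0 ∈ S := by simpa using hy 0 (Set.mem_univ _)
      obtain ⟨x, hx, hx1, hx2, hτ⟩ := hy0
      have h3 := hz k ((y 1 / x b) • x) (aeval_smul_of_hom h1 x hx1 _) (aeval_smul_of_hom h2 x hx2 _)
      have h4 : (fun j : {j : Fin 3 // j ≠ d} => if j.1 = a then y 0 * y 1 else y 1) =
          fun j => ((y 1 / x b) • x) j.1 := by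
        funext j
        split_ifs with hj
        · rw [hτ, hj]
          simp only [Pi.smul_apply, smul_eq_mul]
          ring
        · rw [(hcas j.1 j.2).resolve_left hj]
          simp only [Pi.smul_apply, smul_eq_mul]
          field_simp
      rw [hqe, map_zero, h4]
      rw [aeval_eq_eval] at h3
      exact h3
  have hr0 : r * X ⟨b, hbd⟩ = 0 := by
    refine MvPolynomial.funext fun v => ?_
    rw [map_mul, eval_X, map_zero]
    by_cases hv : v ⟨b, hbd⟩ = 0
    · rw [hv, mul_zero]
    · have h3 := hqe ![v ⟨a, had⟩ / v ⟨b, hbd⟩, v ⟨b, hbd⟩]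
      rw [hq0, map_zero] at h3
      have h4 : (fun j : {j : Fin 3 // j ≠ d} => if j.1 = a then
          ![v ⟨a, had⟩ / v ⟨b, hbd⟩, v ⟨b, hbd⟩] 0 * ![v ⟨a, had⟩ / v ⟨b, hbd⟩, v ⟨b, hbd⟩] 1 else
          ![v ⟨a, had⟩ / v ⟨b, hbd⟩, v ⟨b, hbd⟩] 1) = v := by
        funext j
        split_ifs with hj
        · have : j = ⟨a, had⟩ := Subtype.ext hj
          rw [this]
          simp only [Matrix.cons_val_zero, Matrix.cons_val_one]
          field_simp
        · have : j = ⟨b, hbd⟩ := Subtype.ext ((hcas j.1 j.2).resolve_left hj)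
          rw [this]
          simp
      rw [h4] at h3
      rw [← h3, zero_mul]
  rcases mul_eq_zero.1 hr0 with h | h
  · exact hr h
  · exact X_ne_zero _ h

/-- The multiple of a vector whose last nonzero coordinate is one. -/
noncomputable def nrm (x : V3 k) : V3 k := by
  classical
  exact if x 2 ≠ 0 then ![x 0 / x 2, x 1 / x 2, 1] else if x 1 ≠ 0 then ![x 0 / x 1, 1, 0] else ![1, 0, 0]

theorem nrm_smul {x : V3 k} (hx : x ≠ 0) : ∃ c : k, c ≠ 0 ∧ x = c • nrm x := by
  classical
  unfold nrm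
  split_ifs with h2 h1
  · refine ⟨x 2, h2, ?_⟩
    funext i
    fin_cases i <;> (simp; try field_simp)
  · have h2' : x 2 = 0 := not_not.1 h2
    refine ⟨x 1, h1, ?_⟩
    funext i
    fin_cases i <;> simp [h2'] <;> field_simp
  · have h2' : x 2 = 0 := not_not.1 h2
    have h1' : x 1 = 0 := not_not.1 h1
    refine ⟨x 0, ?_, ?_⟩
    · intro h0
      apply hx
      funext i
      fin_cases i <;> simp [h0, h1', h2']
    · funext i
      fin_cases i <;> simp [h1', h2']

/-- Coprime ternary forms have finitely many common zeros up to scalars: the form needed for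
`closure`. -/
theorem finite_of_coprime [IsAlgClosed k] {ι : Type*} (X : ι → V3 k) (hX : ∀ i, X i ≠ 0)
    (hpar : ∀ i, {j | crs (X i) (X j) = 0}.Finite)
    {F1 F2 : MvPolynomial (Fin 3) k} {e1 e2 : ℕ} (h1 : F1.IsHomogeneous e1)
    (h2 : F2.IsHomogeneous e2) (h12 : IsRelPrime F1 F2) :
    {i | aeval (X i) F1 = 0 ∧ aeval (X i) F2 = 0}.Finite := by
  classical
  have : Infinite k := IsAlgClosed.instInfinite
  have f0 := ratio_finite h1 h2 h12 (a := 0) (b := 2) (d := 1) (by decide) (by decide) (by decide)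
  have f1 := ratio_finite h1 h2 h12 (a := 1) (b := 2) (d := 0) (by decide) (by decide) (by decide)
  have f2 := ratio_finite h1 h2 h12 (a := 0) (b := 1) (d := 2) (by decide) (by decide) (by decide)
  refine Set.Finite.of_finite_fibers (fun i => nrm (X i)) ?_ ?_
  · refine (((f0.prod f1).image fun p : k × k => (![p.1, p.2, 1] : V3 k)).union
      ((f2.image fun p : k => (![p, 1, 0] : V3 k)).union
        (Set.finite_singleton (![1, 0, 0] : V3 k)))).subset ?_
    rintro _ ⟨i, ⟨hi1, hi2⟩, rfl⟩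
    by_cases c2 : X i 2 ≠ 0
    · left
      refine ⟨(X i 0 / X i 2, X i 1 / X i 2), ⟨⟨X i, c2, hi1, hi2, rfl⟩, ⟨X i, c2, hi1, hi2, rfl⟩⟩, ?_⟩
      simp only [nrm, if_pos c2]
    · right
      by_cases c1 : X i 1 ≠ 0
      · left
        refine ⟨X i 0 / X i 1, ⟨X i, c1, hi1, hi2, rfl⟩, ?_⟩
        simp only [nrm, if_neg c2, if_pos c1]
      · right
        simp only [nrm, if_neg c2, if_neg c1, Set.mem_singleton_iff]
  · rintro _ ⟨i, -, rfl⟩
    refine (hpar i).subset ?_
    rintro j ⟨-, hj⟩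
    obtain ⟨c, -, hc⟩ := nrm_smul (hX i)
    obtain ⟨c', -, hc'⟩ := nrm_smul (hX j)
    have hj' : nrm (X j) = nrm (X i) := hj
    rw [hj'] at hc'
    simp only [Set.mem_ofPred_eq]
    rw [hc, hc']
    funext l
    fin_cases l <;> simp [crs] <;> ring

end Pool.Agent.Helper2.KX
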