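import Pool.Agent.Helper2.KX.A1
import Pool.Agent.Helper2.KX.A1b

/-!
# Norms of forms on good Wehler surfaces are not zero
-/

namespace Pool.Agent.Helper2.KX

variable {t : Bool}

open MvPolynomial Pool.Agent.Helper47.NI

universe u

variable {k : Type u} [Field k]

/-! ### The three facts about surfaces that unfold the line and the conic -/

/-- The condition does not depend on the representative of the first point. -/
theorem WD.IsPt.smul {W : WD t k} {u v : V3 k} (h : W.IsPt u v) (c : k) :
    W.IsPt (fun i => c * u i) v := by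
  obtain ⟨h1, h2⟩ := h
  constructor
  · have : dot (W.line v) (fun i => c * u i) = c * dot (W.line v) u := by
      simp only [dot, Fin.sum_univ_three]; ring
    rw [this, h1, mul_zero]
  · have : qf (W.con v) (fun i => c * u i) = c ^ 2 * qf (W.con v) u := by
      simp only [qf, Fin.sum_univ_three]; ring
    rw [this, h2, mul_zero]

theorem crs_smul_left (a : k) (u v : V3 k) (r : Fin 3) :
    crs (fun b => a * u b) v r = a * crs u v r := by
  fin_cases r <;> simp [crs] <;> ring

theorem crs_crs_single (p q : V3 k) (i r : Fin 3) :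
    crs (crs p q) (Pi.single i 1) r = q r * p i - p r * q i := by
  fin_cases i <;> fin_cases r <;> simp [crs] <;> ring

/-- A line is not contained in a fibre. -/
theorem WD.fiber_finite {W : WD t k} (hW : W.Half) {v : V3 k} (hv : v ≠ 0) {p q : V3 k}
    (hpq : crs p q ≠ 0) : {s : k | W.IsPt (fun i => p i + s * q i) v}.Finite := by
  classical
  by_contra hinf
  have hinf' : {s : k | W.IsPt (fun i => p i + s * q i) v}.Infinite := hinf
  obtain ⟨T, hT, hcard⟩ := hinf'.exists_subset_card_eq 3
  obtain ⟨s1, s2, s3, h12, h13, h23, rfl⟩ := Finset.card_eq_three.1 hcard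
  have hs1 : W.IsPt (fun i => p i + s1 * q i) v := hT (by simp)
  have hs2 : W.IsPt (fun i => p i + s2 * q i) v := hT (by simp)
  have hs3 : W.IsPt (fun i => p i + s3 * q i) v := hT (by simp)
  set l := W.line v with hl
  set c := W.con v with hc
  have d12 : s1 - s2 ≠ 0 := sub_ne_zero.2 h12
  have d13 : s1 - s3 ≠ 0 := sub_ne_zero.2 h13
  have d23 : s2 - s3 ≠ 0 := sub_ne_zero.2 h23
  -- the line
  have hlin : ∀ s, dot l (fun i => p i + s * q i) = dot l p + s * dot l q := by
    intro s
    simp only [dot, Fin.sum_univ_three]; ring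
  have hlq : dot l q = 0 := by
    have e1 := hs1.1
    have e2 := hs2.1
    rw [← hl, hlin] at e1 e2
    have : (s1 - s2) * dot l q = 0 := by linear_combination e1 - e2
    exact (mul_eq_zero.1 this).resolve_left d12
  have hlp : dot l p = 0 := by
    have e1 := hs1.1
    rw [← hl, hlin, hlq] at e1
    linear_combination e1
  -- the conic
  have hcon : ∀ s, qf c (fun i => p i + s * q i) = qf c p + s * bf c p q + s ^ 2 * qf c q := by
    intro s
    simp only [qf, bf, Fin.sum_univ_three]; ring
  have e1 := hs1.2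
  have e2 := hs2.2
  have e3 := hs3.2
  rw [← hc, hcon] at e1 e2 e3
  have f12 : bf c p q + (s1 + s2) * qf c q = 0 := by
    have : (s1 - s2) * (bf c p q + (s1 + s2) * qf c q) = 0 := by linear_combination e1 - e2
    exact (mul_eq_zero.1 this).resolve_left d12
  have f13 : bf c p q + (s1 + s3) * qf c q = 0 := by
    have : (s1 - s3) * (bf c p q + (s1 + s3) * qf c q) = 0 := by linear_combination e1 - e3
    exact (mul_eq_zero.1 this).resolve_left d13
  have hqq : qf c q = 0 := by
    have : (s2 - s3) * qf c q = 0 := by linear_combination f12 - f13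
    exact (mul_eq_zero.1 this).resolve_left d23
  have hpq' : bf c p q = 0 := by rw [hqq, mul_zero, add_zero] at f12; exact f12
  have hpp : qf c p = 0 := by rw [hqq, hpq'] at e1; linear_combination e1
  -- the vectors `l × e i` are combinations of `p` and `q`
  obtain ⟨a, ha⟩ : ∃ a, crs p q a ≠ 0 := by
    by_contra hcon
    push Not at hcon
    exact hpq (funext hcon)
  set w := crs p q with hw
  -- `w a * l = l a * w`
  have hlw : ∀ b, w a * l b = l a * w b := by
    simp only [dot, Fin.sum_univ_three] at hlp hlq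
    intro b
    fin_cases a <;> fin_cases b <;> simp [hw, crs] <;> first
      | ring1
      | linear_combination (q 0) * hlp - (p 0) * hlq
      | linear_combination (q 1) * hlp - (p 1) * hlq
      | linear_combination (q 2) * hlp - (p 2) * hlq
      | linear_combination (p 0) * hlq - (q 0) * hlp
      | linear_combination (p 1) * hlq - (q 1) * hlp
      | linear_combination (p 2) * hlq - (q 2) * hlp
  have hG : ∀ i j, (w a) ^ 2 * W.G v i j = 0 := by
    intro i j
    have h1 : ∀ i : Fin 3, ∀ r, w a * crs l (Pi.single i 1) r =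
        l a * (q r * p i - p r * q i) := by
      intro i r
      rw [← crs_smul_left, funext hlw, crs_smul_left, hw, crs_crs_single]
    have h3 : (w a) ^ 2 * W.G v i j = bf c (fun r => w a * crs l (Pi.single i 1) r)
        (fun r => w a * crs l (Pi.single j 1) r) := by
      show (w a) ^ 2 * bf c (crs l (Pi.single i 1)) (crs l (Pi.single j 1)) = _
      simp only [bf, Fin.sum_univ_three]; ring
    have h4 : ∀ i : Fin 3, (fun r => w a * crs l (Pi.single i 1) r) =
        fun r => l a * (q r * p i - p r * q i) := fun i => funext (h1 i)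
    rw [h3, h4, h4]
    simp only [bf, qf, Fin.sum_univ_three] at hpq' hpp hqq ⊢
    linear_combination (2 * (l a) ^ 2 * p i * p j) * hqq + (2 * (l a) ^ 2 * q i * q j) * hpp -
      ((l a) ^ 2 * (p i * q j + q i * p j)) * hpq'
  obtain ⟨i, j, hij⟩ := WD.G_ne hW hv
  exact hij ((mul_eq_zero.1 (hG i j)).resolve_left (pow_ne_zero 2 ha))

/-! ### Norms -/

theorem Uni.of_ne {v : V3 k} (h : v ≠ 0) : Uni v := uni_iff.2 h

/-- Two vectors in the plane of a linear form. -/
theorem exists_plane {η : V3 k} (h : η ≠ 0) : ∃ p q : V3 k, crs p q ≠ 0 ∧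
    dot η p = 0 ∧ dot η q = 0 := by
  obtain ⟨a, ha⟩ : ∃ a, η a ≠ 0 := by
    by_contra hcon
    push Not at hcon
    exact h (funext hcon)
  have hd : ∀ i : Fin 3, dot η (crs η (Pi.single i 1)) = 0 := by
    intro i
    fin_cases i <;> simp [dot, crs, Fin.sum_univ_three] <;> ring
  have key : ∀ i j : Fin 3, i ≠ j → i ≠ a → j ≠ a →
      crs (crs η (Pi.single i 1)) (crs η (Pi.single j 1)) a ≠ 0 := by
    intro i j hij hia hja
    have h1 : crs (crs η (Pi.single i 1)) (crs η (Pi.single j 1)) a = η a * η a ∨
        crs (crs η (Pi.single i 1)) (crs η (Pi.single j 1)) a = -(η a * η a) := by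
      fin_cases i <;> fin_cases j <;> fin_cases a <;>
        first
          | exact absurd rfl hij
          | exact absurd rfl hia
          | exact absurd rfl hja
          | (left; simp [crs]; done)
          | (right; simp [crs]; done)
          | (left; simp [crs]; ring1)
          | (right; simp [crs]; ring1)
    rcases h1 with h1 | h1
    · rw [h1]; exact mul_ne_zero ha ha
    · rw [h1]; exact neg_ne_zero.2 (mul_ne_zero ha ha)
  obtain ⟨i, j, hij, hia, hja⟩ : ∃ i j : Fin 3, i ≠ j ∧ i ≠ a ∧ j ≠ a := by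
    revert a
    intro a _ _
    fin_cases a
    · exact ⟨1, 2, by decide, by decide, by decide⟩
    · exact ⟨0, 2, by decide, by decide, by decide⟩
    · exact ⟨0, 1, by decide, by decide, by decide⟩
  refine ⟨_, _, fun h0 => key i j hij hia hja ?_, hd i, hd j⟩
  rw [h0]
  rfl

/-- An irreducible form vanishes at one of the two points over a vector only for special
vectors. -/
theorem WD.norm_irreducible [IsAlgClosed k] [CharZero k] (W : WD t k) (hW : W.Good)
    {h : MvPolynomial (Fin 3) k} {d : ℕ} (hd : h.IsHomogeneous d) (hi : Irreducible h)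
    (hz : ∀ x x' y : V3 k, (∀ p, eval y (W.Gp p) = pr x x' p) → eval x h * eval x' h = 0) :
    False := by
  classical
  have h2 : (2 : k) ≠ 0 := two_ne_zero
  have hinfk : Infinite k := IsAlgClosed.instInfinite
  -- every vector is below a zero of `h`
  have hbelow : ∀ v : V3 k, v ≠ 0 → ∃ u : V3 k, u ≠ 0 ∧ W.IsPt u v ∧ eval u h = 0 := by
    intro v hv
    obtain ⟨u, hu, hp⟩ := W.exists_pt v
    obtain ⟨u', hc, hp'⟩ := W.exists_conj (Uni.of_ne hu) hp
    have hc' : ∀ p, eval v (W.Gp p) = pr u u' p := by
      intro p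
      rw [WD.eval_Gp, ← hc p.1 p.2]
      rfl
    rcases mul_eq_zero.1 (hz u u' v hc') with h0 | h0
    · exact ⟨u, hu, hp, h0⟩
    · obtain ⟨i, j, hg⟩ := WD.G_ne hW.1 hv
      exact ⟨u', WD.conj_ne hc ⟨(i, j), by rw [WD.eval_Gp]; exact hg⟩, hp', h0⟩
  -- a zero of `h` and the two points over it
  obtain ⟨u0, hu0, hp0, hh0⟩ := hbelow ![1, 0, 0] (by
    intro h0
    simpa using congrFun h0 0)
  have hv1 : (![1, 0, 0] : V3 k) ≠ 0 := by
    intro h0
    simpa using congrFun h0 0
  set v1 : V3 k := ![1, 0, 0] with hv1def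
  obtain ⟨v2, hc12, hp2⟩ := W.swap.exists_conj (Uni.of_ne hv1) ((W.swap_isPt u0 v1).2 hp0)
  have hv2 : v2 ≠ 0 := by
    obtain ⟨i, j, hg⟩ := WD.G_ne hW.2 hu0
    exact WD.conj_ne hc12 ⟨(i, j), by rw [WD.eval_Gp]; exact hg⟩
  obtain ⟨η, hη⟩ := exists_eta (k := k) (n := 3) (ι := Bool) (fun b => if b then v1 else v2)
    (by intro b; cases b <;> simp [hv1, hv2])
  have hη1 : eval v1 (lin η) ≠ 0 := by simpa using hη true
  have hη2 : eval v2 (lin η) ≠ 0 := by simpa using hη false
  have hη0 : η ≠ 0 := by
    rintro rfl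
    apply hη1
    rw [eval_lin]
    simp
  -- the norm of the linear form
  obtain ⟨M, hM, hMv⟩ := Dbl.exists_norm W.dbl.swap h2 (lin_isHomogeneous η) (lin_isHomogeneous η)
  have hMv' : ∀ x x' y : V3 k, (∀ p, eval y (W.swap.Gp p) = pr x x' p) →
      eval y M = eval x (lin η) * eval x' (lin η) + eval x (lin η) * eval x' (lin η) := hMv
  -- a family of common zeros
  obtain ⟨p, q, hpq, hp, hq⟩ := exists_plane hη0
  have hvt : ∀ t : k, (fun i => p i + t * q i : V3 k) ≠ 0 := by
    intro t h0
    apply hpq
    have h1 : ∀ i, p i = -(t * q i) := fun i => by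
      have := congrFun h0 i
      simp only [Pi.zero_apply] at this
      linear_combination this
    funext r
    fin_cases r <;> simp [crs, h1] <;> ring
  choose U hU hUp hUh using fun t : k => hbelow _ (hvt t)
  have hUM : ∀ t, eval (U t) M = 0 := by
    intro t
    obtain ⟨v', hc', -⟩ := W.swap.exists_conj (Uni.of_ne (hvt t)) ((W.swap_isPt _ _).2 (hUp t))
    have h1 : ∀ p', eval (U t) (W.swap.Gp p') = pr (fun i => p i + t * q i) v' p' := by
      intro p'
      rw [WD.eval_Gp, ← hc' p'.1 p'.2]
      rfl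
    rw [hMv' _ _ _ h1]
    have h3 : eval (fun i => p i + t * q i : V3 k) (lin η) = 0 := by
      rw [eval_lin]
      have e1 := hp
      have e2 := hq
      simp only [dot, Fin.sum_univ_three] at e1 e2 ⊢
      linear_combination e1 + t * e2
    rw [h3]
    ring
  have hpar : ∀ t, {s | crs (U t) (U s) = 0}.Finite := by
    intro t
    refine (WD.fiber_finite (W := W.swap) hW.2 (hU t) hpq).subset ?_
    intro s hs
    simp only [Set.mem_ofPred_eq] at hs ⊢
    rw [W.swap_isPt]
    -- `U s` is a multiple of `U t`, and conversely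
    obtain ⟨a, ha⟩ : ∃ a, U s a ≠ 0 := by
      by_contra hcon
      push Not at hcon
      exact hU s (funext hcon)
    have h1 : U t = fun i => (U t a / U s a) * U s i := by
      have e0 := congrFun hs 0
      have e1 := congrFun hs 1
      have e2 := congrFun hs 2
      simp only [crs, Matrix.cons_val, Pi.zero_apply] at e0 e1 e2
      funext i
      rw [div_mul_eq_mul_div, eq_div_iff ha]
      fin_cases a <;> fin_cases i <;> simp <;> first
        | ring1
        | linear_combination e0
        | linear_combination e1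
        | linear_combination e2
        | linear_combination -e0
        | linear_combination -e1
        | linear_combination -e2
    rw [h1]
    exact (hUp s).smul _
  -- `h` divides the norm
  have hdvd : h ∣ M := by
    by_contra hnd
    have hrel : IsRelPrime h M := hi.isRelPrime_iff_not_dvd.2 hnd
    have hfin := finite_of_coprime U hU hpar hd hM hrel
    have huniv : {i | aeval (U i) h = 0 ∧ aeval (U i) M = 0} = Set.univ := by
      ext t
      simp only [Set.mem_ofPred_eq, Set.mem_univ, iff_true, aeval_eq_eval]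
      exact ⟨hUh t, hUM t⟩
    rw [huniv] at hfin
    exact Set.infinite_univ hfin
  obtain ⟨c, hc⟩ := hdvd
  have h3 : ∀ p', eval u0 (W.swap.Gp p') = pr v1 v2 p' := by
    intro p'
    rw [WD.eval_Gp, ← hc12 p'.1 p'.2]
    rfl
  have h4 := hMv' _ _ _ h3
  rw [hc, map_mul, hh0, zero_mul, ← two_mul] at h4
  exact mul_ne_zero h2 (mul_ne_zero hη1 hη2) h4.symm

/-- The norm of a form which is not zero is not zero (proof: norms are multiplicative, so `h` is
irreducible; if the norm is zero then every `v` is below a zero of `h`, so for all linear `g` the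
norm of `g` and `h` have infinitely many common zeros, and `h` divides the norm of `g`, for all
linear `g`, which is absurd). -/
theorem WD.norm_ne_zero [IsAlgClosed k] [CharZero k] (W : WD t k) (hW : W.Good)
    {h : MvPolynomial (Fin 3) k} {d : ℕ} (hd : h.IsHomogeneous d) (hh : h ≠ 0)
    {N : MvPolynomial (Fin 3) k}
    (hN : ∀ x x' y : V3 k, (∀ p, eval y (W.Gp p) = pr x x' p) →
      eval y N = eval x h * eval x' h + eval x h * eval x' h) : N ≠ 0 := by
  classical
  have h2 : (2 : k) ≠ 0 := two_ne_zero
  have hinfk : Infinite k := IsAlgClosed.instInfinite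
  have hpair : ∀ y : V3 k, y ≠ 0 → ∃ x x' : V3 k, ∀ p, eval y (W.Gp p) = pr x x' p := by
    intro y hy
    obtain ⟨u, hu, hp⟩ := W.exists_pt y
    obtain ⟨u', hc, -⟩ := W.exists_conj (Uni.of_ne hu) hp
    exact ⟨u, u', fun p => by rw [WD.eval_Gp, ← hc p.1 p.2]; rfl⟩
  revert hh d N
  refine WfDvdMonoid.induction_on_irreducible (motive := fun h => ∀ {d : ℕ}, h.IsHomogeneous d → h ≠ 0 →
    ∀ {N : MvPolynomial (Fin 3) k}, (∀ x x' y : V3 k, (∀ p, eval y (W.Gp p) = pr x x' p) →
      eval y N = eval x h * eval x' h + eval x h * eval x' h) → N ≠ 0) h ?_ ?_ ?_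
  · intro d _ h0
    exact absurd rfl h0
  · intro u hu d _ _ N hN hN0
    obtain ⟨x, x', e⟩ := hpair ![1, 0, 0] (by
      intro h0
      simpa using congrFun h0 0)
    have h1 := hN x x' _ e
    rw [hN0, map_zero, ← two_mul] at h1
    exact mul_ne_zero h2 (mul_ne_zero (hu.map (eval x)).ne_zero (hu.map (eval x')).ne_zero) h1.symm
  · intro a i ha0 hi ih d hd hia N hN hN0
    obtain ⟨d1, d2, hid, had, -⟩ := hom_factor hd hia
    obtain ⟨Ni, -, hNi⟩ := Dbl.exists_norm W.dbl h2 hid hid
    obtain ⟨Na, -, hNa⟩ := Dbl.exists_norm W.dbl h2 had had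
    have hNi' : ∀ x x' y : V3 k, (∀ p, eval y (W.Gp p) = pr x x' p) →
      eval y Ni = eval x i * eval x' i + eval x i * eval x' i := hNi
    have hNa' : ∀ x x' y : V3 k, (∀ p, eval y (W.Gp p) = pr x x' p) →
      eval y Na = eval x a * eval x' a + eval x a * eval x' a := hNa
    have hprod : Ni * Na = 0 := by
      have h0 : X 0 * (Ni * Na) = 0 := by
        refine MvPolynomial.funext fun y => ?_
        rw [map_mul, eval_X, map_zero]
        by_cases hy : y = 0
        · rw [hy]; simp
        · obtain ⟨x, x', e⟩ := hpair y hy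
          have h1 := hN x x' y e
          rw [hN0, map_zero, map_mul, map_mul, ← two_mul] at h1
          have h3 := (mul_eq_zero.1 h1.symm).resolve_left h2
          rw [map_mul, hNi' x x' y e, hNa' x x' y e]
          linear_combination (4 * y 0) * h3
      exact (mul_eq_zero.1 h0).resolve_left (X_ne_zero _)
    rcases mul_eq_zero.1 hprod with h0 | h0
    · refine WD.norm_irreducible W hW hid hi fun x x' y e => ?_
      have h1 := hNi' x x' y e
      rw [h0, map_zero, ← two_mul] at h1
      exact (mul_eq_zero.1 h1.symm).resolve_left h2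
    · exact ih had ha0 hNa' h0

/-! ### Base change -/

theorem WD.Half.map {R S : Type*} [CommRing R] [CommRing S] (f : R →+* S) {W : WD t R}
    (h : W.Half) : (W.map f).Half := by
  obtain ⟨N, hN⟩ := h
  refine ⟨N, fun i => ?_⟩
  have h1 := Ideal.mem_map_of_mem (MvPolynomial.map f : MvPolynomial (Fin 3) R →+* _) (hN i)
  rw [map_pow, MvPolynomial.map_X, Ideal.map_span] at h1
  refine Ideal.span_mono ?_ h1
  rintro _ ⟨_, ⟨ij, rfl⟩, rfl⟩
  refine ⟨ij, ?_⟩
  have h2 := WD.G_map (MvPolynomial.map f : MvPolynomial (Fin 3) R →+* MvPolynomial (Fin 3) S)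
    (W.map (C : R →+* MvPolynomial (Fin 3) R)) X
  have h3 : (W.map (C : R →+* MvPolynomial (Fin 3) R)).map
      (MvPolynomial.map f : MvPolynomial (Fin 3) R →+* MvPolynomial (Fin 3) S) =
      (W.map f).map (C : S →+* MvPolynomial (Fin 3) S) := by
    rw [WD.map_map, WD.map_map]
    congr 1
    ext a
    simp
  have h4 : vmap (MvPolynomial.map f : MvPolynomial (Fin 3) R →+* MvPolynomial (Fin 3) S) X =
      X := by
    funext i
    simp [vmap]
  rw [h3, h4] at h2
  exact congrFun (congrFun h2 ij.1) ij.2

theorem WD.Good.map {R S : Type*} [CommRing R] [CommRing S] (f : R →+* S) {W : WD t R}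
    (h : W.Good) : (W.map f).Good := ⟨h.1.map f, by rw [WD.swap_map]; exact h.2.map f⟩

theorem WD.Gp_map {K : Type*} [Field K] (f : k →+* K) (W : WD t k) (p : Fin 3 × Fin 3) :
    (W.map f).Gp p = MvPolynomial.map f (W.Gp p) := by
  have h2 := WD.G_map (MvPolynomial.map f : MvPolynomial (Fin 3) k →+* MvPolynomial (Fin 3) K)
    (W.map (C : k →+* MvPolynomial (Fin 3) k)) X
  have h3 : (W.map (C : k →+* MvPolynomial (Fin 3) k)).map
      (MvPolynomial.map f : MvPolynomial (Fin 3) k →+* MvPolynomial (Fin 3) K) =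
      (W.map f).map (C : K →+* MvPolynomial (Fin 3) K) := by
    rw [WD.map_map, WD.map_map]
    congr 1
    ext a
    simp
  have h4 : vmap (MvPolynomial.map f : MvPolynomial (Fin 3) k →+* MvPolynomial (Fin 3) K) X =
      X := by
    funext i
    simp [vmap]
  rw [h3, h4] at h2
  exact congrFun (congrFun h2 p.1) p.2

theorem WD.exists_G00 [CharZero k] (W : WD t k) (hW : W.Good) :
    ∃ u : V3 k, u 0 = 1 ∧ W.swap.G u 0 0 ≠ 0 := by
  classical
  have hgood : (W.map (algebraMap k (AlgebraicClosure k))).Good := hW.map _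
  have : CharZero (AlgebraicClosure k) :=
    charZero_of_injective_algebraMap (algebraMap k (AlgebraicClosure k)).injective
  have h1 : (W.map (algebraMap k (AlgebraicClosure k))).swap.Gp (0, 0) ≠ 0 := by
    refine WD.norm_ne_zero _ ⟨hgood.2, by rw [WD.swap_swap]; exact hgood.1⟩ (isHomogeneous_X _ (0 : Fin 3)) (X_ne_zero _)
      fun x x' y e => ?_
    rw [e (0, 0), eval_X, eval_X]
    rfl
  have h2 : W.swap.Gp (0, 0) ≠ 0 := by
    intro h0
    apply h1
    rw [WD.swap_map, WD.Gp_map, h0, map_zero]
  have h3 : X 0 * W.swap.Gp (0, 0) ≠ 0 := mul_ne_zero (X_ne_zero _) h2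
  obtain ⟨z, hz⟩ : ∃ z : V3 k, eval z (X 0 * W.swap.Gp (0, 0)) ≠ 0 := by
    by_contra hcon
    push Not at hcon
    exact h3 (MvPolynomial.funext fun z => by rw [hcon z, map_zero])
  rw [map_mul, eval_X] at hz
  have hz0 : z 0 ≠ 0 := left_ne_zero_of_mul hz
  have hz1 := right_ne_zero_of_mul hz
  refine ⟨fun i => (z 0)⁻¹ * z i, inv_mul_cancel₀ hz0, ?_⟩
  rw [← WD.eval_Gp W.swap _ (0, 0)]
  intro h0
  apply hz1
  have h4 := aeval_smul_of_hom (W.swap.Gp_hom (0, 0)) (fun i => (z 0)⁻¹ * z i)
    (by rw [aeval_eq_eval]; exact h0) (z 0)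
  rw [aeval_eq_eval] at h4
  have h5 : (z 0) • (fun i => (z 0)⁻¹ * z i) = z := by
    funext i
    simp only [Pi.smul_apply, smul_eq_mul]
    field_simp
  rw [h5] at h4
  exact h4

end Pool.Agent.Helper2.KX
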