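import Pool.Agent.Helper2.KX.A1c
import Pool.Agent.Helper2.KX.Par

/-!
# Infinite orbits on good Wehler surfaces are dense
-/

namespace Pool.Agent.Helper2.KX

variable {t : Bool}

open MvPolynomial Pool.Agent.Helper47.NI

namespace TP

variable {δ : MvPolynomial WI ℤ} [Fact (Nice t δ)] {k : Type} [Field k] [Two k]

/-- The points `F ^ n x` and `s1 (F ^ n x)`. -/
noncomputable def fam (x : TP t δ k) (i : ℤ × Bool) : TP t δ k :=
  if i.2 then ((F ^ i.1 : Equiv.Perm (TP t δ k)) x).s1 else (F ^ i.1 : Equiv.Perm (TP t δ k)) x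

/-- The index of the other point over the second coordinate. -/
def fs (i : ℤ × Bool) : ℤ × Bool := (i.1, !i.2)

/-- The index of the other point over the first coordinate. -/
def ft (i : ℤ × Bool) : ℤ × Bool := if i.2 then (i.1 + 1, false) else (i.1 - 1, true)

theorem fs_fs (i : ℤ × Bool) : fs (fs i) = i := by
  rcases i with ⟨n, b⟩
  simp [fs]

theorem ft_ft (i : ℤ × Bool) : ft (ft i) = i := by
  rcases i with ⟨n, b⟩
  cases b <;> simp [ft]

theorem fam_W (x : TP t δ k) (i : ℤ × Bool) : (fam x i).W = x.W := by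
  unfold fam
  split_ifs
  · rw [s1_W, zpow_W]
  · rw [zpow_W]

theorem fam_fs (x : TP t δ k) (i : ℤ × Bool) : fam x (fs i) = (fam x i).s1 := by
  rcases i with ⟨n, b⟩
  cases b
  · rfl
  · show (F ^ n : Equiv.Perm (TP t δ k)) x = (((F ^ n : Equiv.Perm (TP t δ k)) x).s1).s1
    rw [s1_s1]

theorem fam_ft (x : TP t δ k) (i : ℤ × Bool) : fam x (ft i) = (fam x i).s2 := by
  rcases i with ⟨n, b⟩
  cases b
  · show ((F ^ (n - 1) : Equiv.Perm (TP t δ k)) x).s1 = ((F ^ n : Equiv.Perm (TP t δ k)) x).s2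
    have h1 : (F ^ n : Equiv.Perm (TP t δ k)) x = F ((F ^ (n - 1) : Equiv.Perm (TP t δ k)) x) := by
      rw [← Equiv.Perm.mul_apply, ← zpow_one_add]
      congr 2
      ring
    rw [h1, F_apply, s2_s2]
  · show (F ^ (n + 1) : Equiv.Perm (TP t δ k)) x = (((F ^ n : Equiv.Perm (TP t δ k)) x).s1).s2
    rw [← F_apply, ← Equiv.Perm.mul_apply, ← zpow_one_add]
    congr 2
    ring

/-- The points of the orbit are pairwise not parallel. -/
theorem eq_of_par {x : TP t δ k} (hx : ∀ n : ℕ, 0 < n → ¬ Par ((F ^ n : Equiv.Perm (TP t δ k)) x) x)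
    {n m : ℤ} (h : Par ((F ^ n : Equiv.Perm (TP t δ k)) x) ((F ^ m : Equiv.Perm (TP t δ k)) x)) : n = m := by
  have key : ∀ n m : ℤ, m < n →
      ¬ Par ((F ^ n : Equiv.Perm (TP t δ k)) x) ((F ^ m : Equiv.Perm (TP t δ k)) x) := by
    intro n m hmn h
    obtain ⟨q, hq⟩ := Int.eq_ofNat_of_zero_le (sub_nonneg.mpr hmn.le)
    have h1 := Pool.Agent.Helper2.KX.Par.Par.zpow (-m) (by rw [zpow_W, zpow_W]) h
    rw [← Equiv.Perm.mul_apply, ← Equiv.Perm.mul_apply, ← zpow_add, ← zpow_add] at h1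
    have e1 : -m + n = (q : ℤ) := by rw [← hq]; ring
    have e2 : -m + m = 0 := by ring
    rw [e1, e2, zpow_natCast, zpow_zero, Equiv.Perm.one_apply] at h1
    refine hx q ?_ h1
    rcases Nat.eq_zero_or_pos q with h2 | h2
    · rw [h2] at hq
      simp only [Nat.cast_zero] at hq
      omega
    · exact h2
  rcases lt_trichotomy n m with h1 | h1 | h1
  · exact absurd (Pool.Agent.Helper2.KX.Par.Par.symm h) (key m n h1)
  · exact h1
  · exact absurd h (key n m h1)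

/-- A point is parallel to finitely many points of the family. -/
theorem finite_par {x : TP t δ k} (hx : ∀ n : ℕ, 0 < n → ¬ Par ((F ^ n : Equiv.Perm (TP t δ k)) x) x)
    (y : TP t δ k) : {j | Par y (fam x j)}.Finite := by
  have h1 : ({j : ℤ × Bool | j.2 = false ∧ Par y (fam x j)}).Subsingleton := by
    rintro ⟨n, b⟩ ⟨hb, h1⟩ ⟨m, b'⟩ ⟨hb', h2⟩
    simp only at hb hb'
    subst hb
    subst hb'
    have h3 : Par ((F ^ n : Equiv.Perm (TP t δ k)) x) ((F ^ m : Equiv.Perm (TP t δ k)) x) :=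
      Pool.Agent.Helper2.KX.Par.Par.trans (Pool.Agent.Helper2.KX.Par.Par.symm h1) h2
    rw [eq_of_par hx h3]
  have h2 : ({j : ℤ × Bool | j.2 = true ∧ Par y (fam x j)}).Subsingleton := by
    rintro ⟨n, b⟩ ⟨hb, h1⟩ ⟨m, b'⟩ ⟨hb', h2⟩
    simp only at hb hb'
    subst hb
    subst hb'
    have h3 : Par (((F ^ n : Equiv.Perm (TP t δ k)) x).s1) (((F ^ m : Equiv.Perm (TP t δ k)) x).s1) :=
      Pool.Agent.Helper2.KX.Par.Par.trans (Pool.Agent.Helper2.KX.Par.Par.symm h1) h2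
    have h4 := Pool.Agent.Helper2.KX.Par.Par.s1 (by rw [s1_W, s1_W, zpow_W, zpow_W]) h3
    rw [s1_s1, s1_s1] at h4
    rw [eq_of_par hx h4]
  refine (h1.finite.union h2.finite).subset ?_
  rintro ⟨n, b⟩ hj
  cases b
  · exact Or.inl ⟨rfl, hj⟩
  · exact Or.inr ⟨rfl, hj⟩

theorem two_ne : (2 : k) ≠ 0 := (Two.unit (R := k)).ne_zero

/-- The norm of a form in the first coordinates. -/
theorem exists_step1 [IsAlgClosed k] [CharZero k] {W : WD t k} (hW : W.Good)
    {h : MvPolynomial (Fin 3) k} {d : ℕ} (hd : h.IsHomogeneous d) (hh : h ≠ 0) :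
    ∃ (g : MvPolynomial (Fin 3) k) (e : ℕ), g.IsHomogeneous e ∧ g ≠ 0 ∧
      ∀ y : TP t δ k, y.W = W → eval y.u h = 0 → eval y.v g = 0 := by
  obtain ⟨g, hg, hval⟩ := W.dbl.exists_norm (two_ne (k := k)) hd hd
  refine ⟨g, dd t * d, hg, W.norm_ne_zero hW hd hh hval, fun y hy hu => ?_⟩
  rw [hval y.u y.s1.u y.v (fun p => ?_), hu]
  · ring
  · show eval y.v (W.Gp p) = _
    rw [WD.eval_Gp, ← hy]
    exact (y.s1_conj p.1 p.2).symm

/-- The norm of a form in the second coordinates. -/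
theorem exists_step2 [IsAlgClosed k] [CharZero k] {W : WD t k} (hW : W.Good)
    {h : MvPolynomial (Fin 3) k} {d : ℕ} (hd : h.IsHomogeneous d) (hh : h ≠ 0) :
    ∃ (g : MvPolynomial (Fin 3) k) (e : ℕ), g.IsHomogeneous e ∧ g ≠ 0 ∧
      ∀ y : TP t δ k, y.W = W → eval y.v h = 0 → eval y.u g = 0 := by
  obtain ⟨g, hg, hval⟩ := W.swap.dbl.exists_norm (two_ne (k := k)) hd hd
  have hW' : W.swap.Good := ⟨hW.2, by rw [WD.swap_swap]; exact hW.1⟩
  refine ⟨g, dd t * d, hg, W.swap.norm_ne_zero hW' hd hh hval, fun y hy hu => ?_⟩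
  rw [hval y.v y.s2.v y.u (fun p => ?_), hu]
  · ring
  · show eval y.u (W.swap.Gp p) = _
    rw [WD.eval_Gp, ← hy]
    exact (y.s2_conj p.1 p.2).symm

/-- Iterated norms. -/
theorem exists_steps [IsAlgClosed k] [CharZero k] {W : WD t k} (hW : W.Good) (r : ℕ)
    {h : MvPolynomial (Fin 3) k} {d : ℕ} (hd : h.IsHomogeneous d) (hh : h ≠ 0) :
    ∃ (g : MvPolynomial (Fin 3) k) (e : ℕ), g.IsHomogeneous e ∧ g ≠ 0 ∧
      ∀ y : TP t δ k, y.W = W → eval y.u h = 0 → ∀ j ≤ r, eval ((F ^ j : Equiv.Perm (TP t δ k)) y).u g = 0 := by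
  induction r with
  | zero =>
    refine ⟨h, d, hd, hh, fun y _ hu j hj => ?_⟩
    obtain rfl : j = 0 := by omega
    exact hu
  | succ r ih =>
    obtain ⟨g, e, hg, hg0, hval⟩ := ih
    obtain ⟨g1, e1, hg1, hg10, hval1⟩ := exists_step1 (δ := δ) hW hg hg0
    obtain ⟨g2, e2, hg2, hg20, hval2⟩ := exists_step2 (δ := δ) hW hg1 hg10
    have key : ∀ y : TP t δ k, y.W = W → eval y.u g = 0 → eval y.u g2 = 0 ∧ eval (F y).u g2 = 0 := by
      intro y hy hu
      have h1 := hval1 y hy hu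
      refine ⟨hval2 y hy h1, ?_⟩
      have h2 := hval2 y.s1 (by rw [s1_W, hy]) (by rw [s1_v]; exact h1)
      rw [F_apply, s2_u]
      exact h2
    refine ⟨g2, e2, hg2, hg20, fun y hy hu j hj => ?_⟩
    rcases Nat.lt_or_ge r j with h1 | h1
    · obtain rfl : j = r + 1 := by omega
      have h2 := (key ((F ^ r : Equiv.Perm (TP t δ k)) y) (by rw [pow_W, hy]) (hval y hy hu r le_rfl)).2
      rw [← Equiv.Perm.mul_apply, ← pow_succ'] at h2
      exact h2
    · exact (key ((F ^ j : Equiv.Perm (TP t δ k)) y) (by rw [pow_W, hy]) (hval y hy hu j h1)).1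

/-- Proof.  Index set `ℤ × Bool`: the points `F ^ n x` and `s1 (F ^ n x)`.  A point is parallel to
at most two of them, so `finite_of_coprime` gives `fX`, `fY` of `closure` (with `Ω = k`).
If `h` vanishes at all `F ^ (ℓ a) x` then the iterated norms vanish at all points. -/
theorem dense_orbit [IsAlgClosed k] [CharZero k] (x : TP t δ k)
    (hx : ∀ n : ℕ, 0 < n → ¬ Par ((F ^ n : Equiv.Perm (TP t δ k)) x) x) {ℓ : ℕ} (hℓ : 0 < ℓ)
    {h : MvPolynomial (Fin 3) k} {d : ℕ} (hd : h.IsHomogeneous d) (hh : h ≠ 0) :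
    ∃ a : ℤ, eval ((F ^ ((ℓ : ℤ) * a) : Equiv.Perm (TP t δ k)) x).u h ≠ 0 := by
  by_contra hcon
  push Not at hcon
  have hW : x.W.Good := (Fact.out : Nice t δ) k x.W x.hd
  obtain ⟨g, e, hg, hg0, hval⟩ := exists_steps (δ := δ) hW ℓ hd hh
  have h1 : ∀ n : ℤ, eval ((F ^ n : Equiv.Perm (TP t δ k)) x).u g = 0 := by
    intro n
    have hl : (0 : ℤ) < ℓ := by exact_mod_cast hℓ
    obtain ⟨j, hj⟩ := Int.eq_ofNat_of_zero_le (Int.emod_nonneg n hl.ne')
    have h2 := Int.emod_lt_of_pos n hl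
    have h3 := hval ((F ^ ((ℓ : ℤ) * (n / ℓ)) : Equiv.Perm (TP t δ k)) x) (zpow_W _ x) (hcon _) j
      (by rw [hj] at h2; omega)
    rw [← Equiv.Perm.mul_apply, ← zpow_natCast, ← zpow_add] at h3
    have h4 : (j : ℤ) + ℓ * (n / ℓ) = n := by
      have h5 : n % ℓ = (j : ℤ) := hj
      rw [← h5]
      exact Int.emod_add_mul_ediv n ℓ
    rw [h4] at h3
    exact h3
  obtain ⟨g1, e1, hg1, hg10, hval1⟩ := exists_step1 (δ := δ) hW hg hg0
  have h2 : ∀ n : ℤ, eval ((F ^ n : Equiv.Perm (TP t δ k)) x).v g1 = 0 :=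
    fun n => hval1 _ (zpow_W n x) (h1 n)
  have h3 : ∀ i, eval (fam x i).v g1 = 0 := by
    rintro ⟨n, b⟩
    cases b
    · exact h2 n
    · show eval (((F ^ n : Equiv.Perm (TP t δ k)) x).s1).v g1 = 0
      rw [s1_v]
      exact h2 n
  obtain ⟨g2, e2, hg2, hg20, hval2⟩ := exists_step2 (δ := δ) hW hg1 hg10
  have h4 : ∀ i, eval (fam x i).u g2 = 0 := fun i => hval2 _ (fam_W x i) (h3 i)
  refine closure (two_ne (k := k)) (by norm_num) (by cases t <;> simp [dd]) x.W.dbl (x.W.dbl_dense hW) (x.W.dbl_swap_dense hW)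
    (fun i => (fam x i).u) (fun i => (fam x i).v) fs ft
    (Function.LeftInverse.injective fs_fs) (Function.LeftInverse.injective ft_ft)
    ?_ ?_ ?_ ?_ hg2 hg1 hg20 hg10 ?_ ?_
  · intro i
    refine ⟨1, fun p => ?_⟩
    show aeval (fam x i).v (x.W.Gp p) = 1 * pr (fam x i).u (fam x (fs i)).u p
    rw [aeval_eq_eval, WD.eval_Gp, one_mul, fam_fs, ← fam_W x i]
    exact ((fam x i).s1_conj p.1 p.2).symm
  · intro i
    refine ⟨1, fun p => ?_⟩
    show aeval (fam x i).u (x.W.swap.Gp p) = 1 * pr (fam x i).v (fam x (ft i)).v p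
    rw [aeval_eq_eval, WD.eval_Gp, one_mul, fam_ft, ← fam_W x i]
    exact ((fam x i).s2_conj p.1 p.2).symm
  · intro F1 F2 d1 d2 hF1 hF2 h12
    refine finite_of_coprime (fun i => (fam x i).u) (fun i => Pool.Agent.Helper2.KX.Par.Uni.ne (fam x i).hu)
      (fun i => ?_) hF1 hF2 h12
    refine ((finite_par hx (fam x i)).union (finite_par hx (fam x i).s2)).subset fun j hj => ?_
    exact Pool.Agent.Helper2.KX.Par.par_of_u (by rw [fam_W, fam_W]) hj
  · intro F1 F2 d1 d2 hF1 hF2 h12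
    refine finite_of_coprime (fun i => (fam x i).v) (fun i => Pool.Agent.Helper2.KX.Par.Uni.ne (fam x i).hv)
      (fun i => ?_) hF1 hF2 h12
    refine ((finite_par hx (fam x i)).union (finite_par hx (fam x i).s1)).subset fun j hj => ?_
    exact Pool.Agent.Helper2.KX.Par.par_of_v (by rw [fam_W, fam_W]) hj
  · intro i
    rw [aeval_eq_eval]
    exact h4 i
  · intro i
    rw [aeval_eq_eval]
    exact h3 i

end TP

end Pool.Agent.Helper2.KX
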