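import Pool.Agent.Helper2.KX.A4b

/-!
# Specialization of periodic points
-/

namespace Pool.Agent.Helper2.KX

variable {t : Bool}

open MvPolynomial

theorem Two.of_hom {R S : Type*} [CommRing R] [CommRing S] [Two R] (f : R →+* S) : Two S :=
  ⟨by
    have := (Two.unit (R := R)).map f
    rwa [map_ofNat] at this⟩

theorem vmap_injective {R S : Type*} [CommRing R] [CommRing S] {f : R →+* S}
    (hf : Function.Injective f) {u v : V3 R} (h : vmap f u = vmap f v) : u = v :=
  funext fun i => hf (congrFun h i)

theorem WD.IsPt.of_map {R S : Type*} [CommRing R] [CommRing S] {f : R →+* S}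
    (hf : Function.Injective f) {W : WD t R} {u v : V3 R}
    (h : (W.map f).IsPt (vmap f u) (vmap f v)) : W.IsPt u v := by
  obtain ⟨h1, h2⟩ := h
  constructor
  · apply hf
    rw [map_zero, map_dot, ← WD.line_map, h1]
  · apply hf
    rw [WD.con_map] at h2
    rw [map_zero, ← h2]
    simp only [qf, vmap, map_sum, map_mul]

namespace TP

variable {δ : MvPolynomial WI ℤ}

theorem Par.of_map {R S : Type} [CommRing R] [CommRing S] {f : R →+* S}
    (hf : Function.Injective f) {x y : TP t δ R} (h : Par (x.map f) (y.map f)) : Par x y := by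
  have key : ∀ u v : V3 R, crs (vmap f u) (vmap f v) = 0 → crs u v = 0 := by
    intro u v h
    apply vmap_injective hf
    rw [vmap_crs, h]
    funext i; simp [vmap]
  exact ⟨key _ _ h.1, key _ _ h.2⟩

/-- A nonzero vector can be made unimodular over a valuation ring. -/
theorem exists_denom {K : Type*} [Field K] (O : ValuationSubring K) {v : V3 K} (hv : v ≠ 0) :
    ∃ j, v j ≠ 0 ∧ ∀ i, v i / v j ∈ O := by
  obtain ⟨j, -, hj⟩ := Finset.exists_max_image Finset.univ (fun j => O.valuation (v j))
    Finset.univ_nonempty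
  have hj0 : v j ≠ 0 := by
    intro h
    apply hv
    funext i
    have := hj i (Finset.mem_univ i)
    simp only [h, map_zero, le_zero_iff, map_eq_zero] at this
    exact this
  refine ⟨j, hj0, fun i => ?_⟩
  rw [← O.valuation_le_one_iff, map_div₀]
  exact div_le_one_of_le₀ (hj i (Finset.mem_univ i)) zero_le'

variable [Fact (Nice t δ)]

/-- A point whose specialization is not periodic is not periodic. -/
theorem periodic_specialize {k Ω : Type} [Field k] [Field Ω] [Algebra k Ω] [Two k] [Two Ω]
    (x : TP t δ Ω) (y : TP t δ k) (hxW : x.W = y.W.map (algebraMap k Ω)) (i : Fin 3)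
    (hxi : x.u i ≠ 0) (hyi : y.u i ≠ 0) (O : ValuationSubring Ω)
    (h1 : ∀ c : k, algebraMap k Ω c ∈ O) (h2 : ∀ j, x.u j / x.u i ∈ O)
    (h3 : ∀ j, x.u j / x.u i - algebraMap k Ω (y.u j / y.u i) ∈ O.nonunits) {n : ℤ}
    (hx : Par ((F ^ n : Equiv.Perm (TP t δ Ω)) x) x) :
    Par ((F ^ n : Equiv.Perm (TP t δ k)) y) y := by
  set f : k →+* O := (algebraMap k Ω).codRestrict O h1 with hf
  have hsf : O.subtype.comp f = algebraMap k Ω := RingHom.ext fun _ => rfl
  have : Two O := Two.of_hom f
  set r : O →+* IsLocalRing.ResidueField O := IsLocalRing.residue O with hr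
  have : Two (IsLocalRing.ResidueField O) := Two.of_hom r
  obtain ⟨j, hj, hv⟩ := exists_denom O x.hv.ne_zero
  have hinj : Function.Injective O.subtype := Subtype.val_injective
  let u' : V3 O := fun l => ⟨x.u l / x.u i, h2 l⟩
  let v' : V3 O := fun l => ⟨x.v l / x.v j, hv l⟩
  have hu' : vmap O.subtype u' = smv (x.u i)⁻¹ x.u := by
    funext l
    show x.u l / x.u i = _
    rw [smv_apply, div_eq_inv_mul]
  have hv' : vmap O.subtype v' = smv (x.v j)⁻¹ x.v := by
    funext l
    show x.v l / x.v j = _
    rw [smv_apply, div_eq_inv_mul]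
  have hWW : (y.W.map f).map O.subtype = x.W := by
    rw [WD.map_map, hsf, hxW]
  let X : TP t δ O :=
    { W := y.W.map f
      u := u'
      v := v'
      hd := by rw [evW_map]; exact y.hd.map f
      hu := uni_of_one (i := i) (Subtype.ext (div_self hxi))
      hv := uni_of_one (i := j) (Subtype.ext (div_self hj))
      pt := by
        apply WD.IsPt.of_map hinj
        rw [hu', hv', hWW]
        exact x.pt.smv _ _ }
  have hXW : (X.map O.subtype).W = x.W := hWW
  have hXx : Par x (X.map O.subtype) := by
    constructor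
    · show crs x.u (vmap O.subtype u') = 0
      rw [hu', crs_anti, crs_smv_self]; funext l; simp
    · show crs x.v (vmap O.subtype v') = 0
      rw [hv', crs_anti, crs_smv_self]; funext l; simp
  have hX1 := hXx.periodic hXW hx
  rw [← map_zpow] at hX1
  have hX2 := (hX1.of_map hinj).map r
  rw [map_zpow] at hX2
  -- the specialization is over `y`
  have hres : ∀ l, r (u' l) = r (f (y.u l / y.u i)) := by
    intro l
    rw [← sub_eq_zero, ← map_sub, hr, IsLocalRing.residue_eq_zero_iff,
      ← ValuationSubring.coe_mem_nonunits_iff]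
    exact h3 l
  have hcrs : crs (X.map r).u (y.map (r.comp f)).u = 0 := by
    have e : (y.map (r.comp f)).u = smv ((r.comp f) (y.u i)) (X.map r).u := by
      funext l
      show (r.comp f) (y.u l) = (r.comp f) (y.u i) * r (u' l)
      rw [hres l, ← RingHom.comp_apply, ← map_mul, mul_div_cancel₀ _ hyi]
    rw [e, crs_anti, crs_smv_self]; funext l; simp
  have hW2 : (X.map r).W = (y.map (r.comp f)).W := rfl
  have hfin : Par ((F ^ n : Equiv.Perm (TP t δ (IsLocalRing.ResidueField O))) (y.map (r.comp f)))
      (y.map (r.comp f)) := by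
    rcases third hW2 hcrs with h | h
    · exact h.periodic hW2.symm hX2
    · exact periodic_s2 (h.periodic (by rw [s2_W]; exact hW2.symm) hX2)
  rw [← map_zpow] at hfin
  exact hfin.of_map (r.comp f).injective

end TP

end Pool.Agent.Helper2.KX
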