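import Pool.Agent.Helper2.KX.A4a
import Pool.Agent.Helper37.RP.Closure
import Pool.Agent.Helper65.KW.PA

/-!
# Lemma P: periodic `p`-adic points have a bounded period
-/

set_option autoImplicit false

namespace Pool.Agent.Helper2.KX
open Pool.Agent.Helper65.KW (AR ev0 ev1 dia ev_ext phi pi2 phi_bound phi_pi2 isUnit_AR isUnit_of_pi2
  pi2_iff norm_of_dvd dvd_of_norm)

variable {t : Bool}

section pairs

variable {A R1 R2 : Type} [CommRing A] [CommRing R1] [CommRing R2]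

private theorem map_qf_p (f : A →+* R1) (W : WD t A) (u v : V3 A) :
    f (qf (W.con v) u) = qf ((W.map f).con (vmap f v)) (vmap f u) := by
  rw [WD.con_map]
  simp only [qf, vmap, map_sum, map_mul]

private theorem isPt_pair (f1 : A →+* R1) (f2 : A →+* R2)
    (hf : ∀ a b : A, f1 a = f1 b → f2 a = f2 b → a = b) {W : WD t A} {u v : V3 A}
    (h1 : (W.map f1).IsPt (vmap f1 u) (vmap f1 v)) (h2 : (W.map f2).IsPt (vmap f2 u) (vmap f2 v)) :
    W.IsPt u v := by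
  constructor
  · apply hf
    · rw [map_zero, map_dot, ← WD.line_map]
      exact h1.1
    · rw [map_zero, map_dot, ← WD.line_map]
      exact h2.1
  · apply hf
    · rw [map_zero, map_qf_p]
      exact h1.2
    · rw [map_zero, map_qf_p]
      exact h2.2

end pairs

private theorem crs_pair {R : Type} [CommRing R] {u w : V3 R} (h : crs u w = 0) (i j : Fin 3) :
    u i * w j = u j * w i := by
  have h0 := congrFun h 0
  have h1 := congrFun h 1
  have h2 := congrFun h 2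
  simp only [crs, Matrix.cons_val, Pi.zero_apply] at h0 h1 h2
  fin_cases i <;> fin_cases j <;> simp <;>
    first
    | linear_combination h0
    | linear_combination h1
    | linear_combination h2
    | linear_combination -h0
    | linear_combination -h1
    | linear_combination -h2

private theorem eq_of_crs {R : Type} [CommRing R] {u w : V3 R} {a : Fin 3} (h : crs u w = 0)
    (hu : u a = 1) (hw : w a = 1) : u = w := by
  funext i
  have h1 := crs_pair h i a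
  rw [hu, hw, mul_one, one_mul] at h1
  exact h1

/-- a unimodular vector over a local ring has a coordinate that is a unit -/
private theorem exists_unit {R : Type} [CommRing R] [IsLocalRing R] {u : V3 R} (h : Uni u) :
    ∃ a, IsUnit (u a) := by
  by_contra hcon
  push Not at hcon
  obtain ⟨w, hw⟩ := h
  have h1 : dot w u ∈ IsLocalRing.maximalIdeal R := by
    refine Ideal.sum_mem _ fun i _ => Ideal.mul_mem_left _ _ ?_
    exact (IsLocalRing.mem_maximalIdeal _).2 (hcon i)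
  rw [hw] at h1
  exact (IsLocalRing.mem_maximalIdeal _).1 h1 isUnit_one

namespace TP

variable {δ : MvPolynomial WI ℤ} [Fact (Nice t δ)] {p : ℕ} [Fact p.Prime]

omit [Fact (Nice t δ)] in
/-- two congruent points give a point over the ring of pairs -/
private theorem exists_pair {j : ℕ} {y y' : TP t δ ℤ_[p]} (hW : y'.W = y.W) {a b : Fin 3}
    (ha : y.u a = 1) (ha' : y'.u a = 1) (hb : y.v b = 1) (hb' : y'.v b = 1)
    (hu : ∀ i, (p : ℤ_[p]) ^ j ∣ y'.u i - y.u i) (hv : ∀ i, (p : ℤ_[p]) ^ j ∣ y'.v i - y.v i) :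
    ∃ Y : TP t δ (AR p j), Y.map (ev0 p j) = y ∧ Y.map (ev1 p j) = y' := by
  let U : V3 (AR p j) := fun i => ⟨(y.u i, y'.u i), hu i⟩
  let V : V3 (AR p j) := fun i => ⟨(y.v i, y'.v i), hv i⟩
  have e1 : (y.W.map (dia p j)).map (ev0 p j) = y.W := rfl
  have e2 : (y.W.map (dia p j)).map (ev1 p j) = y'.W := by rw [hW]; rfl
  have e3 : vmap (ev0 p j) U = y.u := rfl
  have e4 : vmap (ev1 p j) U = y'.u := rfl
  have e5 : vmap (ev0 p j) V = y.v := rfl
  have e6 : vmap (ev1 p j) V = y'.v := rfl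
  have hU : U a = 1 := ev_ext ha ha'
  have hV : V b = 1 := ev_ext hb hb'
  refine ⟨⟨y.W.map (dia p j), U, V, ?_, uni_of_one hU, uni_of_one hV, ?_⟩, ?_, ?_⟩
  · rw [evW_map]
    exact y.hd.map _
  · refine isPt_pair (ev0 p j) (ev1 p j) (fun _ _ h h' => ev_ext h h') ?_ ?_
    · rw [e1, e3, e5]
      exact y.pt
    · rw [e2, e4, e6]
      exact y'.pt
  · exact TP.ext e1 e3 e5
  · exact TP.ext e2 e4 e6

/-- the main estimate -/
private theorem pair_bound [Two ℤ_[p]] [Two (DualNumber (ZMod (p ^ 2)))] {M : ℕ}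
    (hF : ∀ y : TP t δ (DualNumber (ZMod (p ^ 2))),
      (F ^ M : Equiv.Perm (TP t δ (DualNumber (ZMod (p ^ 2))))) y = y)
    {j : ℕ} (hj : 2 ≤ j) {y y' : TP t δ ℤ_[p]} (hW : y'.W = y.W) {a b : Fin 3}
    (ha : y.u a = 1) (ha' : y'.u a = 1) (hb : y.v b = 1) (hb' : y'.v b = 1)
    (hu : ∀ i, (p : ℤ_[p]) ^ j ∣ y'.u i - y.u i) (hv : ∀ i, (p : ℤ_[p]) ^ j ∣ y'.v i - y.v i)
    {z z' : TP t δ ℤ_[p]} {c d c' d' : ℤ_[p]ˣ}
    (hz : z = ((F ^ M : Equiv.Perm (TP t δ ℤ_[p])) y).scale c d)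
    (hz' : z' = ((F ^ M : Equiv.Perm (TP t δ ℤ_[p])) y').scale c' d')
    (za : z.u a = 1) (za' : z'.u a = 1) (zb : z.v b = 1) (zb' : z'.v b = 1) :
    (∀ i, ‖(z'.u i - z.u i) - (y'.u i - y.u i)‖ ≤ (p : ℝ) ^ (-2 : ℤ) * (p : ℝ) ^ (-j : ℤ)) ∧
    (∀ i, ‖(z'.v i - z.v i) - (y'.v i - y.v i)‖ ≤ (p : ℝ) ^ (-2 : ℤ) * (p : ℝ) ^ (-j : ℤ)) ∧
    (∀ i, pi2 p (z.u i) = pi2 p (y.u i)) ∧ (∀ i, pi2 p (z.v i) = pi2 p (y.v i)) := by
  obtain ⟨Y, hY0, hY1⟩ := exists_pair hW ha ha' hb hb' hu hv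
  have : Two (AR p j) := by
    refine ⟨?_⟩
    have h2 : (2 : AR p j) = dia p j 2 := by
      rw [map_ofNat]
    rw [h2]
    exact (Two.unit (R := ℤ_[p])).map _
  obtain ⟨Z, hZ⟩ : ∃ Z, Z = (F ^ M : Equiv.Perm (TP t δ (AR p j))) Y := ⟨_, rfl⟩
  have hZ0 : Z.map (ev0 p j) = (F ^ M : Equiv.Perm (TP t δ ℤ_[p])) y := by
    rw [hZ, map_pow, hY0]
  have hZ1 : Z.map (ev1 p j) = (F ^ M : Equiv.Perm (TP t δ ℤ_[p])) y' := by
    rw [hZ, map_pow, hY1]
  have hZp : Z.map (phi p hj) = Y.map (phi p hj) := by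
    rw [hZ, map_pow, hF]
  have hZu : ∀ i, phi p hj (Z.u i) = phi p hj (Y.u i) := fun i =>
    congrFun (congrArg TP.u hZp) i
  have hZv : ∀ i, phi p hj (Z.v i) = phi p hj (Y.v i) := fun i =>
    congrFun (congrArg TP.v hZp) i
  have hYu0 : ∀ i, ev0 p j (Y.u i) = y.u i := fun i => congrFun (congrArg TP.u hY0) i
  have hYu1 : ∀ i, ev1 p j (Y.u i) = y'.u i := fun i => congrFun (congrArg TP.u hY1) i
  have hYv0 : ∀ i, ev0 p j (Y.v i) = y.v i := fun i => congrFun (congrArg TP.v hY0) i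
  have hYv1 : ∀ i, ev1 p j (Y.v i) = y'.v i := fun i => congrFun (congrArg TP.v hY1) i
  have hYa : Y.u a = 1 := ev_ext (by rw [hYu0, ha, map_one]) (by rw [hYu1, ha', map_one])
  have hYb : Y.v b = 1 := ev_ext (by rw [hYv0, hb, map_one]) (by rw [hYv1, hb', map_one])
  obtain ⟨A, hA⟩ : IsUnit (Z.u a) := isUnit_AR hj (by rw [hZu, hYa, map_one])
  obtain ⟨B, hB⟩ : IsUnit (Z.v b) := isUnit_AR hj (by rw [hZv, hYb, map_one])
  have hz_u : ∀ i, z.u i = c * ev0 p j (Z.u i) := fun i => by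
    rw [hz, scale_u, smv_apply, ← hZ0]
    rfl
  have hz_v : ∀ i, z.v i = d * ev0 p j (Z.v i) := fun i => by
    rw [hz, scale_v, smv_apply, ← hZ0]
    rfl
  have hz'_u : ∀ i, z'.u i = c' * ev1 p j (Z.u i) := fun i => by
    rw [hz', scale_u, smv_apply, ← hZ1]
    rfl
  have hz'_v : ∀ i, z'.v i = d' * ev1 p j (Z.v i) := fun i => by
    rw [hz', scale_v, smv_apply, ← hZ1]
    rfl
  have key : ∀ {A : (AR p j)ˣ} {Za : AR p j} {c : ℤ_[p]ˣ} (f : AR p j →+* ℤ_[p])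
      (hA : (A : AR p j) = Za) (h : (c : ℤ_[p]) * f Za = 1),
      (c : ℤ_[p]) = f ((A⁻¹ : (AR p j)ˣ) : AR p j) := by
    intro A Za c f hA h
    have h1 : f Za * f ((A⁻¹ : (AR p j)ˣ) : AR p j) = 1 := by
      rw [← map_mul, ← hA, A.mul_inv, map_one]
    calc (c : ℤ_[p]) = c * (f Za * f ((A⁻¹ : (AR p j)ˣ) : AR p j)) := by rw [h1, mul_one]
      _ = (c * f Za) * f ((A⁻¹ : (AR p j)ˣ) : AR p j) := by ring
      _ = _ := by rw [h, one_mul]
  have hc : (c : ℤ_[p]) = ev0 p j ((A⁻¹ : (AR p j)ˣ) : AR p j) :=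
    key _ hA (by rw [← hz_u, za])
  have hc' : (c' : ℤ_[p]) = ev1 p j ((A⁻¹ : (AR p j)ˣ) : AR p j) :=
    key _ hA (by rw [← hz'_u, za'])
  have hd : (d : ℤ_[p]) = ev0 p j ((B⁻¹ : (AR p j)ˣ) : AR p j) :=
    key _ hB (by rw [← hz_v, zb])
  have hd' : (d' : ℤ_[p]) = ev1 p j ((B⁻¹ : (AR p j)ˣ) : AR p j) :=
    key _ hB (by rw [← hz'_v, zb'])
  have key2 : ∀ {A : (AR p j)ˣ} {Za : AR p j} (hA : (A : AR p j) = Za) (h : phi p hj Za = 1),
      phi p hj ((A⁻¹ : (AR p j)ˣ) : AR p j) = 1 := by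
    intro A Za hA h
    have h1 : phi p hj Za * phi p hj ((A⁻¹ : (AR p j)ˣ) : AR p j) = 1 := by
      rw [← map_mul, ← hA, A.mul_inv, map_one]
    rw [h, one_mul] at h1
    exact h1
  have pA := key2 hA (by rw [hZu, hYa, map_one])
  have pB := key2 hB (by rw [hZv, hYb, map_one])
  have eu : ∀ i, phi p hj (((A⁻¹ : (AR p j)ˣ) : AR p j) * Z.u i) = phi p hj (Y.u i) := fun i => by
    rw [map_mul, pA, one_mul, hZu]
  have ev : ∀ i, phi p hj (((B⁻¹ : (AR p j)ˣ) : AR p j) * Z.v i) = phi p hj (Y.v i) := fun i => by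
    rw [map_mul, pB, one_mul, hZv]
  refine ⟨fun i => ?_, fun i => ?_, fun i => ?_, fun i => ?_⟩
  · have h1 := phi_bound hj (eu i)
    rw [map_mul, map_mul, ← hc, ← hc', ← hz_u, ← hz'_u, hYu0, hYu1] at h1
    exact h1
  · have h1 := phi_bound hj (ev i)
    rw [map_mul, map_mul, ← hd, ← hd', ← hz_v, ← hz'_v, hYv0, hYv1] at h1
    exact h1
  · have h1 := phi_pi2 hj (eu i)
    rw [map_mul, ← hc, ← hz_u, hYu0] at h1
    exact h1
  · have h1 := phi_pi2 hj (ev i)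
    rw [map_mul, ← hd, ← hz_v, hYv0] at h1
    exact h1

/-- the coordinates -/
private noncomputable def co (y : TP t δ ℤ_[p]) : (Fin 3 ⊕ Fin 3) → ℚ_[p] :=
  Sum.elim (fun i => (y.u i : ℚ_[p])) (fun i => (y.v i : ℚ_[p]))

omit [Fact (Nice t δ)] in
private theorem co_inj {y y' : TP t δ ℤ_[p]} (hW : y.W = y'.W) (h : co y = co y') : y = y' := by
  refine TP.ext hW (funext fun i => ?_) (funext fun i => ?_)
  · exact Subtype.ext (congrFun h (Sum.inl i))
  · exact Subtype.ext (congrFun h (Sum.inr i))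

omit [Fact (Nice t δ)] in
private theorem par_of_map {y y' : TP t δ ℤ_[p]}
    (h : Par (y.map (PadicInt.Coe.ringHom (p := p))) (y'.map (PadicInt.Coe.ringHom (p := p)))) :
    Par y y' := by
  have key : ∀ u w : V3 ℤ_[p], crs (vmap (PadicInt.Coe.ringHom (p := p)) u)
      (vmap (PadicInt.Coe.ringHom (p := p)) w) = 0 → crs u w = 0 := by
    intro u w h
    rw [← vmap_crs] at h
    funext i
    exact Subtype.ext (congrFun h i)
  exact ⟨key _ _ h.1, key _ _ h.2⟩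

private theorem norm_prime (l : ℕ) (hl : l.Prime) : (p : ℝ) ^ (-2 : ℤ) < ‖(l : ℚ_[p])‖ := by
  have hp1 : (1 : ℝ) < p := by exact_mod_cast (Fact.out : p.Prime).one_lt
  by_cases h : l = p
  · rw [h, Padic.norm_p, ← zpow_neg_one]
    exact zpow_lt_zpow_right₀ hp1 (by norm_num)
  · have h1 : ‖(l : ℚ_[p])‖ = 1 := by
      rw [Padic.norm_natCast_eq_one_iff]
      exact (Nat.coprime_primes (Fact.out : p.Prime) hl).2 (Ne.symm h)
    rw [h1]
    exact zpow_lt_one_of_neg₀ hp1 (by norm_num)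

/-- Proof.  Parallel unimodular vectors over a local ring differ by a unit, and `F` commutes with
multiplication of the vectors by units.  The points over `ZMod (p ^ 2)` are points over the dual
numbers, so `F ^ M` fixes all points modulo `p ^ 2` (exactly, as vectors).  Choose places `a`, `b`
where `x.u a`, `x.v b` are units and normalize the vectors of `y k = F ^ (M * k) x` by
`w k = (u / u a, v / v b)`; let `j ≥ 2` and `w 1 ≡ w 0` modulo `p ^ j`.  The ring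
`A = {(r, s) : r ≡ s mod p ^ j}` has the homomorphism `(r, s) ↦ r + ε (s - r) / p ^ j` to the dual
numbers over `ZMod (p ^ 2)`, and `(w 0, w 1)` is a point over `A`; as `F ^ M` is trivial on the
dual numbers one gets `(w 2 - w 1) / p ^ j ≡ (w 1 - w 0) / p ^ j` modulo `p ^ 2`.  The same for any
two points congruent to `x` modulo `p ^ 2`: `‖(g z - z) - (g w - w)‖ ≤ p ^ (-2) ‖z - w‖` for the
normalized map `g` of `F ^ M`, so `Helper37/RP/Closure.lean: fixed_of_periodic` applies. -/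
theorem lemmaP {p : ℕ} [Fact p.Prime] [Two ℤ_[p]] [Two (DualNumber (ZMod (p ^ 2)))] {M : ℕ}
    (hF : ∀ y : TP t δ (DualNumber (ZMod (p ^ 2))),
      (F ^ M : Equiv.Perm (TP t δ (DualNumber (ZMod (p ^ 2))))) y = y)
    (x : TP t δ ℤ_[p]) {n : ℕ} (hn : 0 < n)
    (h : Par ((F ^ n : Equiv.Perm (TP t δ ℤ_[p])) x) x) :
    Par ((F ^ M : Equiv.Perm (TP t δ ℤ_[p])) x) x := by
  classical
  have hp1 : (1 : ℝ) < p := by exact_mod_cast (Fact.out : p.Prime).one_lt
  obtain ⟨ι, hι⟩ : ∃ ι : ℤ_[p] →+* ℚ_[p], ι = PadicInt.Coe.ringHom (p := p) := ⟨_, rfl⟩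
  have hTwo : Two ℚ_[p] := ⟨isUnit_iff_ne_zero.2 two_ne_zero⟩
  obtain ⟨a, c0, hc0⟩ := exists_unit x.hu
  obtain ⟨b, d0, hd0⟩ := exists_unit x.hv
  obtain ⟨x0, hx0⟩ : ∃ x0, x0 = x.scale c0⁻¹ d0⁻¹ := ⟨_, rfl⟩
  have x0W : x0.W = x.W := by rw [hx0, scale_W]
  have x0a : x0.u a = 1 := by rw [hx0, scale_u, smv_apply, ← hc0, Units.inv_mul]
  have x0b : x0.v b = 1 := by rw [hx0, scale_v, smv_apply, ← hd0, Units.inv_mul]
  have x0x : Par x0 x := by rw [hx0]; exact par_scale _ _ _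
  let S' : TP t δ ℤ_[p] → Prop := fun y => y.W = x.W ∧ y.u a = 1 ∧ y.v b = 1 ∧
    (∀ i, pi2 p (y.u i) = pi2 p (x0.u i)) ∧ (∀ i, pi2 p (y.v i) = pi2 p (x0.v i))
  have hSx0 : S' x0 := ⟨x0W, x0a, x0b, fun _ => rfl, fun _ => rfl⟩
  -- the normalized image
  have hex1 : ∀ y, S' y → ∃ z, S' z ∧ ∃ c d,
      z = ((F ^ M : Equiv.Perm (TP t δ ℤ_[p])) y).scale c d := by
    intro y hy
    obtain ⟨yW, ya, yb, yu, yv⟩ := hy
    obtain ⟨f, hf⟩ : ∃ f : ℤ_[p] →+* DualNumber (ZMod (p ^ 2)),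
      f = (TrivSqZeroExt.inlHom (ZMod (p ^ 2)) (ZMod (p ^ 2))).comp (pi2 p) := ⟨_, rfl⟩
    have hff : ∀ r, (f r).fst = pi2 p r := fun r => by rw [hf]; simp
    have h1 : ((F ^ M : Equiv.Perm (TP t δ ℤ_[p])) y).map f = y.map f := by
      rw [map_pow, hF]
    have h2 : f (((F ^ M : Equiv.Perm (TP t δ ℤ_[p])) y).u a) = f (y.u a) :=
      congrFun (congrArg TP.u h1) a
    have h3 : f (((F ^ M : Equiv.Perm (TP t δ ℤ_[p])) y).v b) = f (y.v b) :=
      congrFun (congrArg TP.v h1) b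
    obtain ⟨c, hc⟩ : IsUnit (((F ^ M : Equiv.Perm (TP t δ ℤ_[p])) y).u a) := by
      apply isUnit_of_pi2
      rw [← hff, h2, ya, hff, map_one]
    obtain ⟨d, hd⟩ : IsUnit (((F ^ M : Equiv.Perm (TP t δ ℤ_[p])) y).v b) := by
      apply isUnit_of_pi2
      rw [← hff, h3, yb, hff, map_one]
    obtain ⟨z, hz⟩ : ∃ z, z = ((F ^ M : Equiv.Perm (TP t δ ℤ_[p])) y).scale c⁻¹ d⁻¹ := ⟨_, rfl⟩
    have za : z.u a = 1 := by rw [hz, scale_u, smv_apply, ← hc, Units.inv_mul]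
    have zb : z.v b = 1 := by rw [hz, scale_v, smv_apply, ← hd, Units.inv_mul]
    obtain ⟨-, -, h4, h5⟩ := pair_bound hF (j := 2) le_rfl (rfl : y.W = y.W) ya ya yb yb
      (fun i => by rw [sub_self]; exact dvd_zero _) (fun i => by rw [sub_self]; exact dvd_zero _)
      hz hz za za zb zb
    refine ⟨z, ⟨?_, za, zb, fun i => (h4 i).trans (yu i), fun i => (h5 i).trans (yv i)⟩,
      _, _, hz⟩
    rw [hz, scale_W, pow_W, yW]
  let S : Set ((Fin 3 ⊕ Fin 3) → ℚ_[p]) := {v | ∃ y, S' y ∧ co y = v}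
  have hex : ∀ v, ∃ z, v ∈ S → (S' z ∧ ∃ y, S' y ∧ co y = v ∧ ∃ c d,
      z = ((F ^ M : Equiv.Perm (TP t δ ℤ_[p])) y).scale c d) := by
    intro v
    by_cases hv : v ∈ S
    · obtain ⟨y, hy, hyv⟩ := hv
      obtain ⟨z, hz, hz2⟩ := hex1 y hy
      exact ⟨z, fun _ => ⟨hz, y, hy, hyv, hz2⟩⟩
    · exact ⟨x, fun h => absurd h hv⟩
  choose G hG using hex
  have hSg : ∀ v ∈ S, co (G v) ∈ S := fun v hv => ⟨G v, (hG v hv).1, rfl⟩
  have hgb : ∀ v ∈ S, ∀ w ∈ S, ‖(co (G v) - v) - (co (G w) - w)‖ ≤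
      (p : ℝ) ^ (-2 : ℤ) * ‖v - w‖ := by
    intro v hv w hw
    by_cases hvw : v = w
    · rw [hvw, sub_self, sub_self, norm_zero, mul_zero]
    obtain ⟨hz, y, hy, hyv, c, d, hzy⟩ := hG v hv
    obtain ⟨hz', y', hy', hyw, c', d', hzy'⟩ := hG w hw
    generalize G v = z at hz hzy ⊢
    generalize G w = z' at hz' hzy' ⊢
    let dif : Fin 3 ⊕ Fin 3 → ℤ_[p] :=
      Sum.elim (fun i => y'.u i - y.u i) (fun i => y'.v i - y.v i)
    have hdif : ∀ k, ((dif k : ℤ_[p]) : ℚ_[p]) = w k - v k := by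
      rintro (i | i)
      · rw [← hyv, ← hyw]
        simp [dif, co]
      · rw [← hyv, ← hyw]
        simp [dif, co]
    obtain ⟨k0, hk0⟩ := Finite.exists_max fun k => ‖dif k‖
    have hne : dif k0 ≠ 0 := by
      intro h0
      apply hvw
      funext k
      have h1 := hk0 k
      rw [h0, norm_zero] at h1
      have h2 : dif k = 0 := norm_le_zero_iff.1 h1
      have h3 := hdif k
      rw [h2] at h3
      simp only [PadicInt.coe_zero] at h3
      exact (sub_eq_zero.1 h3.symm).symm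
    obtain ⟨j, hj⟩ : ∃ j, j = (dif k0).valuation := ⟨_, rfl⟩
    have hnj : ‖dif k0‖ = (p : ℝ) ^ (-j : ℤ) := by
      rw [hj, PadicInt.norm_eq_zpow_neg_valuation hne]
    have hpi : ∀ k, pi2 p (dif k) = 0 := by
      rintro (i | i)
      · show pi2 p (y'.u i - y.u i) = 0
        rw [map_sub, hy.2.2.2.1 i, hy'.2.2.2.1 i, sub_self]
      · show pi2 p (y'.v i - y.v i) = 0
        rw [map_sub, hy.2.2.2.2 i, hy'.2.2.2.2 i, sub_self]
    have hj2 : 2 ≤ j := by
      rw [hj, ← PadicInt.norm_le_pow_iff_le_valuation _ hne]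
      exact norm_of_dvd ((pi2_iff _).1 (hpi k0))
    have hdvd : ∀ k, (p : ℤ_[p]) ^ j ∣ dif k := fun k =>
      dvd_of_norm ((hk0 k).trans hnj.le)
    obtain ⟨h4, h5, -, -⟩ := pair_bound hF hj2 (hy'.1.trans hy.1.symm) hy.2.1 hy'.2.1 hy.2.2.1
      hy'.2.2.1 (fun i => hdvd (Sum.inl i)) (fun i => hdvd (Sum.inr i)) hzy hzy' hz.2.1 hz'.2.1
      hz.2.2.1 hz'.2.2.1
    have hvn : (p : ℝ) ^ (-j : ℤ) ≤ ‖v - w‖ := by
      rw [← hnj, PadicInt.norm_def, hdif, ← norm_neg, neg_sub]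
      exact norm_le_pi_norm (v - w) k0
    have hc0' : (0 : ℝ) ≤ (p : ℝ) ^ (-2 : ℤ) := by positivity
    refine (pi_norm_le_iff_of_nonneg (by positivity)).2 ?_
    rintro (i | i)
    · have e1 : ((co z - v) - (co z' - w)) (Sum.inl i) =
          -((((z'.u i - z.u i) - (y'.u i - y.u i) : ℤ_[p])) : ℚ_[p]) := by
        rw [← hyv, ← hyw]
        simp only [Pi.sub_apply, co, Sum.elim_inl]
        push_cast
        ring
      rw [e1, norm_neg, ← PadicInt.norm_def]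
      exact (h4 i).trans (mul_le_mul_of_nonneg_left hvn hc0')
    · have e1 : ((co z - v) - (co z' - w)) (Sum.inr i) =
          -((((z'.v i - z.v i) - (y'.v i - y.v i) : ℤ_[p])) : ℚ_[p]) := by
        rw [← hyv, ← hyw]
        simp only [Pi.sub_apply, co, Sum.elim_inr]
        push_cast
        ring
      rw [e1, norm_neg, ← PadicInt.norm_def]
      exact (h5 i).trans (mul_le_mul_of_nonneg_left hvn hc0')
  -- the point is periodic for the normalized map
  obtain ⟨X, hX⟩ : ∃ X, X = x0.map ι := ⟨_, rfl⟩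
  have hXW : X.W = (x.map ι).W := by rw [hX, map_W, map_W, x0W]
  have hXx : Par (x.map ι) X := by
    rw [hX]
    exact (x0x.map ι).symm
  have hn1 : Par ((F ^ (n : ℤ) : Equiv.Perm (TP t δ ℚ_[p])) X) X := by
    refine hXx.periodic hXW ?_
    have h1 := h.map ι
    rw [map_pow] at h1
    rw [zpow_natCast]
    exact h1
  have hn2 : ∀ k : ℕ, Par ((F ^ ((n * k : ℕ) : ℤ) : Equiv.Perm (TP t δ ℚ_[p])) X) X := by
    intro k
    induction k with
    | zero => simpa using Par.refl X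
    | succ k ih =>
      have e : ((n * (k + 1) : ℕ) : ℤ) = ((n * k : ℕ) : ℤ) + n := by push_cast; ring
      rw [e, zpow_add, Equiv.Perm.mul_apply]
      exact (Par.zpow (by rw [zpow_W]) hn1 _).trans ih
  have hclaim : ∀ k : ℕ, ∃ z, S' z ∧ (fun v => co (G v))^[k] (co x0) = co z ∧
      Par (z.map ι) ((F ^ (M * k) : Equiv.Perm (TP t δ ℚ_[p])) X) := by
    intro k
    induction k with
    | zero => exact ⟨x0, hSx0, rfl, by rw [hX]; exact Par.refl _⟩
    | succ k ih =>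
      obtain ⟨z, hz, hz1, hz2⟩ := ih
      obtain ⟨hw, y, hy, hyz, c, d, hwz⟩ := hG (co z) ⟨z, hz, rfl⟩
      have hyz' : y = z := co_inj (hy.1.trans hz.1.symm) hyz
      refine ⟨G (co z), hw, ?_, ?_⟩
      · rw [Function.iterate_succ_apply', hz1]
      · have h1 : Par (G (co z)) ((F ^ M : Equiv.Perm (TP t δ ℤ_[p])) z) := by
          rw [hwz, hyz']
          exact par_scale _ _ _
        have h2 := h1.map ι
        rw [map_pow] at h2
        have h3 : Par ((F ^ (M : ℤ) : Equiv.Perm (TP t δ ℚ_[p])) (z.map ι))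
            ((F ^ (M : ℤ) : Equiv.Perm (TP t δ ℚ_[p]))
              ((F ^ (M * k) : Equiv.Perm (TP t δ ℚ_[p])) X)) := by
          refine Par.zpow ?_ hz2 _
          rw [pow_W, hX, map_W, map_W, x0W, hz.1]
        rw [zpow_natCast, ← Equiv.Perm.mul_apply, ← pow_add] at h3
        have e : M * (k + 1) = M + M * k := by ring
        rw [e]
        exact h2.trans h3
  have hper : (fun v => co (G v))^[n] (co x0) = co x0 := by
    obtain ⟨z, hz, hz1, hz2⟩ := hclaim n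
    have h1 := hn2 M
    rw [zpow_natCast, mul_comm n M] at h1
    have h2 := hz2.trans h1
    rw [hX, hι] at h2
    have h3 := par_of_map h2
    have h4 : z = x0 := TP.ext (hz.1.trans x0W.symm) (eq_of_crs h3.1 hz.2.1 x0a)
      (eq_of_crs h3.2 hz.2.2.1 x0b)
    rw [hz1, h4]
  have hfix := Pool.Agent.Helper37.RP.fixed_of_periodic (F := ℚ_[p]) ((p : ℝ) ^ (-2 : ℤ))
    (by positivity) (zpow_le_one_of_nonpos₀ hp1.le (by norm_num)) (fun l hl => norm_prime l hl)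
    (fun v hv => norm_eq_zero.1 hv) S n hn (fun v => co (G v)) hSg hgb (co x0) ⟨x0, hSx0, rfl⟩
    hper
  obtain ⟨hw, y, hy, hyz, c, d, hwz⟩ := hG (co x0) ⟨x0, hSx0, rfl⟩
  have h1 : y = x0 := co_inj (hy.1.trans x0W.symm) hyz
  have h2 : G (co x0) = x0 := co_inj (hw.1.trans x0W.symm) hfix
  have h3 : Par ((F ^ M : Equiv.Perm (TP t δ ℤ_[p])) x0) x0 := by
    rw [h1] at hwz
    have h4 := par_scale ((F ^ M : Equiv.Perm (TP t δ ℤ_[p])) x0) c d
    rw [← hwz, h2] at h4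
    exact h4.symm
  have h4 : Par ((F ^ (M : ℤ) : Equiv.Perm (TP t δ ℚ_[p])) X) X := by
    have h5 := h3.map ι
    rw [map_pow, ← hX] at h5
    rw [zpow_natCast]
    exact h5
  have h5 := hXx.symm.periodic hXW.symm h4
  rw [zpow_natCast, ← map_pow, hι] at h5
  exact par_of_map h5

end TP

end Pool.Agent.Helper2.KX
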