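import Pool.Agent.Helper2.KX.B1
import Pool.Agent.Helper2.KX.E3
import Pool.Agent.Helper2.KW.C1

/-!
# Dense `p`-adic algebraic points
-/

set_option linter.unusedSectionVars false

namespace Pool.Agent.Helper2.KX

open MvPolynomial

section units

variable {R : Type} [CommRing R] {n : ℕ}

/-- The reduction of a point. -/
theorem CD.Ok.map {S : Type} [CommRing S] {τ : Fin n → Bool} {δ : Bool → MvPolynomial WI ℤ} (f : R →+* S) {c : CD τ R}
    {z : Fin (n + 1) → V3 R} (h : c.Ok δ z) : (c.map f).Ok δ (fun r => vmap f (z r)) where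
  pt := h.pt.map f
  uni := fun r => (h.uni r).map f
  wd := fun i => by rw [CD.wd_map, evW_map]; exact (h.wd i).map f

theorem CD.Ok.map_tp {S : Type} [CommRing S] {τ : Fin n → Bool} {δ : Bool → MvPolynomial WI ℤ} (f : R →+* S) {c : CD τ R}
    {z : Fin (n + 1) → V3 R} (h : c.Ok δ z) (i : Fin n) :
    (h.tp i).map f = (h.map f).tp i := by
  refine TP.ext ?_ rfl rfl
  exact (c.wd_map f z i).symm

theorem isUnit_of_sub_mem_jacobson {R : Type} [CommRing R] [IsLocalRing R] {I : Ideal R}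
    (hI : I ≤ IsLocalRing.maximalIdeal R) {a b : R} (ha : IsUnit a) (h : a - b ∈ I) :
    IsUnit b := by
  by_contra hb
  have h1 : b ∈ IsLocalRing.maximalIdeal R := (IsLocalRing.mem_maximalIdeal b).mpr hb
  have h2 : a ∈ IsLocalRing.maximalIdeal R := by
    have := (IsLocalRing.maximalIdeal R).add_mem (hI h) h1
    simpa using this
  exact (IsLocalRing.mem_maximalIdeal a).mp h2 ha

theorem Uni.of_sub_mem {R : Type} [CommRing R] [IsLocalRing R] {I : Ideal R}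
    (hI : I ≤ IsLocalRing.maximalIdeal R) {u v : V3 R} (hu : Uni u) (h : ∀ j, u j - v j ∈ I) :
    Uni v := by
  obtain ⟨w, hw⟩ := hu
  have h1 : IsUnit (dot w v) := by
    refine isUnit_of_sub_mem_jacobson hI (isUnit_one) ?_
    rw [← hw]
    simp only [dot, ← Finset.sum_sub_distrib, ← mul_sub]
    exact Ideal.sum_mem _ fun j _ => I.mul_mem_left _ (h j)
  obtain ⟨a, ha⟩ := h1
  refine ⟨fun j => (↑a⁻¹ : R) * w j, ?_⟩
  have : dot (fun j => (↑a⁻¹ : R) * w j) v = (↑a⁻¹ : R) * dot w v := by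
    simp only [dot, Finset.mul_sum]
    exact Finset.sum_congr rfl fun j _ => by ring
  rw [this, ← ha, Units.inv_mul]

/-- Points congruent to a good point are good. -/
theorem CD.Ok.of_cong {R : Type} [CommRing R] [IsLocalRing R] {τ : Fin n → Bool}
    {δ : Bool → MvPolynomial WI ℤ} {I : Ideal R} (hI : I ≤ IsLocalRing.maximalIdeal R) {c : CD τ R} {z z' : Fin (n + 1) → V3 R}
    (h : c.Ok δ z) (hz' : c.IsPt z') (hc : CD.Cong I z z') : c.Ok δ z' where
  pt := hz'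
  uni := fun r => Uni.of_sub_mem hI (h.uni r) (hc r)
  wd := fun i => by
    refine isUnit_of_sub_mem_jacobson hI (h.wd i) ?_
    rw [← Ideal.Quotient.eq, ← evW_map, ← evW_map, ← CD.wd_map, ← CD.wd_map,
      (CD.mk_eq_iff_cong I z z').mp hc]

end units

variable {n : ℕ} {p : ℕ} [Fact p.Prime]

theorem two_padicInt (hp : p ≠ 2) : IsUnit (2 : ℤ_[p]) := by
  rw [PadicInt.isUnit_iff]
  have h1 : ¬ (p : ℤ) ∣ 2 := by
    intro h
    have h2 : p ∣ 2 := by exact_mod_cast h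
    have := (Nat.prime_dvd_prime_iff_eq (Fact.out : p.Prime) Nat.prime_two).mp h2
    exact hp this
  have h3 := (PadicInt.norm_intCast_eq_one_iff (p := p) (z := 2)).mpr
  have h4 : IsCoprime (2 : ℤ) (p : ℤ) := by
    rw [isCoprime_comm]
    exact (Prime.coprime_iff_not_dvd (Nat.prime_iff_prime_int.1 (Fact.out : p.Prime))).2 h1
  simpa using h3 h4

theorem two_dual (hp : p ≠ 2) : IsUnit (2 : DualNumber (ZMod (p ^ 2))) := by
  have h1 : IsUnit (2 : ZMod (p ^ 2)) := by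
    have h2 : Nat.Coprime 2 (p ^ 2) := by
      refine Nat.Coprime.pow_right 2 ?_
      rw [Nat.coprime_primes Nat.prime_two (Fact.out : p.Prime)]
      exact hp.symm
    have := (ZMod.isUnit_iff_coprime 2 (p ^ 2)).mpr h2
    exact_mod_cast this
  have h3 := h1.map (TrivSqZeroExt.inlHom (ZMod (p ^ 2)) (ZMod (p ^ 2)))
  rw [map_ofNat] at h3
  exact h3

theorem eq_zero_of_coe {x : ℤ_[p]} (h : (x : ℚ_[p]) = 0) : x = 0 := Subtype.ext h

theorem core_padic (hp : p ≠ 2) {τ : Fin n → Bool} {δ : Bool → MvPolynomial WI ℤ}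
    [∀ t, Fact (Nice t (δ t))] (c : CD τ ℤ_[p]) {s₀ : ℤ_[p]} (hb : Base δ c s₀) (K₀ : Subfield ℚ_[p]) [Countable K₀]
    (hca : ∀ α, (c.a α : ℚ_[p]) ∈ K₀) (hcb : ∀ β, (c.b β : ℚ_[p]) ∈ K₀) :
    ∃ (z₀ : Fin (n + 1) → V3 ℤ_[p]) (s : ℤ_[p]), 
      (∀ (r : Fin n), z₀ r.castSucc 0 = 1) ∧
      (∀ (r : Fin n) j, z₀ r.castSucc j - 1 ∈ Ideal.span {(p : ℤ_[p])}) ∧
      (∀ (r : Fin n) j, ∃ m : ℤ, z₀ r.castSucc j = m) ∧
      qf (c.con z₀) (crs (c.lin z₀) ![0, 1, s]) = 0 ∧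
      IsUnit (bf (c.con z₀) (crs (c.lin z₀) ![0, 1, s]) (crs (c.lin z₀) ![0, 0, 1])) ∧
      ∀ L : Subfield ℚ_[p], K₀ ≤ L → (s : ℚ_[p]) ∈ L →
        ∀ Φ : MvPolynomial (Fin n × Fin 2) ℚ_[p], Φ ≠ 0 →
        ∃ z : Fin (n + 1) → V3 ℚ_[p], (∀ r j, z r j ∈ L) ∧
          (c.map PadicInt.Coe.ringHom).IsPt z ∧ (∀ r : Fin n, z r.castSucc 0 = 1) ∧
          z (Fin.last n) ≠ 0 ∧
          eval (fun x : Fin n × Fin 2 => z x.1.castSucc x.2.succ) Φ ≠ 0 := by
  classical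
  have i1 : Two ℤ_[p] := ⟨two_padicInt hp⟩
  have i2 : Two (DualNumber (ZMod (p ^ 2))) := ⟨two_dual hp⟩
  have hp0 : p ^ 2 ≠ 0 := pow_ne_zero _ (Fact.out : p.Prime).ne_zero
  have i3 : NeZero (p ^ 2) := ⟨hp0⟩
  have i4 : Finite (DualNumber (ZMod (p ^ 2))) :=
    inferInstanceAs (Finite (ZMod (p ^ 2) × ZMod (p ^ 2)))
  obtain ⟨M₁, hM₁, hFM₁⟩ := TP.exists_pow_eq_one false (δ false) (DualNumber (ZMod (p ^ 2)))
  obtain ⟨M₂, hM₂, hFM₂⟩ := TP.exists_pow_eq_one true (δ true) (DualNumber (ZMod (p ^ 2)))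
  obtain ⟨M, hM, hF⟩ : ∃ M : ℕ, 0 < M ∧ ∀ (t : Bool) (y : TP t (δ t) (DualNumber (ZMod (p ^ 2)))),
      (TP.F ^ M : Equiv.Perm (TP t (δ t) (DualNumber (ZMod (p ^ 2))))) y = y := by
    refine ⟨M₁ * M₂, Nat.mul_pos hM₁ hM₂, fun t y => ?_⟩
    cases t
    · rw [pow_mul, hFM₁, one_pow]; rfl
    · rw [mul_comm, pow_mul, hFM₂, one_pow]; rfl
  obtain ⟨z₀, s, hok, h0, h1, h2, h3, h4, hper⟩ := exists_start c hb K₀ hca hcb hM
  refine ⟨z₀, s, h0, h1, h2, h3, h4, ?_⟩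
  intro L hKL hsL Φ hΦ
  -- the precision
  set z₁ := c.sec z₀ s with hz₁
  have hJ : ∃ J : ℕ, 1 ≤ J ∧ ∀ i : Fin n,
      ¬ TP.Par (((TP.F ^ M : Equiv.Perm (TP (τ i) (δ (τ i)) ℤ_[p])) (hok.tp i)).map
        (Ideal.Quotient.mk (Ideal.span {(p : ℤ_[p]) ^ J})))
        ((hok.tp i).map (Ideal.Quotient.mk (Ideal.span {(p : ℤ_[p]) ^ J}))) := by
    have hnz : ∀ x : ℤ_[p], x ≠ 0 → ∃ J₀ : ℕ, ∀ J, J₀ ≤ J → x ∉ Ideal.span {(p : ℤ_[p]) ^ J} := by
      intro x hx
      refine ⟨x.valuation + 1, fun J hJ hxJ => ?_⟩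
      have h5 := (PadicInt.mem_span_pow_iff_le_valuation x hx J).mp hxJ
      omega
    have hi : ∀ i : Fin n, ∃ J₀ : ℕ, ∀ J, J₀ ≤ J →
        ¬ TP.Par (((TP.F ^ M : Equiv.Perm (TP (τ i) (δ (τ i)) ℤ_[p])) (hok.tp i)).map
        (Ideal.Quotient.mk (Ideal.span {(p : ℤ_[p]) ^ J})))
        ((hok.tp i).map (Ideal.Quotient.mk (Ideal.span {(p : ℤ_[p]) ^ J}))) := by
      intro i
      have h6 := hper i
      unfold TP.Par at h6
      rw [not_and_or] at h6
      rcases h6 with h6 | h6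
      · obtain ⟨j, hj⟩ := Function.ne_iff.mp h6
        obtain ⟨J₀, hJ₀⟩ := hnz _ hj
        refine ⟨J₀, fun J hJ hpar => hJ₀ J hJ ?_⟩
        have h7 := congrFun hpar.1 j
        rw [TP.map_u, TP.map_u, ← vmap_crs] at h7
        exact Ideal.Quotient.eq_zero_iff_mem.mp h7
      · obtain ⟨j, hj⟩ := Function.ne_iff.mp h6
        obtain ⟨J₀, hJ₀⟩ := hnz _ hj
        refine ⟨J₀, fun J hJ hpar => hJ₀ J hJ ?_⟩
        have h7 := congrFun hpar.2 j
        rw [TP.map_v, TP.map_v, ← vmap_crs] at h7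
        exact Ideal.Quotient.eq_zero_iff_mem.mp h7
    choose J₀ hJ₀ using hi
    refine ⟨1 + ∑ i, J₀ i, by omega, fun i => hJ₀ i _ ?_⟩
    have := Finset.single_le_sum (f := J₀) (fun _ _ => Nat.zero_le _) (Finset.mem_univ i)
    omega
  obtain ⟨J, hJ1, hJpar⟩ := hJ
  set I : Ideal ℤ_[p] := Ideal.span {(p : ℤ_[p]) ^ J} with hIdef
  have hImax : I ≤ IsLocalRing.maximalIdeal ℤ_[p] := by
    rw [PadicInt.maximalIdeal_eq_span_p, hIdef, Ideal.span_singleton_le_span_singleton]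
    exact dvd_pow_self _ (by omega)
  have i5 : Two (ℤ_[p] ⧸ I) := ⟨by
    have := (two_padicInt hp).map (Ideal.Quotient.mk I)
    rw [map_ofNat] at this
    exact this⟩
  -- the ball
  let U : Set (Fin (n + 1) → V3 ℤ_[p]) :=
    {z | c.IsPt z ∧ CD.Cong I z₁ z ∧ ∀ r j, (z r j : ℚ_[p]) ∈ L}
  have hintL : ∀ m : ℤ, ((m : ℤ_[p]) : ℚ_[p]) ∈ L := fun m => by
    rw [PadicInt.coe_intCast]; exact intCast_mem L m
  have hlinL : ∀ k, (c.lin z₀ k : ℚ_[p]) ∈ L := by
    intro k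
    show PadicInt.Coe.ringHom (mev c.a _) ∈ L
    rw [map_mev]
    unfold mev
    refine sum_mem fun α _ => mul_mem (hKL (hca α)) (prod_mem fun r _ => ?_)
    by_cases hr : r = Fin.last n
    · subst hr
      by_cases hk : α (Fin.last n) = (k, 0)
      · simp [hk]
      · simp [hk]
    · have hm := h2 (r.castPred hr)
      rw [Fin.castSucc_castPred] at hm
      simp only [Function.update_of_ne hr]
      obtain ⟨m1, hm1⟩ := hm (α r).1
      obtain ⟨m2, hm2⟩ := hm (α r).2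
      show ((mon (dg τ r) (z₀ r) (α r) : ℤ_[p]) : ℚ_[p]) ∈ L
      unfold mon
      split_ifs
      · rw [hm1, hm2, PadicInt.coe_mul]
        exact mul_mem (hintL m1) (hintL m2)
      · rw [hm1]
        exact hintL m1
      · rw [PadicInt.coe_zero]
        exact zero_mem L
  have hU1 : z₁ ∈ U := by
    refine ⟨hok.pt, fun r j => by rw [sub_self]; exact I.zero_mem, fun r j => ?_⟩
    by_cases hr : r = Fin.last n
    · subst hr
      have e : z₁ (Fin.last n) = crs (c.lin z₀) ![0, 1, s] := by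
        rw [hz₁, CD.sec, Function.update_self]
      rw [e]
      have e2 : ∀ a b : ℤ_[p], ((a * b : ℤ_[p]) : ℚ_[p]) = a * b := fun a b => PadicInt.coe_mul a b
      have e3 : ∀ a b : ℤ_[p], ((a - b : ℤ_[p]) : ℚ_[p]) = a - b := fun a b => PadicInt.coe_sub a b
      have hl := hlinL
      fin_cases j
      · show ((c.lin z₀ 1 * s - c.lin z₀ 2 * 1 : ℤ_[p]) : ℚ_[p]) ∈ L
        rw [mul_one, e3, e2]
        exact sub_mem (mul_mem (hl 1) hsL) (hl 2)
      · show ((c.lin z₀ 2 * 0 - c.lin z₀ 0 * s : ℤ_[p]) : ℚ_[p]) ∈ L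
        rw [mul_zero, zero_sub, PadicInt.coe_neg, e2]
        exact neg_mem (mul_mem (hl 0) hsL)
      · show ((c.lin z₀ 0 * 1 - c.lin z₀ 1 * 0 : ℤ_[p]) : ℚ_[p]) ∈ L
        rw [mul_one, mul_zero, sub_zero]
        exact hl 0
    · have e : z₁ r = z₀ r := by
        rw [hz₁, CD.sec, Function.update_of_ne hr]
      obtain ⟨m, hm⟩ := h2 (r.castPred hr) j
      rw [Fin.castSucc_castPred] at hm
      rw [e, hm]
      exact hintL m
  have hUok : ∀ z ∈ U, c.Ok δ z := fun z hz => hok.of_cong hImax hz.1 hz.2.1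
  have hUper : ∀ z (hz : z ∈ U) (i : Fin n), ¬ TP.Par
      ((TP.F ^ M : Equiv.Perm (TP (τ i) (δ (τ i)) ℤ_[p])) ((hUok z hz).tp i)) ((hUok z hz).tp i) := by
    intro z hz i hpar
    apply hJpar i
    have h5 : (hok.tp i).map (Ideal.Quotient.mk I) =
        ((hUok z hz).tp i).map (Ideal.Quotient.mk I) := by
      rw [CD.Ok.map_tp, CD.Ok.map_tp]
      have e := (CD.mk_eq_iff_cong I z₁ z).mp hz.2.1
      refine TP.ext ?_ ?_ ?_
      · show (c.map _).wd _ i = (c.map _).wd _ i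
        rw [e]
      · exact congrFun e _
      · exact congrFun e _
    rw [TP.map_pow, h5, ← TP.map_pow]
    exact hpar.map _
  have hUne : ∀ z ∈ U, ∀ r : Fin n, IsUnit (z r.castSucc 0) := by
    intro z hz r
    have h5 := hz.2.1 r.castSucc 0
    have h6 : z₁ r.castSucc 0 = 1 := by
      rw [hz₁, CD.sec, Function.update_of_ne (CD.castSucc_ne_last r), h0]
    rw [h6] at h5
    exact isUnit_of_sub_mem_jacobson hImax isUnit_one h5
  let ψ : (Fin (n + 1) → V3 ℤ_[p]) → (Fin (n + 1) → V3 ℚ_[p]) := fun z r j => (z r j : ℚ_[p])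
  have hcaL : ∀ α, (c.a α : ℚ_[p]) ∈ L := fun α => hKL (hca α)
  have hcbL : ∀ β, (c.b β : ℚ_[p]) ∈ L := fun β => hKL (hcb β)
  obtain ⟨z', ⟨z, hz, rfl⟩, hev⟩ := KW.word_dense (ψ '' U) ⟨_, z₁, hU1, rfl⟩ (by
      rintro _ ⟨z, hz, rfl⟩ r hr
      have h5 := (hUne z hz r).ne_zero
      exact h5 (eq_zero_of_coe hr)) (by
      rintro _ ⟨z, hz, rfl⟩ i h d hd hh
      obtain ⟨u, v, h5, h6, h7, h8, h9, h10⟩ := exists_move hp c L hcaL hcbL i (hF (τ i)) J z (hUok z hz)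
        hz.2.2 (hUper z hz i) hd hh
      refine ⟨ψ (CD.repl z i u v), ⟨_, ⟨h5, ?_, ?_⟩, rfl⟩, ?_, ?_⟩
      · intro r j
        have h11 : z₁ r j - CD.repl z i u v r j =
            (z₁ r j - z r j) - (CD.repl z i u v r j - z r j) := by ring
        rw [h11]
        refine I.sub_mem (hz.2.1 r j) ?_
        by_cases hr : r = Fin.last n
        · subst hr; rw [CD.repl_last]; exact h7 j
        · by_cases hr' : r = i.castSucc
          · subst hr'; rw [CD.repl_free]; exact h6 j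
          · rw [CD.repl_of_ne z i u v hr' hr, sub_self]; exact I.zero_mem
      · intro r j
        by_cases hr : r = Fin.last n
        · subst hr; rw [CD.repl_last]; exact h9 j
        · by_cases hr' : r = i.castSucc
          · subst hr'; rw [CD.repl_free]; exact h8 j
          · rw [CD.repl_of_ne z i u v hr' hr]; exact hz.2.2 r j
      · intro r hr' hr
        show (fun j => ((CD.repl z i u v r j : ℤ_[p]) : ℚ_[p])) = _
        rw [CD.repl_of_ne z i u v hr' hr]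
      · show eval (fun j => ((CD.repl z i u v i.castSucc j : ℤ_[p]) : ℚ_[p])) h ≠ 0
        rw [CD.repl_free]
        exact h10) hΦ
  -- normalization
  let l : Fin (n + 1) → ℚ_[p] := fun r => if r = Fin.last n then 1 else (z r 0 : ℚ_[p])⁻¹
  have hlast : l (Fin.last n) = 1 := by simp [l]
  have hfree : ∀ r : Fin n, l r.castSucc = (z r.castSucc 0 : ℚ_[p])⁻¹ := fun r => by
    simp [l, CD.castSucc_ne_last r]
  have hne0 : ∀ r : Fin n, (z r.castSucc 0 : ℚ_[p]) ≠ 0 := fun r hr =>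
    (hUne z hz r).ne_zero (eq_zero_of_coe hr)
  refine ⟨fun r j => l r * (z r j : ℚ_[p]), ?_, ?_, ?_, ?_, ?_⟩
  · intro r j
    refine mul_mem ?_ (hz.2.2 r j)
    by_cases hr : r = Fin.last n
    · rw [hr, hlast]; exact one_mem L
    · simp only [l, if_neg hr]
      exact inv_mem (hz.2.2 r 0)
  · refine CD.isPt_scale (z := fun r j => (z r j : ℚ_[p])) ?_ l
    exact hz.1.map PadicInt.Coe.ringHom
  · intro r
    show l r.castSucc * (z r.castSucc 0 : ℚ_[p]) = 1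
    rw [hfree, inv_mul_cancel₀ (hne0 r)]
  · intro h5
    obtain ⟨w, hw⟩ := (hUok z hz).uni (Fin.last n)
    have h6 : ∀ j, z (Fin.last n) j = 0 := by
      intro j
      have h7 : l (Fin.last n) * (z (Fin.last n) j : ℚ_[p]) = 0 := congrFun h5 j
      rw [hlast, one_mul] at h7
      exact eq_zero_of_coe h7
    have h8 : dot w (z (Fin.last n)) = 0 := by
      simp only [dot, h6, mul_zero, Finset.sum_const_zero]
    rw [h8] at hw
    exact zero_ne_one hw
  · have h5 : (fun x : Fin n × Fin 2 => l x.1.castSucc * (z x.1.castSucc x.2.succ : ℚ_[p])) =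
        fun x : Fin n × Fin 2 => ψ z x.1.castSucc x.2.succ / ψ z x.1.castSucc 0 := by
      funext x
      rw [hfree, div_eq_inv_mul]
    show eval (fun x : Fin n × Fin 2 => l x.1.castSucc * (z x.1.castSucc x.2.succ : ℚ_[p])) Φ ≠ 0
    rw [h5]
    exact hev

end Pool.Agent.Helper2.KX
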