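import Pool.Agent.Helper2.KX.T2

/-!
# Complete intersections of two divisors with trivial canonical class in a product of planes

`CD τ R`: the coefficients of two forms on the product of `n + 1` planes; the first form is linear
and the second form is quadratic in the last plane; on the plane `i < n` the degrees are `1`, `2`
if `τ i = true` and `2`, `1` if `τ i = false`.  The first `n` planes are called free.
-/

namespace Pool.Agent.Helper2.KX

/-- The value of a multilinear form with coefficients `c`. -/
def mev {R : Type*} [CommRing R] {ι : Type*} [Fintype ι] {N : ℕ} (c : (Fin N → ι) → R)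
    (m : Fin N → ι → R) : R :=
  ∑ α : Fin N → ι, c α * ∏ r, m r (α r)

/-- The places where the first form has degree two. -/
def dg {n : ℕ} (τ : Fin n → Bool) (r : Fin (n + 1)) : Bool :=
  Fin.lastCases (motive := fun _ => Bool) false (fun i => !(τ i)) r

@[simp] theorem dg_last {n : ℕ} (τ : Fin n → Bool) : dg τ (Fin.last n) = false := by
  simp [dg]

@[simp] theorem dg_castSucc {n : ℕ} (τ : Fin n → Bool) (i : Fin n) :
    dg τ i.castSucc = !(τ i) := by
  simp [dg]

/-- The monomials in the first form. -/
def mo {R : Type*} [CommRing R] {n : ℕ} (τ : Fin n → Bool) (z : Fin (n + 1) → V3 R)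
    (r : Fin (n + 1)) : Fin 3 × Fin 3 → R := mon (dg τ r) (z r)

/-- The monomials in the second form. -/
def mo' {R : Type*} [CommRing R] {n : ℕ} (τ : Fin n → Bool) (z : Fin (n + 1) → V3 R)
    (r : Fin (n + 1)) : Fin 3 × Fin 3 → R := mon (!(dg τ r)) (z r)

/-- The coefficients of the two forms. -/
@[ext]
structure CD {n : ℕ} (τ : Fin n → Bool) (R : Type*) where
  /-- the coefficients of the first form -/
  a : (Fin (n + 1) → Fin 3 × Fin 3) → R
  /-- the coefficients of the second form -/
  b : (Fin (n + 1) → Fin 3 × Fin 3) → R

section mev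

variable {R S : Type*} [CommRing R] [CommRing S] {ι : Type*} [Fintype ι] {N : ℕ}

theorem map_mev (f : R →+* S) (c : (Fin N → ι) → R) (m : Fin N → ι → R) :
    f (mev c m) = mev (fun α => f (c α)) (fun r j => f (m r j)) := by
  simp only [mev, map_sum, map_mul, map_prod]

theorem mev_update [DecidableEq ι] (c : (Fin N → ι) → R) (m : Fin N → ι → R) (r : Fin N)
    (x : ι → R) :
    mev c (Function.update m r x) =
      ∑ j, x j * mev c (Function.update m r (Pi.single j 1)) := by
  classical
  have key : ∀ (α : Fin N → ι) (y : ι → R), ∏ s, Function.update m r y s (α s) =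
      y (α r) * ∏ s ∈ Finset.univ.erase r, m s (α s) := by
    intro α y
    rw [← Finset.mul_prod_erase Finset.univ _ (Finset.mem_univ r), Function.update_self]
    congr 1
    refine Finset.prod_congr rfl fun s hs => ?_
    rw [Function.update_of_ne (Finset.ne_of_mem_erase hs)]
  simp only [mev, key, Finset.mul_sum]
  rw [Finset.sum_comm]
  refine Finset.sum_congr rfl fun α _ => ?_
  rw [Finset.sum_eq_single (α r)]
  · rw [Pi.single_eq_same]; ring
  · intro j _ hj
    rw [Pi.single_eq_of_ne (Ne.symm hj)]; ring
  · intro h; exact absurd (Finset.mem_univ _) h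

theorem mev_update_self [DecidableEq ι] (c : (Fin N → ι) → R) (m : Fin N → ι → R) (r : Fin N) :
    mev c m = ∑ j, m r j * mev c (Function.update m r (Pi.single j 1)) := by
  conv_lhs => rw [← Function.update_eq_self r m]
  rw [mev_update]

end mev

namespace CD

variable {R S : Type*} [CommRing R] [CommRing S] {n : ℕ} {τ : Fin n → Bool}

/-- Base change. -/
def map (f : R →+* S) (c : CD τ R) : CD τ S := ⟨fun α => f (c.a α), fun β => f (c.b β)⟩

/-- The vectors `z` give a point of the complete intersection. -/
def IsPt (c : CD τ R) (z : Fin (n + 1) → V3 R) : Prop :=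
  mev c.a (mo τ z) = 0 ∧ mev c.b (mo' τ z) = 0

/-- The linear form in the last vector. -/
def lin (c : CD τ R) (z : Fin (n + 1) → V3 R) : V3 R := fun k =>
  mev c.a (Function.update (mo τ z) (Fin.last n) (Pi.single (k, 0) 1))

/-- The quadratic form in the last vector. -/
def con (c : CD τ R) (z : Fin (n + 1) → V3 R) : Fin 3 → Fin 3 → R := fun k l =>
  mev c.b (Function.update (mo' τ z) (Fin.last n) (Pi.single (k, l) 1))

/-- The surface of the free plane `i` and the last plane. -/
def wd (c : CD τ R) (z : Fin (n + 1) → V3 R) (i : Fin n) : WD (τ i) R where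
  M p r := mev c.a (Function.update (Function.update (mo τ z) i.castSucc (Pi.single p 1))
    (Fin.last n) (Pi.single r 1))
  q p r := mev c.b (Function.update (Function.update (mo' τ z) i.castSucc (Pi.single p 1))
    (Fin.last n) (Pi.single r 1))

/-- The vectors of `z` with the vectors in the places `i` and last replaced. -/
def repl (z : Fin (n + 1) → V3 R) (i : Fin n) (u v : V3 R) : Fin (n + 1) → V3 R :=
  Function.update (Function.update z i.castSucc u) (Fin.last n) v

end CD

end Pool.Agent.Helper2.KX
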