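import Pool.Agent.Helper2.KX.C0

/-!
# Basic facts on complete intersections in a product of planes
-/

set_option linter.unusedSectionVars false

namespace Pool.Agent.Helper2.KX

section mon

variable {R S : Type*} [CommRing R] [CommRing S]

theorem sum_mon_false (X : Fin 3 × Fin 3 → R) (u : V3 R) :
    ∑ p, X p * mon false u p = ∑ i, X (i, 0) * u i := by
  rw [Fintype.sum_prod_type]
  refine Finset.sum_congr rfl fun i _ => ?_
  rw [Finset.sum_eq_single (0 : Fin 3)]
  · simp [mon]
  · intro j _ hj; simp [mon, hj]
  · intro h; exact absurd (Finset.mem_univ _) h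

theorem sum_mon_true (X : Fin 3 × Fin 3 → R) (u : V3 R) :
    ∑ p, X p * mon true u p = ∑ i, ∑ j, X (i, j) * (u i * u j) := by
  rw [Fintype.sum_prod_type]
  simp [mon]

theorem WD.isPt_iff {t : Bool} (W : WD t R) (u v : V3 R) : W.IsPt u v ↔
    (∑ p, (∑ r, W.M p r * mon false v r) * mon (!t) u p = 0 ∧
      ∑ p, (∑ r, W.q p r * mon true v r) * mon t u p = 0) := by
  unfold WD.IsPt
  cases t
  · have h1 : dot (W.line v) u = ∑ p, (∑ r, W.q p r * mon true v r) * mon false u p := by
      rw [sum_mon_false]; rfl
    have h2 : qf (W.con v) u = ∑ p, (∑ r, W.M p r * mon false v r) * mon (!false) u p := by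
      rw [Bool.not_false, sum_mon_true]; rfl
    rw [h1, h2, and_comm]
  · have h1 : dot (W.line v) u = ∑ p, (∑ r, W.M p r * mon false v r) * mon (!true) u p := by
      rw [Bool.not_true, sum_mon_false]; rfl
    have h2 : qf (W.con v) u = ∑ p, (∑ r, W.q p r * mon true v r) * mon true u p := by
      rw [sum_mon_true]; rfl
    rw [h1, h2]

theorem WD.swap_line {t : Bool} (W : WD t R) (u : V3 R) (k : Fin 3) :
    W.swap.line u k = ∑ p, W.M p (k, 0) * mon (!t) u p := by
  cases t <;> rfl

theorem WD.swap_con {t : Bool} (W : WD t R) (u : V3 R) (k l : Fin 3) :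
    W.swap.con u k l = ∑ p, W.q p (k, l) * mon t u p := by
  cases t <;> rfl

end mon

namespace CD

variable {R S : Type*} [CommRing R] [CommRing S] {n : ℕ} {τ : Fin n → Bool}

theorem isPt_iff_last (c : CD τ R) (z : Fin (n + 1) → V3 R) :
    c.IsPt z ↔ dot (c.lin z) (z (Fin.last n)) = 0 ∧ qf (c.con z) (z (Fin.last n)) = 0 := by
  classical
  have h1 : mev c.a (mo τ z) = dot (c.lin z) (z (Fin.last n)) := by
    rw [mev_update_self _ _ (Fin.last n)]
    simp only [mo, dg_last, mul_comm (mon _ _ _)]
    rw [sum_mon_false]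
    rfl
  have h2 : mev c.b (mo' τ z) = qf (c.con z) (z (Fin.last n)) := by
    rw [mev_update_self _ _ (Fin.last n)]
    simp only [mo', dg_last, mul_comm (mon _ _ _), Bool.not_false]
    rw [sum_mon_true]
    rfl
  unfold IsPt
  rw [h1, h2]

theorem castSucc_ne_last (i : Fin n) : i.castSucc ≠ Fin.last n := (Fin.castSucc_lt_last i).ne

theorem isPt_iff_wd (c : CD τ R) (z : Fin (n + 1) → V3 R) (i : Fin n) :
    c.IsPt z ↔ (c.wd z i).IsPt (z i.castSucc) (z (Fin.last n)) := by
  classical
  have hne := castSucc_ne_last i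
  rw [WD.isPt_iff]
  unfold IsPt
  have key : ∀ (d : (Fin (n + 1) → Fin 3 × Fin 3) → R) (m : Fin (n + 1) → Fin 3 × Fin 3 → R),
      mev d m = ∑ p, (∑ r, mev d (Function.update (Function.update m i.castSucc
        (Pi.single p 1)) (Fin.last n) (Pi.single r 1)) * m (Fin.last n) r) * m i.castSucc p := by
    intro d m
    rw [mev_update_self d m i.castSucc]
    refine Finset.sum_congr rfl fun p _ => ?_
    rw [mev_update_self d _ (Fin.last n), mul_comm]
    congr 1
    refine Finset.sum_congr rfl fun r _ => ?_
    rw [Function.update_of_ne hne.symm, mul_comm]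
  rw [key c.a, key c.b]
  simp only [mo, mo', dg_last, dg_castSucc, Bool.not_false, Bool.not_not]
  rfl

@[simp] theorem repl_free (z : Fin (n + 1) → V3 R) (i : Fin n) (u v : V3 R) :
    repl z i u v i.castSucc = u := by
  simp [repl, castSucc_ne_last i]

@[simp] theorem repl_last (z : Fin (n + 1) → V3 R) (i : Fin n) (u v : V3 R) :
    repl z i u v (Fin.last n) = v := by
  simp [repl]

theorem repl_of_ne (z : Fin (n + 1) → V3 R) (i : Fin n) (u v : V3 R) {r : Fin (n + 1)}
    (h1 : r ≠ i.castSucc) (h2 : r ≠ Fin.last n) : repl z i u v r = z r := by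
  simp [repl, h1, h2]

theorem repl_self (z : Fin (n + 1) → V3 R) (i : Fin n) :
    repl z i (z i.castSucc) (z (Fin.last n)) = z := by
  rw [repl, Function.update_eq_self, Function.update_eq_self]

theorem wd_congr (c : CD τ R) {z z' : Fin (n + 1) → V3 R} (i : Fin n)
    (h : ∀ r, r ≠ i.castSucc → r ≠ Fin.last n → z r = z' r) : c.wd z i = c.wd z' i := by
  have e : ∀ (m m' : Fin (n + 1) → Fin 3 × Fin 3 → R),
      (∀ r, r ≠ i.castSucc → r ≠ Fin.last n → m r = m' r) → ∀ x y : Fin 3 × Fin 3 → R,
      Function.update (Function.update m i.castSucc x) (Fin.last n) y =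
      Function.update (Function.update m' i.castSucc x) (Fin.last n) y := by
    intro m m' hm x y
    funext r
    by_cases h1 : r = Fin.last n
    · subst h1; simp
    · by_cases h2 : r = i.castSucc
      · subst h2; simp [h1]
      · simp [h1, h2, hm r h2 h1]
  have e1 := e (mo τ z) (mo τ z') (fun r h1 h2 => by simp only [mo, h r h1 h2])
  have e2 := e (mo' τ z) (mo' τ z') (fun r h1 h2 => by simp only [mo', h r h1 h2])
  refine WD.ext ?_ ?_
  · funext p r
    simp only [wd, e1]
  · funext p r
    simp only [wd, e2]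

theorem wd_repl (c : CD τ R) (z : Fin (n + 1) → V3 R) (i : Fin n) (u v : V3 R) :
    c.wd (repl z i u v) i = c.wd z i :=
  c.wd_congr i fun _ h1 h2 => repl_of_ne z i u v h1 h2

theorem isPt_repl (c : CD τ R) (z : Fin (n + 1) → V3 R) (i : Fin n) (u v : V3 R) :
    c.IsPt (repl z i u v) ↔ (c.wd z i).IsPt u v := by
  rw [c.isPt_iff_wd _ i, repl_free, repl_last, wd_repl]

theorem lin_congr (c : CD τ R) {z z' : Fin (n + 1) → V3 R}
    (h : ∀ r : Fin n, z r.castSucc = z' r.castSucc) : c.lin z = c.lin z' := by
  have e : ∀ x : Fin 3 × Fin 3 → R, Function.update (mo τ z) (Fin.last n) x =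
      Function.update (mo τ z') (Fin.last n) x := by
    intro x
    funext r
    by_cases hr : r = Fin.last n
    · subst hr; simp
    · have h1 := h (r.castPred hr)
      rw [Fin.castSucc_castPred] at h1
      simp [hr, mo, h1]
  funext k
  simp only [lin, e]

theorem con_congr (c : CD τ R) {z z' : Fin (n + 1) → V3 R}
    (h : ∀ r : Fin n, z r.castSucc = z' r.castSucc) : c.con z = c.con z' := by
  have e : ∀ x : Fin 3 × Fin 3 → R, Function.update (mo' τ z) (Fin.last n) x =
      Function.update (mo' τ z') (Fin.last n) x := by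
    intro x
    funext r
    by_cases hr : r = Fin.last n
    · subst hr; simp
    · have h1 := h (r.castPred hr)
      rw [Fin.castSucc_castPred] at h1
      simp [hr, mo', h1]
  funext k l
  simp only [con, e]

theorem lin_con_eq (c : CD τ R) (z : Fin (n + 1) → V3 R) (i : Fin n) :
    c.lin z = (c.wd z i).swap.line (z i.castSucc) ∧
      c.con z = (c.wd z i).swap.con (z i.castSucc) := by
  classical
  have hne := castSucc_ne_last i
  have key : ∀ (d : (Fin (n + 1) → Fin 3 × Fin 3) → R) (m : Fin (n + 1) → Fin 3 × Fin 3 → R)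
      (x : Fin 3 × Fin 3), mev d (Function.update m (Fin.last n) (Pi.single x 1)) =
        ∑ p, mev d (Function.update (Function.update m i.castSucc
        (Pi.single p 1)) (Fin.last n) (Pi.single x 1)) * m i.castSucc p := by
    intro d m x
    rw [mev_update_self d _ i.castSucc]
    refine Finset.sum_congr rfl fun p _ => ?_
    rw [Function.update_of_ne hne, Function.update_comm hne.symm, mul_comm]
  constructor
  · funext k
    show mev c.a _ = _
    rw [key, WD.swap_line]
    simp only [mo, dg_castSucc]
    rfl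
  · funext k l
    show mev c.b _ = _
    rw [key, WD.swap_con]
    simp only [mo', dg_castSucc, Bool.not_not]
    rfl

theorem G_eq (c : CD τ R) (z : Fin (n + 1) → V3 R) (i : Fin n) :
    gm (c.lin z) (c.con z) = (c.wd z i).swap.G (z i.castSucc) := by
  rw [(c.lin_con_eq z i).1, (c.lin_con_eq z i).2]
  rfl

theorem map_update {ι : Type*} (f : R →+* S) (m : Fin (n + 1) → ι → R) (r : Fin (n + 1))
    (x : ι → R) : (fun s j => f (Function.update m r x s j)) =
      Function.update (fun s j => f (m s j)) r (fun j => f (x j)) := by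
  funext s j
  by_cases h : s = r
  · subst h; simp
  · simp [h]

theorem map_single {ι : Type*} [DecidableEq ι] (f : R →+* S) (k : ι) :
    (fun j => f ((Pi.single k (1 : R) : ι → R) j)) = Pi.single k 1 := by
  funext j
  by_cases h : j = k
  · subst h; simp
  · simp [h]

theorem map_mo (f : R →+* S) (z : Fin (n + 1) → V3 R) :
    (fun s j => f (mo τ z s j)) = mo τ (fun r => vmap f (z r)) := by
  funext s j
  simp only [mo, map_mon]

theorem map_mo' (f : R →+* S) (z : Fin (n + 1) → V3 R) :
    (fun s j => f (mo' τ z s j)) = mo' τ (fun r => vmap f (z r)) := by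
  funext s j
  simp only [mo', map_mon]

theorem lin_map (f : R →+* S) (c : CD τ R) (z : Fin (n + 1) → V3 R) :
    (c.map f).lin (fun r => vmap f (z r)) = vmap f (c.lin z) := by
  funext k
  show _ = f (mev c.a _)
  rw [map_mev, map_update, map_single, map_mo]
  rfl

theorem con_map (f : R →+* S) (c : CD τ R) (z : Fin (n + 1) → V3 R) :
    (c.map f).con (fun r => vmap f (z r)) = fun k l => f (c.con z k l) := by
  funext k l
  show _ = f (mev c.b _)
  rw [map_mev, map_update, map_single, map_mo']
  rfl

theorem wd_map (f : R →+* S) (c : CD τ R) (z : Fin (n + 1) → V3 R) (i : Fin n) :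
    (c.map f).wd (fun r => vmap f (z r)) i = (c.wd z i).map f := by
  refine WD.ext ?_ ?_
  · funext p r
    show _ = f (mev c.a _)
    rw [map_mev, map_update, map_update, map_single, map_single, map_mo]
    rfl
  · funext p r
    show _ = f (mev c.b _)
    rw [map_mev, map_update, map_update, map_single, map_single, map_mo']
    rfl

theorem IsPt.map (f : R →+* S) {c : CD τ R} {z : Fin (n + 1) → V3 R} (h : c.IsPt z) :
    (c.map f).IsPt (fun r => vmap f (z r)) := by
  rw [isPt_iff_last, lin_map, con_map]
  rw [isPt_iff_last] at h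
  constructor
  · rw [← map_dot, h.1, map_zero]
  · rw [← map_zero f, ← h.2]
    simp only [qf, vmap, map_sum, map_mul]

theorem isPt_of_injective {f : R →+* S} (hf : Function.Injective f)
    {c : CD τ R} {z : Fin (n + 1) → V3 R} (h : (c.map f).IsPt (fun r => vmap f (z r))) :
    c.IsPt z := by
  rw [isPt_iff_last, lin_map, con_map] at h
  rw [isPt_iff_last]
  constructor
  · apply hf
    rw [map_dot, h.1, map_zero]
  · apply hf
    rw [map_zero, ← h.2]
    simp only [qf, vmap, map_sum, map_mul]

theorem map_map {T : Type*} [CommRing T] (g : S →+* T) (f : R →+* S)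
    (c : CD τ R) : (c.map f).map g = c.map (g.comp f) := rfl

/-- Congruence modulo an ideal of all the coordinates. -/
def Cong (I : Ideal R) (z z' : Fin (n + 1) → V3 R) : Prop := ∀ r j, z r j - z' r j ∈ I

theorem mk_eq_iff_cong (I : Ideal R) (z z' : Fin (n + 1) → V3 R) :
    Cong I z z' ↔ (fun r => vmap (Ideal.Quotient.mk I) (z r)) =
      fun r => vmap (Ideal.Quotient.mk I) (z' r) := by
  constructor
  · intro h
    funext r j
    exact Ideal.Quotient.eq.mpr (h r j)
  · intro h r j
    exact Ideal.Quotient.eq.mp (congrFun (congrFun h r) j)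

end CD

section scale

variable {R : Type*} [CommRing R] {ι : Type*} [Fintype ι] {N : ℕ}

theorem mev_scale (c : (Fin N → ι) → R) (m : Fin N → ι → R) (l : Fin N → R) :
    mev c (fun r j => l r * m r j) = (∏ r, l r) * mev c m := by
  simp only [mev, Finset.prod_mul_distrib, Finset.mul_sum]
  exact Finset.sum_congr rfl fun α _ => by ring

theorem mon_scale (b : Bool) (l : R) (u : V3 R) (p : Fin 3 × Fin 3) :
    mon b (fun j => l * u j) p = (if b then l * l else l) * mon b u p := by
  cases b
  · by_cases h : p.2 = 0
    · simp [mon, h]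
    · simp [mon, h]
  · simp [mon]; ring

theorem CD.isPt_scale {n : ℕ} {τ : Fin n → Bool} {c : CD τ R} {z : Fin (n + 1) → V3 R}
    (h : c.IsPt z) (l : Fin (n + 1) → R) : c.IsPt (fun r j => l r * z r j) := by
  constructor
  · have e : mo τ (fun r j => l r * z r j) =
        fun r j => (if dg τ r then l r * l r else l r) * mo τ z r j := by
      funext r j
      exact mon_scale _ _ _ _
    rw [e, mev_scale (l := fun r => if dg τ r then l r * l r else l r), h.1, mul_zero]
  · have e : mo' τ (fun r j => l r * z r j) =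
        fun r j => (if !(dg τ r) then l r * l r else l r) * mo' τ z r j := by
      funext r j
      exact mon_scale _ _ _ _
    rw [e, mev_scale (l := fun r => if !(dg τ r) then l r * l r else l r), h.2, mul_zero]

end scale

end Pool.Agent.Helper2.KX
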