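import Pool.Agent.Helper2.KX.C2d
import Pool.Agent.Helper47.NI.Sym

/-!
# From points over general free vectors to points of every dominant component
-/

namespace Pool.Agent.Helper2.KX

open MvPolynomial

universe u

variable {K : Type u} [Field K] {n : ℕ} {τ : Fin n → Bool}

/-- The coordinate ring of the free planes. -/
abbrev RF (K : Type u) [Field K] (n : ℕ) := MvPolynomial (Fin n × Fin 2) K

section aux

/-- The value at a point of a form in the last vector. -/
noncomputable def evF {S : Type*} [CommRing S] [Algebra K S] (t : Fin n × Fin 2 → S) (w : V3 S) :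
    MvPolynomial (Fin 3) (RF K n) →+* S :=
  eval₂Hom ((aeval t : RF K n →ₐ[K] S) : RF K n →+* S) w

theorem evF_X {S : Type*} [CommRing S] [Algebra K S] (t : Fin n × Fin 2 → S) (w : V3 S)
    (i : Fin 3) : evF (K := K) t w (X i) = w i := by
  simp [evF]

theorem evF_C {S : Type*} [CommRing S] [Algebra K S] (t : Fin n × Fin 2 → S) (w : V3 S)
    (a : RF K n) : evF t w (C a) = aeval t a := by
  simp [evF]

theorem evF_smul {S : Type*} [CommRing S] [Algebra K S] (t : Fin n × Fin 2 → S) (w : V3 S)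
    (l : S) {F : MvPolynomial (Fin 3) (RF K n)} {d : ℕ} (hF : F.IsHomogeneous d) :
    evF t (fun i => l * w i) F = l ^ d * evF t w F := by
  show eval₂ _ _ F = _ * eval₂ _ _ F
  rw [eval₂_eq, eval₂_eq, Finset.mul_sum]
  refine Finset.sum_congr rfl fun m hm => ?_
  have hn := hF.degree_eq_sum_deg_support hm
  simp only [mul_pow]
  rw [Finset.prod_mul_distrib, Finset.prod_pow_eq_pow_sum, ← hn]
  ring

/-- The symmetric product of the values at the two points. -/
theorem exists_H [CharZero K] (G : Fin 3 → Fin 3 → RF K n) {f b : MvPolynomial (Fin 3) (RF K n)}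
    {d : ℕ} (hf : f.IsHomogeneous d) (hb : b.IsHomogeneous d) :
    ∃ h : RF K n, ∀ (S : Type u) [CommRing S] [Algebra K S] (t : Fin n × Fin 2 → S) (w w' : V3 S),
      (∀ i j, aeval t (G i j) = w i * w' j + w j * w' i) →
      aeval t h = evF t w f * evF t w' b + evF t w b * evF t w' f := by
  have hr : (2 : RF K n) * C (2 : K)⁻¹ = 1 := by
    have : (2 : RF K n) = C 2 := (map_ofNat C 2).symm
    rw [this, ← C_mul, mul_inv_cancel₀ two_ne_zero, C_1]
  obtain ⟨H, hH, hval⟩ := Helper47.NI.exists_sym (R := RF K n) _ hr d f b hf hb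
  refine ⟨eval (fun p => G p.1 p.2) H, fun S _ _ t w w' hw => ?_⟩
  let _ : Algebra (RF K n) S := ((aeval t : RF K n →ₐ[K] S) : RF K n →+* S).toAlgebra
  have e1 := hval S w w'
  have e2 : (aeval t) (eval (fun p : Fin 3 × Fin 3 => G p.1 p.2) H) = eval₂
      ((aeval t : RF K n →ₐ[K] S) : RF K n →+* S)
      (fun p : Fin 3 × Fin 3 => aeval t (G p.1 p.2)) H := by
    have := eval₂_comp_left
      ((aeval t : RF K n →ₐ[K] S) : RF K n →+* S)
      (RingHom.id _) (fun p : Fin 3 × Fin 3 => G p.1 p.2) H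
    rw [RingHom.comp_id] at this
    exact this
  have e3 : (fun p : Fin 3 × Fin 3 => aeval t (G p.1 p.2)) = Helper47.NI.pr w w' := by
    funext p
    rw [hw]
    rfl
  rw [e2, e3]
  exact e1

/-- Homogenization in the last vector. -/
theorem exists_hom (p : MvPolynomial (Fin (n + 1) × Fin 2) K) :
    ∃ N0, ∀ N, N0 ≤ N → ∃ F : MvPolynomial (Fin 3) (RF K n), F.IsHomogeneous N ∧
      ∀ (S : Type u) [CommRing S] [Algebra K S] (y : Fin (n + 1) × Fin 2 → S),
        evF (fun x : Fin n × Fin 2 => y (x.1.castSucc, x.2))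
          ![1, y (Fin.last n, 0), y (Fin.last n, 1)] F = aeval y p := by
  induction p using MvPolynomial.induction_on with
  | C a =>
    refine ⟨0, fun N _ => ⟨C (C a) * X 0 ^ N, ?_, fun S _ _ y => ?_⟩⟩
    · simpa using (isHomogeneous_C (Fin 3) (C a : RF K n)).mul ((isHomogeneous_X _ 0).pow N)
    · rw [map_mul, map_pow, evF_C, evF_X]
      simp
  | add p q hp hq =>
    obtain ⟨N1, h1⟩ := hp
    obtain ⟨N2, h2⟩ := hq
    refine ⟨max N1 N2, fun N hN => ?_⟩
    obtain ⟨F1, a1, b1⟩ := h1 N (le_trans (le_max_left _ _) hN)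
    obtain ⟨F2, a2, b2⟩ := h2 N (le_trans (le_max_right _ _) hN)
    exact ⟨F1 + F2, a1.add a2, fun S _ _ y => by rw [map_add, b1, b2, map_add]⟩
  | mul_X p x hp =>
    obtain ⟨N1, h1⟩ := hp
    refine ⟨N1 + 1, fun N hN => ?_⟩
    obtain ⟨F1, a1, b1⟩ := h1 (N - 1) (by omega)
    have hN1 : N - 1 + 1 = N := by omega
    obtain ⟨r, j⟩ := x
    induction r using Fin.lastCases with
    | last =>
      refine ⟨F1 * X j.succ, by simpa [hN1] using a1.mul (isHomogeneous_X _ j.succ),
        fun S _ _ y => ?_⟩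
      rw [map_mul, b1, evF_X, map_mul, aeval_X]
      fin_cases j <;> rfl
    | cast r =>
      refine ⟨F1 * X 0 * C (X (r, j)), ?_, fun S _ _ y => ?_⟩
      · simpa [hN1] using (a1.mul (isHomogeneous_X _ 0)).mul (isHomogeneous_C (Fin 3) _)
      · rw [map_mul, map_mul, b1, evF_X, evF_C, map_mul, aeval_X, aeval_X]
        simp

/-- The second point of a line and a conic. -/
theorem exists_conj' {R : Type*} [CommRing R] {l : V3 R} {c : Fin 3 → Fin 3 → R} {u : V3 R}
    (hu : Uni u) (hl : dot l u = 0) (hq : qf c u = 0) : ∃ u', IsConj (gm l c) u u' := by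
  obtain ⟨w, hw⟩ := hu
  set t := crs l w with ht
  have hlt : dot l t = 0 := by
    simp only [ht, dot, crs, Fin.sum_univ_three, Matrix.cons_val]; ring
  refine ⟨fun i => qf c t * u i - bf c u t * t i, ?_⟩
  have hlu : ∀ r, l r = crs u t r := by
    simp only [dot, Fin.sum_univ_three] at hw hl
    intro r
    fin_cases r <;> simp [ht, crs]
    · linear_combination (-(l 0)) * hw + (w 0) * hl
    · linear_combination (-(l 1)) * hw + (w 1) * hl
    · linear_combination (-(l 2)) * hw + (w 2) * hl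
  have hlu' : l = crs u t := funext hlu
  have key : ∀ i : Fin 3, crs l (Pi.single i 1) = fun r => t r * u i - u r * t i := by
    intro i
    rw [hlu']
    funext r
    fin_cases i <;> fin_cases r <;> simp [crs] <;> ring
  intro i j
  show _ = bf c (crs l (Pi.single i 1)) (crs l (Pi.single j 1))
  rw [key, key]
  simp only [qf, bf, Fin.sum_univ_three] at hq ⊢
  linear_combination (-2 * t i * t j) * hq

theorem gm_map2 {R S : Type*} [CommRing R] [CommRing S] (f : R →+* S) (l : V3 R)
    (c : Fin 3 → Fin 3 → R) (i j : Fin 3) :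
    f (gm l c i j) = gm (vmap f l) (fun i j => f (c i j)) i j := by
  have e : ∀ i : Fin 3, crs (vmap f l) (Pi.single i 1) = vmap f (crs l (Pi.single i 1)) := by
    intro i
    rw [vmap_crs]
    congr 1
    funext j
    by_cases h : j = i
    · subst h; simp [vmap]
    · simp [vmap, h]
  unfold gm
  rw [e, e]
  simp only [bf, vmap, map_sum, map_mul, map_add]

/-- The free vectors with algebraically independent coordinates. -/
noncomputable def zF (K : Type u) [Field K] (n : ℕ) : Fin (n + 1) → V3 (RF K n) :=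
  Fin.lastCases 0 fun r => ![1, X (r, 0), X (r, 1)]

/-- The polar coefficients of the pair of points over the free vectors. -/
noncomputable def GF (c : CD τ K) (i j : Fin 3) : RF K n :=
  gm ((c.map C).lin (zF K n)) ((c.map C).con (zF K n)) i j

theorem aeval_GF (c : CD τ K) {S : Type*} [CommRing S] [Algebra K S] (t : Fin n × Fin 2 → S)
    (z : Fin (n + 1) → V3 S) (hz : ∀ r : Fin n, z r.castSucc = ![1, t (r, 0), t (r, 1)])
    (i j : Fin 3) : aeval t (GF c i j) =
      gm ((c.map (algebraMap K S)).lin z) ((c.map (algebraMap K S)).con z) i j := by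
  have h1 : aeval t (GF c i j) = ((aeval t : RF K n →ₐ[K] S) : RF K n →+* S) (GF c i j) := rfl
  have h2 : (c.map (C : K →+* RF K n)).map ((aeval t : RF K n →ₐ[K] S) : RF K n →+* S) =
      c.map (algebraMap K S) := by
    refine CD.ext ?_ ?_
    · funext α
      simp [CD.map]
    · funext α
      simp [CD.map]
  have h3 : ∀ r : Fin n, (fun r => vmap ((aeval t : RF K n →ₐ[K] S) : RF K n →+* S) (zF K n r))
      r.castSucc = z r.castSucc := by
    intro r
    rw [hz]
    funext j
    fin_cases j <;> simp [zF, vmap]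
  rw [h1, GF, gm_map2, ← CD.lin_map, ← CD.con_map, h2, CD.lin_congr _ h3, CD.con_congr _ h3]

end aux

section main

variable {E L : Type u} [Field E] [Algebra K E] [Field L] [Algebra K L]

theorem J_zero [CharZero K] (G : Fin 3 → Fin 3 → RF K n) (tE : Fin n × Fin 2 → E)
    (hinj : ∀ Φ : RF K n, aeval tE Φ = 0 → Φ = 0) (v v' : V3 E)
    (hv : ∀ i j, aeval tE (G i j) = v i * v' j + v j * v' i) (t : Fin n × Fin 2 → L) (w w' : V3 L)
    (hw : ∀ i j, aeval t (G i j) = w i * w' j + w j * w' i) (hw0 : w ≠ 0) (hw0' : w' ≠ 0) :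
    (∀ (d : ℕ) (f : MvPolynomial (Fin 3) (RF K n)), f.IsHomogeneous d → evF tE v f = 0 →
      evF t w f = 0) ∨
    (∀ (d : ℕ) (f : MvPolynomial (Fin 3) (RF K n)), f.IsHomogeneous d → evF tE v f = 0 →
      evF t w' f = 0) := by
  have : CharZero L := charZero_of_injective_algebraMap (algebraMap K L).injective
  by_contra hcon
  rw [not_or] at hcon
  obtain ⟨c1, c2⟩ := hcon
  push Not at c1 c2
  obtain ⟨d1, f1, h1, z1, n1⟩ := c1
  obtain ⟨d2, f2, h2, z2, n2⟩ := c2
  have key : ∀ (d : ℕ) (f b : MvPolynomial (Fin 3) (RF K n)), f.IsHomogeneous d →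
      b.IsHomogeneous d → evF tE v f = 0 → evF tE v b = 0 →
      evF t w f * evF t w' b + evF t w b * evF t w' f = 0 := by
    intro d f b hf hb zf zb
    obtain ⟨h, hh⟩ := exists_H G hf hb
    have e1 := hh E tE v v' hv
    rw [zf, zb, zero_mul, zero_mul, add_zero] at e1
    have e2 := hh L t w w' hw
    rw [hinj h e1, map_zero] at e2
    exact e2.symm
  have k1 : evF t w' f1 = 0 := by
    have := key d1 f1 f1 h1 h1 z1 z1
    rw [← two_mul] at this
    exact (mul_eq_zero.1 ((mul_eq_zero.1 this).resolve_left two_ne_zero)).resolve_left n1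
  have k2 : evF t w f2 = 0 := by
    have := key d2 f2 f2 h2 h2 z2 z2
    rw [← two_mul] at this
    exact (mul_eq_zero.1 ((mul_eq_zero.1 this).resolve_left two_ne_zero)).resolve_right n2
  obtain ⟨i, hi⟩ := Function.ne_iff.1 hw0
  obtain ⟨j, hj⟩ := Function.ne_iff.1 hw0'
  have k3 := key (d1 + d2) (f1 * X i ^ d2) (f2 * X j ^ d1)
    (by simpa using h1.mul ((isHomogeneous_X _ i).pow d2))
    (by simpa [add_comm] using h2.mul ((isHomogeneous_X _ j).pow d1))
    (by rw [map_mul, z1, zero_mul]) (by rw [map_mul, z2, zero_mul])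
  simp only [map_mul, map_pow, evF_X, k1, k2, zero_mul, add_zero] at k3
  exact mul_ne_zero (mul_ne_zero n1 (pow_ne_zero _ hi)) (mul_ne_zero n2 (pow_ne_zero _ hj)) k3

theorem exists_f0 [CharZero K] (G : Fin 3 → Fin 3 → RF K n) (tE : Fin n × Fin 2 → E) (v v' : V3 E)
    (hv : ∀ i j, aeval tE (G i j) = v i * v' j + v j * v' i) (hv0 : v 0 = 1) (hv' : v' ≠ 0)
    {g : MvPolynomial (Fin 3) (RF K n)} {N : ℕ} (hg : g.IsHomogeneous N) (hgv : evF tE v g ≠ 0)
    (hgv' : evF tE v' g = 0) : ∃ (d : ℕ) (f : MvPolynomial (Fin 3) (RF K n)),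
      f.IsHomogeneous d ∧ evF tE v f = 0 ∧ evF tE v' f ≠ 0 := by
  have : CharZero E := charZero_of_injective_algebraMap (algebraMap K E).injective
  by_cases h0 : v' 0 = 0
  · obtain ⟨j, hj⟩ := Function.ne_iff.1 hv'
    refine ⟨1, C (G j j) * X 0 - C (2 * G 0 j) * X j, ?_, ?_, ?_⟩
    · have e1 := (isHomogeneous_C (Fin 3) (G j j)).mul (isHomogeneous_X (RF K n) 0)
      have e2 := (isHomogeneous_C (Fin 3) (2 * G 0 j)).mul (isHomogeneous_X (RF K n) j)
      rw [zero_add] at e1 e2
      exact e1.sub e2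
    · rw [map_sub, map_mul, map_mul, evF_C, evF_C, evF_X, evF_X, map_mul, map_ofNat, hv, hv, hv0,
        h0]
      ring
    · rw [map_sub, map_mul, map_mul, evF_C, evF_C, evF_X, evF_X, map_mul, map_ofNat, hv, hv, hv0,
        h0]
      have : (v j * v' j + v j * v' j) * 0 - 2 * (1 * v' j + v j * 0) * v' j =
          - (2 * (v' j * v' j)) := by ring
      rw [this]
      exact neg_ne_zero.2 (mul_ne_zero two_ne_zero (mul_ne_zero hj hj))
  · set τ : Fin 3 → MvPolynomial (Fin 3) (RF K n) := fun j =>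
      C (2 * G 0 j) * X 0 - C (G 0 0) * X j with hτ
    have hτh : ∀ j, (τ j).IsHomogeneous 1 := by
      intro j
      have e1 := (isHomogeneous_C (Fin 3) (2 * G 0 j)).mul (isHomogeneous_X (RF K n) 0)
      have e2 := (isHomogeneous_C (Fin 3) (G 0 0)).mul (isHomogeneous_X (RF K n) j)
      rw [zero_add] at e1 e2
      exact e1.sub e2
    have hcomp : ∀ u : V3 E, evF tE u (aeval τ g) = evF tE (fun j => evF tE u (τ j)) g := by
      intro u
      have : (evF tE u).comp ((aeval τ : MvPolynomial (Fin 3) (RF K n) →ₐ[RF K n] _) :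
          MvPolynomial (Fin 3) (RF K n) →+* MvPolynomial (Fin 3) (RF K n)) =
          evF tE (fun j => evF tE u (τ j)) := by
        apply MvPolynomial.ringHom_ext
        · intro r
          rw [evF_C]
          simp [evF_C]
        · intro i
          rw [evF_X]
          simp
      exact DFunLike.congr_fun this g
    refine ⟨1 * N, aeval τ g, hg.aeval τ hτh, ?_, ?_⟩
    · rw [hcomp, show (fun j => evF tE v (τ j)) = fun j => 2 * v' j from ?_, evF_smul _ _ _ hg,
        hgv', mul_zero]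
      funext j
      simp only [hτ]
      rw [map_sub, map_mul (evF tE v), map_mul (evF tE v), evF_C, evF_C, evF_X, evF_X, map_mul,
        map_ofNat, hv, hv, hv0]
      ring
    · rw [hcomp, show (fun j => evF tE v' (τ j)) = fun j => (2 * v' 0 * v' 0) * v j from ?_,
        evF_smul _ _ _ hg]
      · exact mul_ne_zero (pow_ne_zero _ (mul_ne_zero (mul_ne_zero two_ne_zero h0) h0)) hgv
      funext j
      simp only [hτ]
      rw [map_sub, map_mul (evF tE v'), map_mul (evF tE v'), evF_C, evF_C, evF_X, evF_X, map_mul,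
        map_ofNat, hv, hv, hv0]
      ring

theorem exists_corr [CharZero K] (G : Fin 3 → Fin 3 → RF K n) (tE : Fin n × Fin 2 → E)
    (v v' : V3 E) (hv : ∀ i j, aeval tE (G i j) = v i * v' j + v j * v' i) (hv0 : v 0 = 1)
    (hv' : v' ≠ 0) {g : MvPolynomial (Fin 3) (RF K n)} {N : ℕ} (hg : g.IsHomogeneous N)
    (hgv : evF tE v g ≠ 0) : ∃ (e d : ℕ) (f : MvPolynomial (Fin 3) (RF K n)),
      f.IsHomogeneous d ∧ (g * X 0 ^ e).IsHomogeneous d ∧ evF tE v f = 0 ∧
        evF tE v' (g * X 0 ^ e + f) ≠ 0 := by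
  by_cases h : evF tE v' g = 0
  · obtain ⟨d0, f0, h1, h2, h3⟩ := exists_f0 G tE v v' hv hv0 hv' hg hgv h
    obtain ⟨j, hj⟩ := Function.ne_iff.1 hv'
    refine ⟨d0, N + d0, f0 * X j ^ N, ?_, ?_, ?_, ?_⟩
    · simpa [add_comm] using h1.mul ((isHomogeneous_X _ j).pow N)
    · simpa using hg.mul ((isHomogeneous_X _ 0).pow d0)
    · rw [map_mul, h2, zero_mul]
    · rw [map_add, map_mul, h, zero_mul, zero_add, map_mul, map_pow, evF_X]
      exact mul_ne_zero h3 (pow_ne_zero _ hj)
  · refine ⟨0, N, 0, isHomogeneous_zero _ _ _, by simpa using hg, map_zero _, ?_⟩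
    rwa [pow_zero, mul_one, add_zero]

end main

/-- Proof.  Let `E` be the fraction field of `K[z] / P`, `R = K[t]` the polynomial ring of the free
planes (a subring of `E`), `G i j = gm (lin) (con) i j ∈ R`, `v = (1, y, y')` the last vector of the
generic point and `v'` its second point (`WD.exists_conj`, stated for line and conic), so
`G i j = v i * v' j + v j * v' i`, and `v' ≠ 0` (`hG`).  For forms `f`, `b` of the same degree in
three variables over `R` let `H (f, b) ∈ R` be the value at `G` of the form of `exists_sym` (over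
the ring `R`).  `J` = all forms `f` over `R` with `f (v) = 0`.
(1) `H (f, f') = 0` for `f`, `f' ∈ J`; so if `w`, `w'` are the two points over a point `t` with
coordinates in `L` then one of them, call it `w`, is a zero of all `f ∈ J`.
(2) Let `g ∉ P`; multiply its homogenization by `v 0`, to get a form `g` over `R` with
`g (v) ≠ 0`.  There is `f ∈ J` of the same degree with `(g + f) (v') ≠ 0`: if all `f ∈ J` vanish at
`v'` then `v' 0 ≠ 0` (minimal polynomials of `y`, `y'` over the fraction field of `R`; they are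
algebraic because the line and the conic of the generic point have finite intersection) and
`g g* - ρ v 0 ^ N ∈ J` for some `g*` and `ρ ≠ 0` in `R`, so `g (v') ≠ 0`.
(3) `Φ = H (g + f, g + f) * G i j` for some `G i j ≠ 0`; take a point from `hpts`. -/
theorem dense_of_points {L : Type u} [CharZero K] [Field L] [Algebra K L] (c : CD τ K)
    (hG : ∃ z : Fin (n + 1) → V3 K, (∀ r : Fin n, z r.castSucc 0 = 1) ∧
      ∃ i j, gm (c.lin z) (c.con z) i j ≠ 0)
    (hpts : ∀ Φ : MvPolynomial (Fin n × Fin 2) K, Φ ≠ 0 → ∃ z : Fin (n + 1) → V3 L,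
      (c.map (algebraMap K L)).IsPt z ∧ (∀ r : Fin n, z r.castSucc 0 = 1) ∧
      z (Fin.last n) ≠ 0 ∧ aeval (fun x : Fin n × Fin 2 => z x.1.castSucc x.2.succ) Φ ≠ 0)
    (P : Ideal (MvPolynomial (Fin (n + 1) × Fin 2) K)) [P.IsPrime] (hL : eqL c ∈ P)
    (hQ : eqQ c ∈ P) (hP : Dominant P) (g : MvPolynomial (Fin (n + 1) × Fin 2) K ⧸ P)
    (hg : ∀ φ : (MvPolynomial (Fin (n + 1) × Fin 2) K ⧸ P) →ₐ[K] L, φ g = 0) : g = 0 := by
  classical
  have : CharZero L := charZero_of_injective_algebraMap (algebraMap K L).injective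
  by_contra hg0
  obtain ⟨p, rfl⟩ := Ideal.Quotient.mk_surjective g
  -- the generic point
  let E := FractionRing (MvPolynomial (Fin (n + 1) × Fin 2) K ⧸ P)
  let yE : Fin (n + 1) × Fin 2 → E := fun x =>
    algebraMap (MvPolynomial (Fin (n + 1) × Fin 2) K ⧸ P) E (Ideal.Quotient.mk P (X x))
  have hyE : ∀ q : MvPolynomial (Fin (n + 1) × Fin 2) K, aeval yE q =
      algebraMap (MvPolynomial (Fin (n + 1) × Fin 2) K ⧸ P) E (Ideal.Quotient.mk P q) := by
    intro q
    have h1 : ((aeval yE : MvPolynomial (Fin (n + 1) × Fin 2) K →ₐ[K] E) :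
        MvPolynomial (Fin (n + 1) × Fin 2) K →+* E) =
        (algebraMap (MvPolynomial (Fin (n + 1) × Fin 2) K ⧸ P) E).comp (Ideal.Quotient.mk P) := by
      apply MvPolynomial.ringHom_ext
      · intro r
        simp only [RingHom.coe_coe, RingHom.comp_apply]
        rw [aeval_C, IsScalarTower.algebraMap_apply K (MvPolynomial (Fin (n + 1) × Fin 2) K ⧸ P) E]
        rfl
      · intro i
        simp only [RingHom.coe_coe, RingHom.comp_apply]
        rw [aeval_X]
    exact DFunLike.congr_fun h1 q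
  have hyE0 : ∀ q : MvPolynomial (Fin (n + 1) × Fin 2) K, aeval yE q = 0 ↔ q ∈ P := by
    intro q
    rw [hyE, ← Ideal.Quotient.eq_zero_iff_mem]
    exact map_eq_zero_iff _ (IsFractionRing.injective _ E)
  let tE : Fin n × Fin 2 → E := fun x => yE (x.1.castSucc, x.2)
  have hinj : ∀ Φ : RF K n, aeval tE Φ = 0 → Φ = 0 := by
    intro Φ hΦ
    refine hP Φ ((hyE0 _).1 ?_)
    rw [aeval_rename]
    exact hΦ
  let zE : Fin (n + 1) → V3 E := fun r => ![1, yE (r, 0), yE (r, 1)]
  have hpt : (c.map (algebraMap K E)).IsPt zE := by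
    have e0 : ∀ r, (fun j => ((aeval yE : MvPolynomial (Fin (n + 1) × Fin 2) K →ₐ[K] E) :
        MvPolynomial (Fin (n + 1) × Fin 2) K →+* E) (aff K n r j)) = zE r := by
      intro r
      funext j
      fin_cases j <;> simp [aff, zE]
    constructor
    · have h1 := (hyE0 _).2 hL
      have h2 := map_mev ((aeval yE : MvPolynomial (Fin (n + 1) × Fin 2) K →ₐ[K] E) :
        MvPolynomial (Fin (n + 1) × Fin 2) K →+* E) (c.map C).a (mo τ (aff K n))
      rw [CD.map_mo, show (fun r => vmap ((aeval yE : MvPolynomial (Fin (n + 1) × Fin 2) K →ₐ[K] E) :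
        MvPolynomial (Fin (n + 1) × Fin 2) K →+* E) (aff K n r)) = zE from funext e0] at h2
      rw [← h1]
      refine Eq.trans ?_ h2.symm
      congr 1
      funext α
      simp [CD.map]
    · have h1 := (hyE0 _).2 hQ
      have h2 := map_mev ((aeval yE : MvPolynomial (Fin (n + 1) × Fin 2) K →ₐ[K] E) :
        MvPolynomial (Fin (n + 1) × Fin 2) K →+* E) (c.map C).b (mo' τ (aff K n))
      rw [CD.map_mo', show (fun r => vmap ((aeval yE : MvPolynomial (Fin (n + 1) × Fin 2) K →ₐ[K] E) :
        MvPolynomial (Fin (n + 1) × Fin 2) K →+* E) (aff K n r)) = zE from funext e0] at h2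
      rw [← h1]
      refine Eq.trans ?_ h2.symm
      congr 1
      funext α
      simp [CD.map]
  rw [CD.isPt_iff_last] at hpt
  set v : V3 E := zE (Fin.last n) with hvdef
  have hv0 : v 0 = 1 := rfl
  obtain ⟨v', hv'⟩ := exists_conj' (u := v) ⟨Pi.single 0 1, by
    rw [dot, Finset.sum_eq_single 0 (fun j _ hj => by simp [hj])
      (fun h => absurd (Finset.mem_univ _) h), Pi.single_eq_same, hv0, mul_one]⟩ hpt.1 hpt.2
  have hv : ∀ i j, aeval tE (GF c i j) = v i * v' j + v j * v' i := by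
    intro i j
    rw [aeval_GF c tE zE (fun r => rfl), hv' i j]
  obtain ⟨i0, j0, hG0⟩ : ∃ i j, GF c i j ≠ 0 := by
    obtain ⟨z, hz, i, j, hij⟩ := hG
    refine ⟨i, j, fun h => hij ?_⟩
    have e := aeval_GF c (S := K) (fun x => z x.1.castSucc x.2.succ) z (fun r => by
      funext j
      fin_cases j
      · exact hz r
      · rfl
      · rfl) i j
    rw [h, map_zero] at e
    exact e.symm
  have hv'0 : v' ≠ 0 := by
    rintro h
    apply hG0
    apply hinj
    rw [hv, h]
    simp
  -- the form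
  have hp0 : aeval yE p ≠ 0 := by
    rw [Ne, hyE0, ← Ideal.Quotient.eq_zero_iff_mem]
    exact hg0
  obtain ⟨N0, hN0⟩ := exists_hom p
  obtain ⟨F0, hF0, hF0v⟩ := hN0 N0 le_rfl
  have hF0v' : evF tE v F0 = aeval yE p := hF0v E yE
  have hgh : (X 0 * F0).IsHomogeneous (1 + N0) := (isHomogeneous_X _ 0).mul hF0
  have hgv : evF tE v (X 0 * F0) ≠ 0 := by
    rw [map_mul, evF_X, hv0, one_mul, hF0v']
    exact hp0
  obtain ⟨e, d, f, hf, hge, hfv, hne⟩ := exists_corr (GF c) tE v v' hv hv0 hv'0 hgh hgv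
  obtain ⟨h1, hh1⟩ := exists_H (GF c) (hge.add hf) (hge.add hf)
  have hΦ : h1 * GF c i0 j0 ≠ 0 := by
    refine mul_ne_zero (fun h => ?_) hG0
    have e1 := hh1 E tE v v' hv
    have : CharZero E := charZero_of_injective_algebraMap (algebraMap K E).injective
    rw [h, map_zero, ← two_mul, map_add _ _ f, hfv, add_zero, map_mul _ _ (X 0 ^ e), map_pow,
      evF_X, hv0, one_pow, mul_one] at e1
    exact mul_ne_zero two_ne_zero (mul_ne_zero hgv hne) e1.symm
  -- a point
  obtain ⟨z, hzpt, hz1, hz0, hzΦ⟩ := hpts _ hΦ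
  rw [CD.isPt_iff_last] at hzpt
  set t : Fin n × Fin 2 → L := fun x => z x.1.castSucc x.2.succ with ht
  have hzt : ∀ r : Fin n, z r.castSucc = ![1, t (r, 0), t (r, 1)] := by
    intro r
    funext j
    fin_cases j
    · exact hz1 r
    · rfl
    · rfl
  set w : V3 L := z (Fin.last n) with hw
  obtain ⟨i1, hi1⟩ := Function.ne_iff.1 hz0
  obtain ⟨w', hw'⟩ := exists_conj' (u := w) ⟨Pi.single i1 (w i1)⁻¹, by
    rw [dot, Finset.sum_eq_single i1 (fun j _ hj => by simp [hj])
      (fun h => absurd (Finset.mem_univ _) h), Pi.single_eq_same]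
    exact inv_mul_cancel₀ hi1⟩ hzpt.1 hzpt.2
  have hwG : ∀ i j, aeval t (GF c i j) = w i * w' j + w j * w' i := by
    intro i j
    rw [aeval_GF c t z hzt, hw' i j]
  rw [map_mul] at hzΦ
  have hw'0 : w' ≠ 0 := by
    rintro h
    apply right_ne_zero_of_mul hzΦ
    rw [hwG, h]
    simp
  have hprod := left_ne_zero_of_mul hzΦ
  rw [hh1 L t w w' hwG, ← two_mul] at hprod
  have hb := right_ne_zero_of_mul hprod
  -- the point which lies on the component
  have key : ∀ w0 : V3 L, (∀ (d : ℕ) (f : MvPolynomial (Fin 3) (RF K n)), f.IsHomogeneous d →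
      evF tE v f = 0 → evF t w0 f = 0) → evF t w0 (X 0 * F0 * X 0 ^ e + f) ≠ 0 → False := by
    intro w0 hJ hn
    rw [map_add, hJ d f hf hfv, add_zero, map_mul, map_mul, evF_X] at hn
    have hn0 : w0 0 ≠ 0 := left_ne_zero_of_mul (left_ne_zero_of_mul hn)
    have hn1 : evF t w0 F0 ≠ 0 := right_ne_zero_of_mul (left_ne_zero_of_mul hn)
    let yL : Fin (n + 1) × Fin 2 → L := fun x =>
      Fin.lastCases (motive := fun _ => L) ((w0 0)⁻¹ * w0 x.2.succ) (fun r => t (r, x.2)) x.1
    have hyL1 : (fun x : Fin n × Fin 2 => yL (x.1.castSucc, x.2)) = t := by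
      funext x
      simp [yL]
    have hyL2 : ![1, yL (Fin.last n, 0), yL (Fin.last n, 1)] = fun i => (w0 0)⁻¹ * w0 i := by
      funext j
      fin_cases j
      · simp [hn0]
      · simp [yL]
      · simp [yL]
    have hP0 : ∀ q ∈ P, aeval yL q = 0 := by
      intro q hq
      obtain ⟨N1, hN1⟩ := exists_hom q
      obtain ⟨F1, hF1, hF1v⟩ := hN1 N1 le_rfl
      have e1 : evF tE v F1 = 0 := (hF1v E yE).trans ((hyE0 q).2 hq)
      rw [← hF1v L yL, hyL1, hyL2, evF_smul _ _ _ hF1, hJ N1 F1 hF1 e1, mul_zero]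
    let φ : (MvPolynomial (Fin (n + 1) × Fin 2) K ⧸ P) →ₐ[K] L :=
      Ideal.Quotient.liftₐ P (aeval yL) hP0
    have h3 : φ (Ideal.Quotient.mk P p) = aeval yL p := rfl
    have h4 := hg φ
    rw [h3, ← hF0v L yL, hyL1, hyL2, evF_smul _ _ _ hF0] at h4
    exact mul_ne_zero (pow_ne_zero _ (inv_ne_zero hn0)) hn1 h4
  rcases J_zero (GF c) tE hinj v v' hv t w w' hwG hz0 hw'0 with hJ | hJ
  · exact key w hJ (left_ne_zero_of_mul hb)
  · exact key w' hJ (right_ne_zero_of_mul hb)

end Pool.Agent.Helper2.KX
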