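import Pool.Agent.Helper2.KX.C0b

/-!
# The affine equations of the complete intersection
-/

namespace Pool.Agent.Helper2.KX

open MvPolynomial

universe u

variable {K : Type u} [Field K] {n : ℕ} {τ : Fin n → Bool}

/-- The affine coordinates. -/
noncomputable def aff (K : Type u) [Field K] (n : ℕ) :
    Fin (n + 1) → V3 (MvPolynomial (Fin (n + 1) × Fin 2) K) :=
  fun r => ![1, X (r, 0), X (r, 1)]

/-- The first equation in the affine chart. -/
noncomputable def eqL (c : CD τ K) : MvPolynomial (Fin (n + 1) × Fin 2) K :=
  mev (c.map C).a (mo τ (aff K n))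

/-- The second equation in the affine chart. -/
noncomputable def eqQ (c : CD τ K) : MvPolynomial (Fin (n + 1) × Fin 2) K :=
  mev (c.map C).b (mo' τ (aff K n))

/-- The coordinates of the free planes are algebraically independent modulo `P`. -/
def Dominant (P : Ideal (MvPolynomial (Fin (n + 1) × Fin 2) K)) : Prop :=
  ∀ Φ : MvPolynomial (Fin n × Fin 2) K, rename (Prod.map Fin.castSucc id) Φ ∈ P → Φ = 0

/-- The point over `K` with the coordinates `y`. -/
def pt {L : Type u} [Field L] (y : Fin (n + 1) × Fin 2 → L) : Fin (n + 1) → V3 L :=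
  fun r => ![1, y (r, 0), y (r, 1)]

end Pool.Agent.Helper2.KX
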