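import Pool.Agent.Helper2.KX.T2
import Pool.Agent.Helper81.KW.Mac

/-!
# The fibres of a general surface with two structures of double planes are finite
-/

namespace Pool.Agent.Helper2.KX

open MvPolynomial

/-- The examples `∑ u i * v i = 0`, `∑ (u i) ^ 2 * (v (i + 1)) ^ 2 = 0` (type `true`) and
`∑ (u i) ^ 2 * v i = 0`, `∑ u i * (v (i + 1)) ^ 2 = 0` (type `false`). -/
def W0 (t : Bool) : WD t ℤ :=
  if t then
    ⟨fun p r => if p.2 = 0 ∧ r.2 = 0 ∧ p.1 = r.1 then 1 else 0,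
      fun p r => if p.1 = p.2 ∧ r.1 = p.1 + 1 ∧ r.2 = p.1 + 1 then 1 else 0⟩
  else
    ⟨fun p r => if p.1 = p.2 ∧ r.1 = p.1 ∧ r.2 = 0 then 1 else 0,
      fun p r => if p.2 = 0 ∧ r.1 = p.1 + 1 ∧ r.2 = p.1 + 1 then 1 else 0⟩

/-- The universal equations. -/
noncomputable def WU (t : Bool) : WD t (MvPolynomial WI ℤ) :=
  ⟨fun p r => X (Sum.inl (p, r)), fun p r => X (Sum.inr (p, r))⟩

/-- The value at the coefficients of `W` as a homomorphism. -/
noncomputable def evH {t : Bool} {R : Type*} [CommRing R] (W : WD t R) : MvPolynomial WI ℤ →+* R :=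
  (MvPolynomial.aeval (Sum.elim (fun a : (Fin 3 × Fin 3) × (Fin 3 × Fin 3) => W.M a.1 a.2)
    (fun a : (Fin 3 × Fin 3) × (Fin 3 × Fin 3) => W.q a.1 a.2)) :
      MvPolynomial WI ℤ →ₐ[ℤ] R).toRingHom

theorem evH_apply {t : Bool} {R : Type*} [CommRing R] (W : WD t R) (δ : MvPolynomial WI ℤ) :
    evH W δ = evW δ W := rfl

theorem WU_map {t : Bool} {R : Type*} [CommRing R] (W : WD t R) : (WU t).map (evH W) = W := by
  refine WD.ext ?_ ?_
  · funext p r
    show evH W (X (Sum.inl (p, r))) = _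
    simp [evH]
  · funext p r
    show evH W (X (Sum.inr (p, r))) = _
    simp [evH]

theorem G_map_C {t : Bool} {A R : Type*} [CommRing A] [CommRing R] (φ : A →+* R) (W : WD t A) (i j : Fin 3) :
    MvPolynomial.map φ ((W.map (C : A →+* MvPolynomial (Fin 3) A)).G X i j) =
      ((W.map φ).map (C : R →+* MvPolynomial (Fin 3) R)).G X i j := by
  have h1 := WD.G_map (MvPolynomial.map φ) (W.map (C : A →+* MvPolynomial (Fin 3) A)) X
  have h2 : vmap (MvPolynomial.map φ) (X : V3 (MvPolynomial (Fin 3) A)) = X := by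
    funext i; simp [vmap]
  have h3 : (W.map (C : A →+* MvPolynomial (Fin 3) A)).map (MvPolynomial.map φ) =
      (W.map φ).map (C : R →+* MvPolynomial (Fin 3) R) := by
    rw [WD.map_map, WD.map_map]
    congr 1
    ext a
    simp
  rw [h2, h3] at h1
  exact (congrFun (congrFun h1 i) j).symm

theorem hom_crs {A : Type*} [CommRing A] {l : V3 (MvPolynomial (Fin 3) A)} {d : ℕ}
    (hl : ∀ i, (l i).IsHomogeneous d) (j r : Fin 3) :
    (crs l (Pi.single j 1) r).IsHomogeneous d := by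
  have h1 : ∀ j r : Fin 3, ((Pi.single j 1 : V3 (MvPolynomial (Fin 3) A)) r).IsHomogeneous 0 := by
    intro j r
    by_cases h : r = j
    · subst h
      rw [Pi.single_eq_same]
      exact isHomogeneous_one _ _
    · rw [Pi.single_eq_of_ne h]
      exact isHomogeneous_zero _ _ _
  have h2 : ∀ a b : Fin 3, (l a * (Pi.single j 1 : V3 (MvPolynomial (Fin 3) A)) b).IsHomogeneous d :=
    fun a b => by simpa using (hl a).mul (h1 j b)
  fin_cases r <;> exact (h2 _ _).sub (h2 _ _)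

theorem hom_gm {A : Type*} [CommRing A] {l : V3 (MvPolynomial (Fin 3) A)}
    {c : Fin 3 → Fin 3 → MvPolynomial (Fin 3) A} {d f n : ℕ}
    (hl : ∀ i, (l i).IsHomogeneous d) (hc : ∀ i j, (c i j).IsHomogeneous f) (hn : f + (d + d) = n) (i j : Fin 3) :
    (gm l c i j).IsHomogeneous n := by
  subst hn
  unfold gm bf
  refine IsHomogeneous.sum _ _ _ fun a _ => IsHomogeneous.sum _ _ _ fun b _ => ?_
  refine (hc a b).mul ?_
  exact ((hom_crs hl i a).mul (hom_crs hl j b)).add ((hom_crs hl j a).mul (hom_crs hl i b))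

theorem hom_mon {A : Type*} [CommRing A] (b : Bool) (p : Fin 3 × Fin 3) :
    (mon b (X : V3 (MvPolynomial (Fin 3) A)) p).IsHomogeneous (if b then 2 else 1) := by
  cases b
  · by_cases h : p.2 = 0
    · simpa [mon, h] using isHomogeneous_X A p.1
    · simpa [mon, h] using isHomogeneous_zero (Fin 3) A 1
  · exact (isHomogeneous_X A p.1).mul (isHomogeneous_X A p.2)

theorem hom_G {t : Bool} {A : Type*} [CommRing A] (W : WD t A) (i j : Fin 3) :
    ((W.map (C : A →+* MvPolynomial (Fin 3) A)).G X i j).IsHomogeneous (dd t) := by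
  have key : ∀ (c : Fin 3 × Fin 3 → A) (b : Bool) (n : ℕ), (if b then 2 else 1) = n →
      (∑ r, C (c r) * mon b (X : V3 (MvPolynomial (Fin 3) A)) r).IsHomogeneous n := by
    intro c b n hn
    subst hn
    refine IsHomogeneous.sum _ _ _ fun r _ => ?_
    have := (isHomogeneous_C (Fin 3) (c r)).mul (hom_mon (A := A) b r)
    rwa [zero_add] at this
  cases t
  · exact hom_gm (d := 2) (f := 1) (fun i => key (W.q (i, 0)) true 2 rfl) (fun i j => key (W.M (i, j)) false 1 rfl)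
      rfl i j
  · exact hom_gm (d := 1) (f := 2) (fun i => key (W.M (i, 0)) false 1 rfl) (fun i j => key (W.q (i, j)) true 2 rfl)
      rfl i j

/-- One half. -/
theorem half_delta {t : Bool} (U : WD t (MvPolynomial WI ℤ)) (W1 : WD t ℤ) (a b : Fin 3 → MvPolynomial (Fin 3) ℤ)
    (n : ℕ) (hn : n + dd t = 7) (ha : ∀ k, (a k).IsHomogeneous n) (hb : ∀ k, (b k).IsHomogeneous n) (s r : Fin 3)
    (he : ∀ k, a k * ((U.map (evH W1)).map (C : ℤ →+* MvPolynomial (Fin 3) ℤ)).G X (k + s) (k + s) +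
      b k * ((U.map (evH W1)).map (C : ℤ →+* MvPolynomial (Fin 3) ℤ)).G X k (k + r) = 2 * X k ^ 7) :
    ∃ δ : MvPolynomial WI ℤ, evW δ W1 ≠ 0 ∧ ∀ (R : Type) [CommRing R] (W : WD t R), IsUnit (evW δ W) →
      (U.map (evH W)).Half := by
  set c := (Int.castRingHom (MvPolynomial WI ℤ)) with hc
  set g := (U.map (C : MvPolynomial WI ℤ →+* MvPolynomial (Fin 3) (MvPolynomial WI ℤ))).G X with hg
  obtain ⟨d, h1, h2⟩ := Helper81.KW.mac (fun ij : Fin 3 × Fin 3 => g ij.1 ij.2)
    (fun k => MvPolynomial.map c (a k) * g (k + s) (k + s) + MvPolynomial.map c (b k) * g k (k + r)) (fun k => by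
      refine Ideal.add_mem _ (Ideal.mul_mem_left _ _ (Ideal.subset_span ⟨(k + s, k + s), rfl⟩))
        (Ideal.mul_mem_left _ _ (Ideal.subset_span ⟨(k, k + r), rfl⟩))) (fun k => by
      rw [← hn]
      exact (((ha k).map c).mul (hom_G U _ _)).add (((hb k).map c).mul (hom_G U _ _))) (evH W1) (fun k => by
      rw [map_add, map_mul, map_mul, map_map, map_map, hg, G_map_C, G_map_C]
      have h3 : (evH W1).comp c = RingHom.id ℤ := RingHom.ext_int _ _
      rw [h3, map_id, map_id]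
      exact he k)
  refine ⟨d, h1, fun R _ W hu => ⟨19, fun k => ?_⟩⟩
  have h3 := h2 R (evH W) hu k
  have h4 : (fun ij : Fin 3 × Fin 3 => MvPolynomial.map (evH W) (g ij.1 ij.2)) =
      fun ij : Fin 3 × Fin 3 => ((U.map (evH W)).map (C : R →+* MvPolynomial (Fin 3) R)).G X ij.1 ij.2 := by
    funext ij
    rw [hg, G_map_C]
  rw [h4] at h3
  exact h3

theorem hom_mon3 {R : Type*} [CommRing R] (i j k : Fin 3) :
    (X i * (X j * X k) : MvPolynomial (Fin 3) R).IsHomogeneous 3 :=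
  (isHomogeneous_X R i).mul ((isHomogeneous_X R j).mul (isHomogeneous_X R k))

theorem hom_mon2 {R : Type*} [CommRing R] (i j : Fin 3) :
    (X i * X j : MvPolynomial (Fin 3) R).IsHomogeneous 2 :=
  (isHomogeneous_X R i).mul (isHomogeneous_X R j)

/-- Both halves. -/
theorem both {t : Bool} {W1 : WD t ℤ}
    (H1 : ∃ δ : MvPolynomial WI ℤ, evW δ W1 ≠ 0 ∧ ∀ (R : Type) [CommRing R] (W : WD t R), IsUnit (evW δ W) →
      ((WU t).map (evH W)).Half)
    (H2 : ∃ δ : MvPolynomial WI ℤ, evW δ W1 ≠ 0 ∧ ∀ (R : Type) [CommRing R] (W : WD t R), IsUnit (evW δ W) →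
      ((WU t).swap.map (evH W)).Half) : ∃ δ : MvPolynomial WI ℤ, Nice t δ ∧ evW δ W1 ≠ 0 := by
  obtain ⟨d1, h1, h2⟩ := H1
  obtain ⟨d2, h3, h4⟩ := H2
  refine ⟨d1 * d2, fun R _ W hu => ?_, ?_⟩
  · rw [← evH_apply, map_mul] at hu
    have e1 := h2 R W (isUnit_of_mul_isUnit_left hu)
    have e2 := h4 R W (isUnit_of_mul_isUnit_right hu)
    rw [WU_map] at e1
    rw [← WD.swap_map, WU_map] at e2
    exact ⟨e1, e2⟩
  · rw [← evH_apply, map_mul, evH_apply, evH_apply]
    exact mul_ne_zero h1 h3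

/-- As `Helper2/KW/D1.lean`.  Certificates, for all `k` modulo `3` (`g = WD.G`, `g' = swap.G`):
type `true`:
`2 v_k ^ 7 = v_k ^ 3 g (k+1) (k+1) + v_(k+1) v_(k+2) ^ 2 g k (k+1)`,
`2 u_k ^ 7 = u_k ^ 3 g' (k+2) (k+2) + u_(k+1) ^ 2 u_(k+2) g' k (k+2)`;
type `false`:
`2 v_k ^ 7 = v_k ^ 2 g (k+1) (k+1) + v_(k+1) v_(k+2) g k (k+2)`,
`2 u_k ^ 7 = u_k ^ 2 g' (k+2) (k+2) + u_(k+1) u_(k+2) g' k (k+1)`. -/
theorem exists_delta (t : Bool) :
    ∃ δ : MvPolynomial WI ℤ, Nice t δ ∧ evW δ (W0 t) ≠ 0 := by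
  cases t
  · refine both ?_ ?_
    · refine half_delta (WU false) (W0 false) (fun k => X k * X k) (fun k => X (k + 1) * X (k + 2)) 2 rfl
        (fun k => hom_mon2 _ _) (fun k => hom_mon2 _ _) 1 2 ?_
      intro k
      rw [WU_map]
      fin_cases k <;>
      simp [WD.G, gm, bf, crs, WD.line, WD.con, WD.map, W0, mon, Fin.sum_univ_three, Fintype.sum_prod_type] <;> ring
    · refine half_delta (WU false).swap (W0 false) (fun k => X k * X k) (fun k => X (k + 1) * X (k + 2)) 2 rfl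
        (fun k => hom_mon2 _ _) (fun k => hom_mon2 _ _) 2 1 ?_
      intro k
      rw [← WD.swap_map, WU_map]
      fin_cases k <;>
      simp [WD.G, gm, bf, crs, WD.line, WD.con, WD.map, WD.swap, W0, mon, Fin.sum_univ_three,
        Fintype.sum_prod_type] <;> ring
  · refine both ?_ ?_
    · refine half_delta (WU true) (W0 true) (fun k => X k * (X k * X k)) (fun k => X (k + 1) * (X (k + 2) * X (k + 2)))
        3 rfl (fun k => hom_mon3 _ _ _) (fun k => hom_mon3 _ _ _) 1 1 ?_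
      intro k
      rw [WU_map]
      fin_cases k <;>
      simp [WD.G, gm, bf, crs, WD.line, WD.con, WD.map, W0, mon, Fin.sum_univ_three, Fintype.sum_prod_type] <;> ring
    · refine half_delta (WU true).swap (W0 true) (fun k => X k * (X k * X k))
        (fun k => X (k + 1) * (X (k + 1) * X (k + 2))) 3 rfl (fun k => hom_mon3 _ _ _) (fun k => hom_mon3 _ _ _) 2 2 ?_
      intro k
      rw [← WD.swap_map, WU_map]
      fin_cases k <;>
      simp [WD.G, gm, bf, crs, WD.line, WD.con, WD.map, WD.swap, W0, mon, Fin.sum_univ_three,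
        Fintype.sum_prod_type] <;> ring

end Pool.Agent.Helper2.KX
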