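import Pool.Agent.Helper2.KX.D1
import Pool.Agent.Helper2.KX.C0b

/-!
# The open condition on complete intersections
-/

namespace Pool.Agent.Helper2.KX

open MvPolynomial

universe u

/-- The index set of the coefficients. -/
abbrev CI (n : ℕ) := (Fin (n + 1) → Fin 3 × Fin 3) ⊕ (Fin (n + 1) → Fin 3 × Fin 3)

/-- The coefficients as one family. -/
def CD.coe {R : Type*} {n : ℕ} {τ : Fin n → Bool} (c : CD τ R) : CI n → R := Sum.elim c.a c.b

section natural

variable {R S : Type*} [CommRing R] [CommRing S] {n : ℕ} {τ : Fin n → Bool}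

theorem qf_vmap (f : R →+* S) (c : Fin 3 → Fin 3 → R) (u : V3 R) :
    f (qf c u) = qf (fun i j => f (c i j)) (vmap f u) := by
  simp only [qf, vmap, map_sum, map_mul]

theorem bf_vmap (f : R →+* S) (c : Fin 3 → Fin 3 → R) (u t : V3 R) :
    f (bf c u t) = bf (fun i j => f (c i j)) (vmap f u) (vmap f t) := by
  simp only [bf, vmap, map_sum, map_mul, map_add]

/-- The part of the open condition for the linear and the quadratic form. -/
noncomputable def dlo (c : CD τ R) : R :=
  c.lin 1 0 * (qf (c.con 1) (crs (c.lin 1) ![0, 0, 1]) *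
    ((bf (c.con 1) (crs (c.lin 1) ![0, 1, 0]) (crs (c.lin 1) ![0, 0, 1])) ^ 2 -
      4 * qf (c.con 1) (crs (c.lin 1) ![0, 0, 1]) *
        qf (c.con 1) (crs (c.lin 1) ![0, 1, 0])))

theorem vmap_one (f : R →+* S) : (fun r => vmap f ((1 : Fin (n + 1) → V3 R) r)) = 1 := by
  funext r j
  exact map_one f

theorem dlo_map (f : R →+* S) (c : CD τ R) : dlo (c.map f) = f (dlo c) := by
  have h1 : (c.map f).lin 1 = vmap f (c.lin 1) := by
    have h := CD.lin_map f c 1
    rwa [vmap_one] at h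
  have h2 : (c.map f).con 1 = fun k l => f (c.con 1 k l) := by
    have h := CD.con_map f c 1
    rwa [vmap_one] at h
  have h4 : vmap f ![0, 0, 1] = (![0, 0, 1] : V3 S) := by
    funext i
    fin_cases i <;> simp [vmap]
  have h5 : vmap f ![0, 1, 0] = (![0, 1, 0] : V3 S) := by
    funext i
    fin_cases i <;> simp [vmap]
  unfold dlo
  simp only [h1, h2, map_mul, map_sub, map_pow, qf_vmap, bf_vmap,
    vmap_crs, h4, h5, map_ofNat]
  rfl

theorem wd_map_one (f : R →+* S) (c : CD τ R) (i : Fin n) :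
    (c.map f).wd 1 i = (c.wd 1 i).map f := by
  have h := CD.wd_map f c 1 i
  rwa [vmap_one] at h

/-- The open condition as one element. -/
noncomputable def dl (δ : Bool → MvPolynomial WI ℤ) (c : CD τ R) : R :=
  dlo c * ∏ i, evW (δ (τ i)) (c.wd 1 i)

theorem dl_map (f : R →+* S) (δ : Bool → MvPolynomial WI ℤ) (c : CD τ R) :
    dl δ (c.map f) = f (dl δ c) := by
  unfold dl
  simp only [dlo_map, wd_map_one, evW_map, map_mul, map_prod]

end natural

/-- The universal coefficients. -/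
noncomputable def uni {n : ℕ} (τ : Fin n → Bool) : CD τ (MvPolynomial (CI n) ℤ) :=
  ⟨fun α => X (Sum.inl α), fun β => X (Sum.inr β)⟩

theorem uni_map {S : Type*} [CommRing S] {n : ℕ} {τ : Fin n → Bool} (c : CD τ S) :
    (uni τ).map (aeval c.coe : MvPolynomial (CI n) ℤ →ₐ[ℤ] S).toRingHom = c := by
  refine CD.ext ?_ ?_
  · funext α
    exact aeval_X _ _
  · funext β
    exact aeval_X _ _

section examples

/-- A linear combination of multi-indices. -/
theorem mev_comb {R : Type*} [CommRing R] {ι J : Type*} [Fintype ι] [DecidableEq ι] [Fintype J]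
    {N : ℕ} (A : J → Fin N → ι) (x : J → R) (m : Fin N → ι → R) :
    mev (fun α => ∑ j, if α = A j then x j else 0) m = ∑ j, x j * ∏ r, m r (A j r) := by
  unfold mev
  simp only [Finset.sum_mul]
  rw [Finset.sum_comm]
  refine Finset.sum_congr rfl fun j _ => ?_
  simp

variable {n : ℕ}

/-- The multi-index with one entry. -/
def A1 (p : Fin 3 × Fin 3) : Fin (n + 1) → Fin 3 × Fin 3 :=
  Function.update (fun _ => (0, 0)) (Fin.last n) p

/-- The multi-index with two entries. -/
def A2 (i : Fin n) (p : (Fin 3 × Fin 3) × (Fin 3 × Fin 3)) : Fin (n + 1) → Fin 3 × Fin 3 :=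
  Function.update (Function.update (fun _ => (0, 0)) i.castSucc p.1) (Fin.last n) p.2

/-- The first example. -/
def ex1 (τ : Fin n → Bool) : CD τ ℤ :=
  ⟨fun α => ∑ j : Fin 3 × Fin 3, if α = A1 j then (if j = (0, 0) then 1 else 0) else 0,
    fun β => ∑ j : Fin 3 × Fin 3, if β = A1 j then (if j.1 = j.2 then 1 else 0) else 0⟩

/-- The example for a plane. -/
def ex2 (τ : Fin n → Bool) (i : Fin n) : CD τ ℤ :=
  ⟨fun α => ∑ j : (Fin 3 × Fin 3) × (Fin 3 × Fin 3),
      if α = A2 i j then (W0 (τ i)).M j.1 j.2 else 0,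
    fun β => ∑ j : (Fin 3 × Fin 3) × (Fin 3 × Fin 3),
      if β = A2 i j then (W0 (τ i)).q j.1 j.2 else 0⟩

theorem mon_one (b : Bool) : mon b (1 : V3 ℤ) (0, 0) = 1 := by
  cases b <;> simp [mon]

theorem prod_last {R : Type*} [CommRing R] (m : Fin (n + 1) → Fin 3 × Fin 3 → R)
    (x : Fin 3 × Fin 3 → R) (p : Fin 3 × Fin 3) (hm : ∀ r, m r (0, 0) = 1) :
    ∏ r, Function.update m (Fin.last n) x r (A1 p r) = x p := by
  rw [Fin.prod_univ_castSucc, Function.update_self, A1, Function.update_self]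
  have h : ∀ i : Fin n, Function.update m (Fin.last n) x i.castSucc
      (Function.update (fun _ => (0, 0)) (Fin.last n) p i.castSucc) = 1 := by
    intro i
    rw [Function.update_of_ne (CD.castSucc_ne_last i), Function.update_of_ne
      (CD.castSucc_ne_last i)]
    exact hm _
  rw [Finset.prod_congr rfl fun i _ => h i, Finset.prod_const_one, one_mul]

theorem prod_two {R : Type*} [CommRing R] (m : Fin (n + 1) → Fin 3 × Fin 3 → R) (i : Fin n)
    (x y : Fin 3 × Fin 3 → R) (p : (Fin 3 × Fin 3) × (Fin 3 × Fin 3))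
    (hm : ∀ r, m r (0, 0) = 1) :
    ∏ r, Function.update (Function.update m i.castSucc x) (Fin.last n) y r (A2 i p r) =
      x p.1 * y p.2 := by
  rw [Fin.prod_univ_castSucc, Function.update_self, A2, Function.update_self]
  congr 1
  rw [Finset.prod_eq_single i]
  · rw [Function.update_of_ne (CD.castSucc_ne_last i), Function.update_of_ne
      (CD.castSucc_ne_last i), Function.update_self, Function.update_self]
  · intro j _ hj
    have h : j.castSucc ≠ i.castSucc := fun h => hj (Fin.castSucc_injective _ h)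
    rw [Function.update_of_ne (CD.castSucc_ne_last j), Function.update_of_ne
      (CD.castSucc_ne_last j), Function.update_of_ne h, Function.update_of_ne h]
    exact hm _
  · intro h
    exact absurd (Finset.mem_univ _) h

theorem sum_single (x : Fin 3 × Fin 3 → ℤ) (k : Fin 3 × Fin 3) :
    ∑ p, x p * (Pi.single k 1 : Fin 3 × Fin 3 → ℤ) p = x k := by
  rw [Finset.sum_eq_single k]
  · rw [Pi.single_eq_same, mul_one]
  · intro p _ hp
    rw [Pi.single_eq_of_ne hp, mul_zero]
  · intro h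
    exact absurd (Finset.mem_univ _) h

theorem sum_single2 (x : Fin 3 × Fin 3 → Fin 3 × Fin 3 → ℤ) (k l : Fin 3 × Fin 3) :
    ∑ p : (Fin 3 × Fin 3) × (Fin 3 × Fin 3), x p.1 p.2 *
      ((Pi.single k 1 : Fin 3 × Fin 3 → ℤ) p.1 * (Pi.single l 1 : Fin 3 × Fin 3 → ℤ) p.2) =
        x k l := by
  rw [Finset.sum_eq_single (k, l)]
  · rw [Pi.single_eq_same, Pi.single_eq_same, mul_one, mul_one]
  · rintro ⟨p, q⟩ _ hp
    by_cases h1 : p = k
    · have h2 : q ≠ l := fun h2 => hp (by rw [h1, h2])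
      rw [Pi.single_eq_of_ne h2, mul_zero, mul_zero]
    · rw [Pi.single_eq_of_ne h1, zero_mul, mul_zero]
  · intro h
    exact absurd (Finset.mem_univ _) h

theorem ex1_lin (τ : Fin n → Bool) : (ex1 τ).lin 1 = ![1, 0, 0] := by
  funext k
  show mev (fun α => ∑ j : Fin 3 × Fin 3, if α = A1 j then (if j = (0, 0) then 1 else 0)
    else 0) _ = _
  rw [mev_comb]
  simp only [prod_last (mo τ (1 : Fin (n + 1) → V3 ℤ)) _ _ fun r => mon_one _]
  rw [sum_single]
  revert k
  decide

theorem ex1_con (τ : Fin n → Bool) : (ex1 τ).con 1 = fun k l => if k = l then 1 else 0 := by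
  funext k l
  show mev (fun β => ∑ j : Fin 3 × Fin 3, if β = A1 j then (if j.1 = j.2 then 1 else 0)
    else 0) _ = _
  rw [mev_comb]
  simp only [prod_last (mo' τ (1 : Fin (n + 1) → V3 ℤ)) _ _ fun r => mon_one _]
  rw [sum_single]

theorem ex2_wd (τ : Fin n → Bool) (i : Fin n) : (ex2 τ i).wd 1 i = W0 (τ i) := by
  refine WD.ext ?_ ?_
  · funext p r
    show mev (fun α => ∑ j : (Fin 3 × Fin 3) × (Fin 3 × Fin 3),
      if α = A2 i j then (W0 (τ i)).M j.1 j.2 else 0) _ = _
    rw [mev_comb]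
    simp only [prod_two (mo τ (1 : Fin (n + 1) → V3 ℤ)) _ _ _ _ fun r => mon_one _]
    exact sum_single2 _ _ _
  · funext p r
    show mev (fun α => ∑ j : (Fin 3 × Fin 3) × (Fin 3 × Fin 3),
      if α = A2 i j then (W0 (τ i)).q j.1 j.2 else 0) _ = _
    rw [mev_comb]
    simp only [prod_two (mo' τ (1 : Fin (n + 1) → V3 ℤ)) _ _ _ _ fun r => mon_one _]
    exact sum_single2 _ _ _

theorem dlo_uni_ne (τ : Fin n → Bool) : dlo (uni τ) ≠ 0 := by
  intro h
  have h1 := dlo_map (aeval (ex1 τ).coe : MvPolynomial (CI n) ℤ →ₐ[ℤ] ℤ).toRingHom (uni τ)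
  rw [uni_map, h, map_zero] at h1
  unfold dlo at h1
  rw [ex1_lin, ex1_con] at h1
  revert h1
  decide

theorem dlw_uni_ne (τ : Fin n → Bool) (δ : MvPolynomial WI ℤ) (i : Fin n)
    (hδ : evW δ (W0 (τ i)) ≠ 0) : evW δ ((uni τ).wd 1 i) ≠ 0 := by
  intro h
  have h1 := wd_map_one (aeval (ex2 τ i).coe : MvPolynomial (CI n) ℤ →ₐ[ℤ] ℤ).toRingHom
    (uni τ) i
  rw [uni_map, ex2_wd] at h1
  rw [h1, evW_map, h, map_zero] at hδ
  exact hδ rfl

end examples

/-- Proof.  `Δ` is the product of the left hand sides for the universal `c` over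
`MvPolynomial (CI n) ℤ`; each factor is not zero because it is not zero for its own example
(`a α = x (α last)` if all free `α r = (0, 0)`, else `0`, and the same for `b`, gives
`lin 1 k = x (k, 0)`, `con 1 k l = y (k, l)`: take `x = (1, 0, 0)` and `y` = the unit matrix;
`a α = (W0 (τ i)).M (α i) (α last)` if `α r = (0, 0)` for all other free `r`, else `0`, and the
same for `b`, gives `wd 1 i = W0 (τ i)`). -/
theorem exists_Delta {n : ℕ} (τ : Fin n → Bool) (δ : Bool → MvPolynomial WI ℤ)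
    (hδ : ∀ t, evW (δ t) (W0 t) ≠ 0) :
    ∃ Δ : MvPolynomial (CI n) ℤ, Δ ≠ 0 ∧ ∀ (K : Type u) [Field K] (c : CD τ K),
      aeval c.coe Δ ≠ 0 → c.lin 1 0 ≠ 0 ∧
        qf (c.con 1) (crs (c.lin 1) ![0, 0, 1]) ≠ 0 ∧
        (bf (c.con 1) (crs (c.lin 1) ![0, 1, 0]) (crs (c.lin 1) ![0, 0, 1])) ^ 2 -
          4 * qf (c.con 1) (crs (c.lin 1) ![0, 0, 1]) *
            qf (c.con 1) (crs (c.lin 1) ![0, 1, 0]) ≠ 0 ∧
        ∀ i, evW (δ (τ i)) (c.wd 1 i) ≠ 0 := by
  have key : ∀ {S : Type _} [CommRing S] (c : CD τ S),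
      aeval c.coe (dl δ (uni τ)) = dl δ c := by
    intro S _ c
    have h := dl_map (aeval c.coe : MvPolynomial (CI n) ℤ →ₐ[ℤ] S).toRingHom δ (uni τ)
    rw [uni_map] at h
    exact h.symm
  refine ⟨dl δ (uni τ), ?_, ?_⟩
  · exact mul_ne_zero (dlo_uni_ne τ)
      (Finset.prod_ne_zero_iff.mpr fun i _ => dlw_uni_ne τ _ i (hδ _))
  · intro K _ c hc
    rw [key c] at hc
    unfold dl dlo at hc
    have h1 := left_ne_zero_of_mul hc
    have h2 := left_ne_zero_of_mul h1
    have h3 := right_ne_zero_of_mul h1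
    have h4 := left_ne_zero_of_mul h3
    have h5 := right_ne_zero_of_mul h3
    have h6 := right_ne_zero_of_mul hc
    exact ⟨h2, h4, h5, fun i => Finset.prod_ne_zero_iff.mp h6 i (Finset.mem_univ i)⟩

end Pool.Agent.Helper2.KX
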