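import Mathlib

/-!
# Calabi-Yau complete intersections in products of projective planes: definitions

Vectors with three coordinates, conics, the second point of a line and a conic, and surfaces in a
product of two planes with two structures of double planes (`WD`): type `true` is given by forms
of bidegrees `(1, 1)` and `(2, 2)`, type `false` by forms of bidegrees `(2, 1)` and `(1, 2)`.
-/

namespace Pool.Agent.Helper2.KX

/-- Vectors with three coordinates. -/
abbrev V3 (R : Type*) := Fin 3 → R

section Vec

variable {R S : Type*} [CommRing R] [CommRing S]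

/-- The scalar product. -/
def dot (u v : V3 R) : R := ∑ i, u i * v i

/-- The vector product. -/
def crs (u v : V3 R) : V3 R :=
  ![u 1 * v 2 - u 2 * v 1, u 2 * v 0 - u 0 * v 2, u 0 * v 1 - u 1 * v 0]

/-- The quadratic form with coefficients `c`. -/
def qf (c : Fin 3 → Fin 3 → R) (u : V3 R) : R := ∑ i, ∑ j, c i j * (u i * u j)

/-- The polar form of `qf c`. -/
def bf (c : Fin 3 → Fin 3 → R) (u t : V3 R) : R := ∑ i, ∑ j, c i j * (u i * t j + t i * u j)

/-- The polar coefficients of the quadratic form `ξ ↦ qf c (l × ξ)`. -/
def gm (l : V3 R) (c : Fin 3 → Fin 3 → R) (i j : Fin 3) : R :=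
  bf c (crs l (Pi.single i 1)) (crs l (Pi.single j 1))

/-- The polar coefficients of `ξ ↦ (ξ · u) (ξ · u')` are `g`. -/
def IsConj (g : Fin 3 → Fin 3 → R) (u u' : V3 R) : Prop :=
  ∀ i j, u i * u' j + u j * u' i = g i j

/-- Unimodular vectors (over a field: nonzero vectors). -/
def Uni (u : V3 R) : Prop := ∃ w : V3 R, dot w u = 1

/-- The vector with image coordinates. -/
def vmap (f : R →+* S) (u : V3 R) : V3 S := fun i => f (u i)

/-- The value of a form of degree one (`false`, the second index is `0`) or two (`true`). -/
def mon (b : Bool) (u : V3 R) : Fin 3 × Fin 3 → R := fun p =>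
  if b then u p.1 * u p.2 else if p.2 = 0 then u p.1 else 0

end Vec

/-- Two forms on a product of two planes: for type `true` the bidegrees are `(1, 1)`, `(2, 2)`, for
type `false` they are `(2, 1)`, `(1, 2)`. The coefficient of `u i u j v k v l` is `q (i, j) (k, l)`;
a missing second factor is indicated by the index `0`. -/
@[ext]
structure WD (t : Bool) (R : Type*) where
  /-- the coefficients of the first form -/
  M : Fin 3 × Fin 3 → Fin 3 × Fin 3 → R
  /-- the coefficients of the second form -/
  q : Fin 3 × Fin 3 → Fin 3 × Fin 3 → R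

namespace WD

variable {t : Bool} {R S : Type*} [CommRing R] [CommRing S]

/-- Exchange of the two planes. -/
def swap (W : WD t R) : WD t R :=
  ⟨fun p r => if t then W.M r p else W.q r p, fun p r => if t then W.q r p else W.M r p⟩

/-- The line over `v`. -/
def line (W : WD t R) (v : V3 R) : V3 R := fun i =>
  if t then ∑ r, W.M (i, 0) r * mon false v r else ∑ r, W.q (i, 0) r * mon true v r

/-- The conic over `v`. -/
def con (W : WD t R) (v : V3 R) : Fin 3 → Fin 3 → R := fun i j =>
  if t then ∑ r, W.q (i, j) r * mon true v r else ∑ r, W.M (i, j) r * mon false v r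

/-- The polar coefficients of the pair of points over `v`. -/
def G (W : WD t R) (v : V3 R) : Fin 3 → Fin 3 → R := gm (W.line v) (W.con v)

/-- The points of the surface. -/
def IsPt (W : WD t R) (u v : V3 R) : Prop := dot (W.line v) u = 0 ∧ qf (W.con v) u = 0

/-- Base change. -/
def map (f : R →+* S) (W : WD t R) : WD t S :=
  ⟨fun p r => f (W.M p r), fun p r => f (W.q p r)⟩

/-- All fibres over the second plane are finite, in the strong form of a Nullstellensatz. -/
def Half (W : WD t R) : Prop :=
  ∃ N : ℕ, ∀ k : Fin 3, (MvPolynomial.X k : MvPolynomial (Fin 3) R) ^ N ∈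
    Ideal.span (Set.range fun ij : Fin 3 × Fin 3 =>
      (W.map (MvPolynomial.C : R →+* MvPolynomial (Fin 3) R)).G MvPolynomial.X ij.1 ij.2)

/-- All fibres over both planes are finite. -/
def Good (W : WD t R) : Prop := W.Half ∧ W.swap.Half

end WD

/-- The index set of the coefficients of `WD`. -/
abbrev WI := ((Fin 3 × Fin 3) × (Fin 3 × Fin 3)) ⊕ ((Fin 3 × Fin 3) × (Fin 3 × Fin 3))

/-- The value of a polynomial at the coefficients of `W`. -/
noncomputable def evW {t : Bool} {R : Type*} [CommRing R] (δ : MvPolynomial WI ℤ) (W : WD t R) : R :=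
  MvPolynomial.aeval (Sum.elim (fun a : (Fin 3 × Fin 3) × (Fin 3 × Fin 3) => W.M a.1 a.2)
    (fun a : (Fin 3 × Fin 3) × (Fin 3 × Fin 3) => W.q a.1 a.2)) δ

/-- A polynomial in the coefficients whose invertibility implies that all fibres are finite. -/
def Nice (t : Bool) (δ : MvPolynomial WI ℤ) : Prop :=
  ∀ (R : Type) [CommRing R] (W : WD t R), IsUnit (evW δ W) → W.Good

/-- Rings in which `2` is invertible. -/
class Two (R : Type*) [CommRing R] : Prop where
  unit : IsUnit (2 : R)

/-- Points of good surfaces, as pairs of unimodular vectors. -/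
@[ext]
structure TP (t : Bool) (δ : MvPolynomial WI ℤ) (R : Type) [CommRing R] where
  W : WD t R
  u : V3 R
  v : V3 R
  hd : IsUnit (evW δ W)
  hu : Uni u
  hv : Uni v
  pt : W.IsPt u v

end Pool.Agent.Helper2.KX
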