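import Pool.Agent.Helper2.KX.B2
import Pool.Agent.Helper2.KX.C2
import Pool.Agent.Helper2.KX.C3
import Pool.Agent.Helper2.KX.D2
import Pool.Agent.Helper2.KX.P0
import Pool.Agent.Helper2.KX.A1c
import Pool.Agent.Helper15.PotDense

/-!
# Potential density of complete intersections of two divisors in a product of planes
-/

set_option linter.unusedSectionVars false

namespace Pool.Agent.Helper2.KX

open MvPolynomial

universe u v

theorem countable_of_numberField (K : Type*) [Field K] [NumberField K] : Countable K :=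
  (Module.finBasis ℚ K).equivFun.toEquiv.countable_iff.mpr inferInstance

theorem map_qfF {R S : Type*} [CommRing R] [CommRing S] (f : R →+* S) (c : Fin 3 → Fin 3 → R)
    (u : V3 R) : f (qf c u) = qf (fun i j => f (c i j)) (vmap f u) := by
  simp only [qf, vmap, map_sum, map_mul]

theorem map_bfF {R S : Type*} [CommRing R] [CommRing S] (f : R →+* S) (c : Fin 3 → Fin 3 → R)
    (u t : V3 R) : f (bf c u t) = bf (fun i j => f (c i j)) (vmap f u) (vmap f t) := by
  simp only [bf, vmap, map_sum, map_mul, map_add]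

/-- The first coefficient of the double covering does not vanish identically. -/
theorem exists_gm {K : Type u} [Field K] [CharZero K] {K' : Type} [Field K'] [CharZero K']
    (φ : K →+* K') {n : ℕ} (hn : 1 ≤ n) {τ : Fin n → Bool} {δ : Bool → MvPolynomial WI ℤ}
    (hδ : ∀ t, Nice t (δ t)) (c : CD τ K) (hw : ∀ i, evW (δ (τ i)) (c.wd 1 i) ≠ 0) :
    ∃ z : Fin (n + 1) → V3 K, (∀ r : Fin n, z r.castSucc 0 = 1) ∧
      gm (c.lin z) (c.con z) 0 0 ≠ 0 := by
  let i : Fin n := ⟨0, hn⟩
  have h1 : IsUnit (evW (δ (τ i)) ((c.wd 1 i).map φ)) := by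
    rw [evW_map]
    exact (Ne.isUnit (hw i)).map φ
  obtain ⟨u', -, hu'⟩ := WD.exists_G00 ((c.wd 1 i).map φ) (hδ _ K' _ h1)
  have h2 : (c.wd 1 i).swap.Gp (0, 0) ≠ 0 := by
    intro h
    apply hu'
    rw [← WD.eval_Gp ((c.wd 1 i).map φ).swap u' (0, 0), WD.swap_map, WD.Gp_map, h, map_zero, map_zero]
  have h3 : (X 0 * (c.wd 1 i).swap.Gp (0, 0) : MvPolynomial (Fin 3) K) ≠ 0 :=
    mul_ne_zero (X_ne_zero 0) h2
  obtain ⟨u, hu⟩ : ∃ u : Fin 3 → K, eval u (X 0 * (c.wd 1 i).swap.Gp (0, 0)) ≠ 0 := by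
    by_contra hcon
    push Not at hcon
    exact h3 (MvPolynomial.funext fun u => by rw [hcon u, map_zero])
  rw [map_mul, eval_X] at hu
  have hu0 : u 0 ≠ 0 := left_ne_zero_of_mul hu
  have hu1 := right_ne_zero_of_mul hu
  let w : V3 K := fun j => (u 0)⁻¹ * u j
  have hw1 : eval w ((c.wd 1 i).swap.Gp (0, 0)) ≠ 0 := by
    have h4 : w = (u 0)⁻¹ • u := rfl
    rw [h4, Pool.Agent.Helper47.NI.eval_smul_of_hom ((c.wd 1 i).swap.Gp_hom (0, 0))]
    exact mul_ne_zero (pow_ne_zero _ (inv_ne_zero hu0)) hu1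
  refine ⟨Function.update 1 i.castSucc w, ?_, ?_⟩
  · intro r
    by_cases hr : r = i
    · subst hr
      rw [Function.update_self]
      exact inv_mul_cancel₀ hu0
    · have : r.castSucc ≠ i.castSucc := fun h => hr (Fin.castSucc_injective n h)
      rw [Function.update_of_ne this]
      rfl
  · rw [c.G_eq _ i, Function.update_self]
    have h5 : c.wd (Function.update 1 i.castSucc w) i = c.wd 1 i :=
      c.wd_congr i fun r hr _ => Function.update_of_ne hr _ _
    rw [h5, ← WD.eval_Gp (c.wd 1 i).swap w (0, 0)]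
    exact hw1

end Pool.Agent.Helper2.KX
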