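import Pool.Agent.Helper2.KX.F1

/-!
# Potential density of complete intersections of two divisors in a product of planes: the end
-/

set_option linter.unusedSectionVars false

namespace Pool.Agent.Helper2.KX

open MvPolynomial

universe u

theorem crs_eq {R : Type*} [CommRing R] (l : V3 R) (s : R) (j : Fin 3) :
    crs l ![0, 1, s] j = crs l ![0, 1, 0] j + s * crs l ![0, 0, 1] j := by
  fin_cases j <;> simp [crs] <;> ring

theorem qf_crs {R : Type*} [CommRing R] (c : Fin 3 → Fin 3 → R) (l : V3 R) (s : R) :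
    qf c (crs l ![0, 1, s]) = qf c (crs l ![0, 1, 0]) +
      bf c (crs l ![0, 1, 0]) (crs l ![0, 0, 1]) * s + qf c (crs l ![0, 0, 1]) * s ^ 2 := by
  rw [show crs l ![0, 1, s] = _ from funext (crs_eq l s)]
  generalize crs l ![0, 1, 0] = u
  generalize crs l ![0, 0, 1] = t
  simp only [qf, bf, Fin.sum_univ_three]
  ring

theorem bf_crs {R : Type*} [CommRing R] (c : Fin 3 → Fin 3 → R) (l : V3 R) (s : R) :
    bf c (crs l ![0, 1, s]) (crs l ![0, 0, 1]) =
      bf c (crs l ![0, 1, 0]) (crs l ![0, 0, 1]) + 2 * qf c (crs l ![0, 0, 1]) * s := by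
  rw [show crs l ![0, 1, s] = _ from funext (crs_eq l s)]
  generalize crs l ![0, 1, 0] = u
  generalize crs l ![0, 0, 1] = t
  simp only [qf, bf, Fin.sum_univ_three]
  ring

/-- The root is algebraic over the field of the coefficients. -/
theorem isIntegral_root {K : Type u} [Field K] {K' : Type} [Field K'] [Algebra K K']
    (c : Fin 3 → Fin 3 → K) (l : V3 K) (s : K')
    (h : qf (fun i j => algebraMap K K' (c i j))
      (crs (vmap (algebraMap K K') l) ![0, 1, s]) = 0)
    (h' : bf (fun i j => algebraMap K K' (c i j))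
      (crs (vmap (algebraMap K K') l) ![0, 1, s]) (crs (vmap (algebraMap K K') l) ![0, 0, 1]) ≠ 0) :
    IsIntegral K s := by
  have e1 : ∀ a b d : K, vmap (algebraMap K K') (crs l ![a, b, d]) =
      crs (vmap (algebraMap K K') l) ![algebraMap K K' a, algebraMap K K' b, algebraMap K K' d] := by
    intro a b d
    rw [vmap_crs]
    congr 1
    funext j
    fin_cases j <;> rfl
  have e2 : vmap (algebraMap K K') (crs l ![0, 1, 0]) =
      crs (vmap (algebraMap K K') l) ![0, 1, 0] := by
    rw [e1, map_zero, map_one]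
  have e3 : vmap (algebraMap K K') (crs l ![0, 0, 1]) =
      crs (vmap (algebraMap K K') l) ![0, 0, 1] := by
    rw [e1, map_zero, map_one]
  rw [qf_crs, ← e2, ← e3, ← map_qfF, ← map_qfF, ← map_bfF] at h
  rw [bf_crs, ← e2, ← e3, ← map_qfF, ← map_bfF] at h'
  set A := qf c (crs l ![0, 0, 1])
  set B := bf c (crs l ![0, 1, 0]) (crs l ![0, 0, 1])
  set D := qf c (crs l ![0, 1, 0])
  have hf : (Polynomial.C A * Polynomial.X ^ 2 + Polynomial.C B * Polynomial.X +
      Polynomial.C D : Polynomial K) ≠ 0 := by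
    intro h0
    have c1 := congrArg (fun q => Polynomial.coeff q 1) h0
    have c2 := congrArg (fun q => Polynomial.coeff q 2) h0
    simp [Polynomial.coeff_C] at c1 c2
    apply h'
    rw [c1, c2]
    simp
  refine IsAlgebraic.isIntegral ⟨_, hf, ?_⟩
  simp only [map_add, map_mul, map_pow, Polynomial.aeval_C, Polynomial.aeval_X]
  linear_combination h

open AlgebraicGeometry CategoryTheory Pool.Agent.Helper15

theorem main {K : Type u} [Field K] [NumberField K] {n : ℕ} (hn : 1 ≤ n)
    {τ : Fin n → Bool} {δ : Bool → MvPolynomial WI ℤ} (hδ : ∀ t, Nice t (δ t)) (c : CD τ K) (hl : c.lin 1 0 ≠ 0)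
    (hA : qf (c.con 1) (crs (c.lin 1) ![0, 0, 1]) ≠ 0)
    (hD : (bf (c.con 1) (crs (c.lin 1) ![0, 1, 0]) (crs (c.lin 1) ![0, 0, 1])) ^ 2 -
      4 * qf (c.con 1) (crs (c.lin 1) ![0, 0, 1]) *
        qf (c.con 1) (crs (c.lin 1) ![0, 1, 0]) ≠ 0)
    (hw : ∀ i, evW (δ (τ i)) (c.wd 1 i) ≠ 0) :
    (∃ P : Ideal (MvPolynomial (Fin (n + 1) × Fin 2) K), P.IsPrime ∧ eqL c ∈ P ∧ eqQ c ∈ P ∧
      Dominant P) ∧
    ∃ L : Type u, ∃ (_ : Field L) (_ : Algebra K L), FiniteDimensional K L ∧
      ∀ P : Ideal (MvPolynomial (Fin (n + 1) × Fin 2) K), P.IsPrime → eqL c ∈ P → eqQ c ∈ P →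
        Dominant P → ∀ g : MvPolynomial (Fin (n + 1) × Fin 2) K ⧸ P,
          (∀ φ : (MvPolynomial (Fin (n + 1) × Fin 2) K ⧸ P) →ₐ[K] L, φ g = 0) → g = 0 := by
  obtain ⟨p, hp, φ, c', s₀, hp2, hc, hb⟩ := exists_base δ c hl hA hD hw
  have hgm := exists_gm φ hn hδ c hw
  refine ⟨exists_prime c hgm, ?_⟩
  have iδ : ∀ t, Fact (Nice t (δ t)) := fun t => ⟨hδ t⟩
  have icK : Countable K := countable_of_numberField K
  have icK0 : Countable φ.fieldRange := (Set.countable_range φ).to_subtype
  let iA : Algebra K ℚ_[p] := φ.toAlgebra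
  have halg : algebraMap K ℚ_[p] = φ := rfl
  have hca : ∀ α, (c'.a α : ℚ_[p]) ∈ φ.fieldRange := fun α =>
    ⟨c.a α, (congrFun (congrArg CD.a hc) α).symm⟩
  have hcb : ∀ β, (c'.b β : ℚ_[p]) ∈ φ.fieldRange := fun β =>
    ⟨c.b β, (congrFun (congrArg CD.b hc) β).symm⟩
  obtain ⟨z₀, s, h0, h1, h2, h3, h4, hcore⟩ := core_padic hp2 c' hb φ.fieldRange hca hcb
  -- `s` is algebraic
  have hs : IsIntegral K (s : ℚ_[p]) := by
    choose m hm using h2
    let zK : Fin (n + 1) → V3 K := fun r j => if hr : r = Fin.last n then 0 else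
      ((m (r.castPred hr) j : ℤ) : K)
    have e1 : ∀ r : Fin n, (fun r => vmap φ (zK r)) r.castSucc =
        (fun r => vmap PadicInt.Coe.ringHom (z₀ r)) r.castSucc := by
      intro r
      funext j
      have e2 : zK r.castSucc j = ((m r j : ℤ) : K) := by
        simp [zK, CD.castSucc_ne_last r]
      show φ (zK r.castSucc j) = PadicInt.Coe.ringHom (z₀ r.castSucc j)
      rw [e2, hm, map_intCast, map_intCast]
    have e3 : vmap φ (c.lin zK) = vmap PadicInt.Coe.ringHom (c'.lin z₀) := by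
      rw [← CD.lin_map, ← CD.lin_map, hc]
      exact CD.lin_congr _ e1
    have e4 : (fun k l => φ (c.con zK k l)) =
        fun k l => (PadicInt.Coe.ringHom (c'.con z₀ k l) : ℚ_[p]) := by
      rw [← CD.con_map, ← CD.con_map, hc]
      exact CD.con_congr _ e1
    have e5 : vmap PadicInt.Coe.ringHom (![0, 1, s] : V3 ℤ_[p]) = ![0, 1, (s : ℚ_[p])] := by
      funext j
      fin_cases j <;> rfl
    have e5' : vmap PadicInt.Coe.ringHom (![0, 0, 1] : V3 ℤ_[p]) = ![0, 0, 1] := by
      funext j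
      fin_cases j <;> rfl
    refine isIntegral_root (c.con zK) (c.lin zK) (s : ℚ_[p]) ?_ ?_
    · rw [halg, e3, e4]
      have e6 := congrArg (PadicInt.Coe.ringHom : ℤ_[p] →+* ℚ_[p]) h3
      rw [map_qfF, vmap_crs, e5, map_zero] at e6
      exact e6
    · rw [halg, e3, e4]
      have e6 : (PadicInt.Coe.ringHom : ℤ_[p] →+* ℚ_[p]) (bf (c'.con z₀)
          (crs (c'.lin z₀) ![0, 1, s]) (crs (c'.lin z₀) ![0, 0, 1])) ≠ 0 :=
        (h4.map (PadicInt.Coe.ringHom : ℤ_[p] →+* ℚ_[p])).ne_zero
      rw [map_bfF, vmap_crs, vmap_crs, e5, e5'] at e6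
      exact e6
  let L := IntermediateField.adjoin K {(s : ℚ_[p])}
  have iL : FiniteDimensional K L := IntermediateField.adjoin.finiteDimensional hs
  let ψ : L →ₐ[K] AlgebraicClosure K := IsAlgClosed.lift
  let e : L ≃ₐ[K] ψ.fieldRange := AlgEquiv.ofInjectiveField ψ
  refine ⟨ψ.fieldRange, inferInstance, inferInstance, e.toLinearEquiv.finiteDimensional, ?_⟩
  intro P hP hLP hQP hdom g hg
  have hKL : φ.fieldRange ≤ L.toSubfield := by
    rintro _ ⟨x, rfl⟩
    exact L.algebraMap_mem x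
  have hsL : (s : ℚ_[p]) ∈ L.toSubfield :=
    IntermediateField.subset_adjoin K _ (Set.mem_singleton _)
  refine dense_of_points (L := ψ.fieldRange) c ?_ ?_ P hLP hQP hdom g hg
  · obtain ⟨z, hz, hz'⟩ := hgm
    exact ⟨z, hz, 0, 0, hz'⟩
  · intro Φ hΦ
    have hΦ' : map φ Φ ≠ 0 := by
      rw [← map_zero (map (σ := Fin n × Fin 2) φ)]
      exact fun h => hΦ (map_injective φ φ.injective h)
    obtain ⟨z, hzL, hz, hz0, hzl, hzΦ⟩ := hcore L.toSubfield hKL hsL (map φ Φ) hΦ'
    let zL : Fin (n + 1) → V3 L := fun r j => ⟨z r j, hzL r j⟩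
    have hval : (fun r => vmap (algebraMap L ℚ_[p]) (zL r)) = z := rfl
    have hzL' : (c.map (algebraMap K L)).IsPt zL := by
      refine CD.isPt_of_injective (f := algebraMap L ℚ_[p]) (algebraMap L ℚ_[p]).injective ?_
      rw [hval, CD.map_map, ← IsScalarTower.algebraMap_eq, halg, ← hc]
      exact hz
    refine ⟨fun r => vmap (e : L →+* ψ.fieldRange) (zL r), ?_, ?_, ?_, ?_⟩
    · have h5 := hzL'.map (e : L →+* ψ.fieldRange)
      have h6 : (c.map (algebraMap K L)).map (e : L →+* ψ.fieldRange) =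
          c.map (algebraMap K ψ.fieldRange) := by
        rw [CD.map_map]
        congr 1
        exact (e : L →ₐ[K] ψ.fieldRange).comp_algebraMap
      rw [h6] at h5
      exact h5
    · intro r
      show e (zL r.castSucc 0) = 1
      have : zL r.castSucc 0 = 1 := Subtype.ext (hz0 r)
      rw [this, map_one]
    · intro h5
      apply hzl
      funext j
      have h6 : e (zL (Fin.last n) j) = 0 := congrFun h5 j
      have h7 : zL (Fin.last n) j = 0 := by simpa using h6
      exact congrArg Subtype.val h7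
    · intro h5
      apply hzΦ
      have h6 : aeval (fun x : Fin n × Fin 2 => zL x.1.castSucc x.2.succ) Φ = 0 := by
        apply e.injective
        rw [map_zero]
        have h7 := MvPolynomial.comp_aeval_apply (φ := (e : L →ₐ[K] ψ.fieldRange))
          (fun x : Fin n × Fin 2 => zL x.1.castSucc x.2.succ) Φ
        exact h7.trans h5
      have h8 : aeval (fun x : Fin n × Fin 2 => z x.1.castSucc x.2.succ) Φ = 0 := by
        have h9 := MvPolynomial.comp_aeval_apply (φ := L.val)
          (fun x : Fin n × Fin 2 => zL x.1.castSucc x.2.succ) Φ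
        rw [h6, map_zero] at h9
        exact h9.symm
      rw [MvPolynomial.eval_map]
      rw [aeval_def, halg] at h8
      exact h8

end Pool.Agent.Helper2.KX
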