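import Pool.Agent.Helper2.KX.D2

/-!
# Coefficients of forms, indexed by monomials
-/

namespace Pool.Agent.Helper2.KX

open MvPolynomial

universe u

/-- The degree (`2` for `true`, `1` for `false`). -/
def dgn (b : Bool) : ℕ := match b with
  | true => 2
  | false => 1

/-- The monomial of degree `dgn b` in three variables which belongs to a pair. -/
def sy (b : Bool) (p : Fin 3 × Fin 3) : Sym (Fin 3) (dgn b) :=
  match b with
  | true => p.1 ::ₛ p.2 ::ₛ Sym.nil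
  | false => p.1 ::ₛ Sym.nil

/-- The pairs used to index monomials. -/
def vd (b : Bool) (p : Fin 3 × Fin 3) : Prop :=
  match b with
  | true => p.1 ≤ p.2
  | false => p.2 = 0

instance (b : Bool) (p : Fin 3 × Fin 3) : Decidable (vd b p) :=
  match b with
  | true => inferInstanceAs (Decidable (p.1 ≤ p.2))
  | false => inferInstanceAs (Decidable (p.2 = 0))

theorem exists_rep (b : Bool) : ∀ s : Sym (Fin 3) (dgn b), ∃ p, vd b p ∧ sy b p = s := by
  cases b
  · show ∀ s : Sym (Fin 3) 1, ∃ p : Fin 3 × Fin 3, p.2 = 0 ∧ (p.1 ::ₛ Sym.nil : Sym (Fin 3) 1) = s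
    decide
  · show ∀ s : Sym (Fin 3) 2, ∃ p : Fin 3 × Fin 3, p.1 ≤ p.2 ∧
      (p.1 ::ₛ p.2 ::ₛ Sym.nil : Sym (Fin 3) 2) = s
    decide

theorem sy_inj (b : Bool) : ∀ p q, vd b p → vd b q → sy b p = sy b q → p = q := by
  cases b
  · show ∀ p q : Fin 3 × Fin 3, p.2 = 0 → q.2 = 0 →
      (p.1 ::ₛ Sym.nil : Sym (Fin 3) 1) = q.1 ::ₛ Sym.nil → p = q
    decide
  · show ∀ p q : Fin 3 × Fin 3, p.1 ≤ p.2 → q.1 ≤ q.2 →
      (p.1 ::ₛ p.2 ::ₛ Sym.nil : Sym (Fin 3) 2) = q.1 ::ₛ q.2 ::ₛ Sym.nil → p = q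
    decide

/-- The pair of a monomial. -/
noncomputable def rep (b : Bool) (s : Sym (Fin 3) (dgn b)) : Fin 3 × Fin 3 := (exists_rep b s).choose

theorem vd_rep (b : Bool) (s : Sym (Fin 3) (dgn b)) : vd b (rep b s) :=
  (exists_rep b s).choose_spec.1

theorem sy_rep (b : Bool) (s : Sym (Fin 3) (dgn b)) : sy b (rep b s) = s :=
  (exists_rep b s).choose_spec.2

theorem rep_sy (b : Bool) (p : Fin 3 × Fin 3) (hp : vd b p) : rep b (sy b p) = p :=
  sy_inj b _ _ (vd_rep _ _) hp (sy_rep _ _)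

/-- The value of a monomial. -/
def mval {R : Type*} [CommRing R] {m : ℕ} (x : V3 R) (s : Sym (Fin 3) m) : R :=
  ((s : Multiset (Fin 3)).map x).prod

theorem mon_eq {R : Type*} [CommRing R] (b : Bool) (x : V3 R) (p : Fin 3 × Fin 3) (hp : vd b p) :
    mon b x p = mval x (sy b p) := by
  cases b
  · have h : p.2 = 0 := hp
    show _ = (Multiset.map x (p.1 ::ₘ 0)).prod
    simp [mon, h]
  · show _ = (Multiset.map x (p.1 ::ₘ p.2 ::ₘ 0)).prod
    simp [mon]

theorem mon_eq_zero {R : Type*} [CommRing R] (x : V3 R) (p : Fin 3 × Fin 3) (hp : ¬ vd false p) :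
    mon false x p = 0 := by
  have h : p.2 ≠ 0 := hp
  simp [mon, h]

section tens

variable {R S : Type*} [CommRing R] [CommRing S] {N : ℕ} (e : Fin N → Bool)

/-- The coefficients indexed by pairs. -/
def tens (c : (∀ r, Sym (Fin 3) (dgn (e r))) → R) (α : Fin N → Fin 3 × Fin 3) : R :=
  if ∀ r, vd (e r) (α r) then c (fun r => sy (e r) (α r)) else 0

/-- The coefficients indexed by monomials. -/
noncomputable def untens (c : (Fin N → Fin 3 × Fin 3) → R) (s : ∀ r, Sym (Fin 3) (dgn (e r))) : R :=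
  c (fun r => rep (e r) (s r))

theorem tens_untens (c : (Fin N → Fin 3 × Fin 3) → R)
    (hc : ∀ α, c α ≠ 0 → ∀ r, vd (e r) (α r)) : tens e (untens e c) = c := by
  funext α
  unfold tens untens
  split_ifs with h
  · congr 1
    funext r
    exact rep_sy _ _ (h r)
  · by_contra h1
    exact h (hc α (Ne.symm h1))

theorem map_tens (f : R →+* S) (c : (∀ r, Sym (Fin 3) (dgn (e r))) → R) :
    (fun α => f (tens e c α)) = tens e (fun s => f (c s)) := by
  funext α
  unfold tens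
  split_ifs
  · rfl
  · exact map_zero f

theorem mev_tens (c : (∀ r, Sym (Fin 3) (dgn (e r))) → R) (x : Fin N → V3 R) :
    mev (tens e c) (fun r => mon (e r) (x r)) = ∑ s : ∀ r, Sym (Fin 3) (dgn (e r)),
      c s * ∏ r, mval (x r) (s r) := by
  classical
  unfold mev tens
  simp only [ite_mul, zero_mul]
  rw [← Finset.sum_filter]
  refine Finset.sum_bij' (fun α _ r => sy (e r) (α r)) (fun s _ r => rep (e r) (s r))
    (fun _ _ => Finset.mem_univ _) (fun s _ => ?_) (fun α hα => ?_) (fun s _ => ?_)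
    (fun α hα => ?_)
  · rw [Finset.mem_filter]
    exact ⟨Finset.mem_univ _, fun r => vd_rep _ _⟩
  · rw [Finset.mem_filter] at hα
    funext r
    exact rep_sy _ _ (hα.2 r)
  · funext r
    exact sy_rep _ _
  · rw [Finset.mem_filter] at hα
    congr 1
    exact Finset.prod_congr rfl fun r _ => mon_eq _ _ _ (hα.2 r)

end tens

section CD

variable {R S : Type*} [CommRing R] [CommRing S] {n : ℕ} (τ : Fin n → Bool)

/-- The index set of the coefficients of the first form. -/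
abbrev MA := ∀ r, Sym (Fin 3) (dgn (dg τ r))

/-- The index set of the coefficients of the second form. -/
abbrev MB := ∀ r, Sym (Fin 3) (dgn (!(dg τ r)))

/-- The complete intersection given by coefficients indexed by monomials. -/
def toCD (c : MA τ ⊕ MB τ → R) : CD τ R :=
  ⟨tens (dg τ) (fun s => c (Sum.inl s)), tens (fun r => !(dg τ r)) (fun s => c (Sum.inr s))⟩

theorem toCD_map (f : R →+* S) (c : MA τ ⊕ MB τ → R) :
    (toCD τ c).map f = toCD τ (fun x => f (c x)) :=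
  CD.ext (map_tens (dg τ) f fun s => c (Sum.inl s))
    (map_tens (fun r => !(dg τ r)) f fun s => c (Sum.inr s))

/-- The condition that only the pairs used to index monomials occur. -/
def Vd (c : CD τ R) : Prop := (∀ α, c.a α ≠ 0 → ∀ r, vd (dg τ r) (α r)) ∧
  ∀ α, c.b α ≠ 0 → ∀ r, vd (!(dg τ r)) (α r)

theorem exists_toCD {c : CD τ R} (hc : Vd τ c) : ∃ c', toCD τ c' = c :=
  ⟨Sum.elim (untens (dg τ) c.a) (untens (fun r => !(dg τ r)) c.b),
    CD.ext (tens_untens _ _ hc.1) (tens_untens _ _ hc.2)⟩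

end CD

section ex

variable {n : ℕ} (τ : Fin n → Bool)

theorem vd_zero (b : Bool) : vd b (0, 0) := by cases b <;> simp [vd]

theorem vd_A1 (e : Fin (n + 1) → Bool) (p : Fin 3 × Fin 3) (h : vd (e (Fin.last n)) p)
    (r : Fin (n + 1)) : vd (e r) (A1 p r) := by
  unfold A1
  by_cases hr : r = Fin.last n
  · subst hr; rw [Function.update_self]; exact h
  · rw [Function.update_of_ne hr]; exact vd_zero _

theorem vd_A2 (e : Fin (n + 1) → Bool) (i : Fin n) (p : (Fin 3 × Fin 3) × (Fin 3 × Fin 3))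
    (h : vd (e i.castSucc) p.1) (h' : vd (e (Fin.last n)) p.2)
    (r : Fin (n + 1)) : vd (e r) (A2 i p r) := by
  unfold A2
  by_cases hr : r = Fin.last n
  · subst hr; rw [Function.update_self]; exact h'
  · rw [Function.update_of_ne hr]
    by_cases hr' : r = i.castSucc
    · subst hr'; rw [Function.update_self]; exact h
    · rw [Function.update_of_ne hr']; exact vd_zero _

theorem exists_of_sum_ne {J : Type*} [Fintype J] {P : J → Prop} [DecidablePred P] {x : J → ℤ}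
    (h : (∑ j, if P j then x j else 0) ≠ 0) : ∃ j, P j ∧ x j ≠ 0 := by
  obtain ⟨j, -, hj⟩ := Finset.exists_ne_zero_of_sum_ne_zero h
  refine ⟨j, ?_⟩
  by_cases hP : P j
  · rw [if_pos hP] at hj; exact ⟨hP, hj⟩
  · rw [if_neg hP] at hj; exact absurd rfl hj

theorem Vd_ex1 : Vd τ (ex1 τ) := by
  constructor
  · intro α hα r
    have hα' : (∑ j : Fin 3 × Fin 3, if α = A1 j then (if j = (0, 0) then (1 : ℤ) else 0) else 0) ≠
      0 := hα
    obtain ⟨j, rfl, hj⟩ := exists_of_sum_ne hα'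
    refine vd_A1 (dg τ) j ?_ r
    by_cases h : j = (0, 0)
    · rw [h]; exact vd_zero _
    · rw [if_neg h] at hj; exact absurd rfl hj
  · intro α hα r
    have hα' : (∑ j : Fin 3 × Fin 3, if α = A1 j then (if j.1 = j.2 then (1 : ℤ) else 0) else 0) ≠
      0 := hα
    obtain ⟨j, rfl, hj⟩ := exists_of_sum_ne hα'
    refine vd_A1 (fun r => !(dg τ r)) j ?_ r
    by_cases h : j.1 = j.2
    · show vd (!(dg τ (Fin.last n))) j
      rw [dg_last]
      exact h.le
    · rw [if_neg h] at hj; exact absurd rfl hj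

theorem vd_M (t : Bool) (p r : Fin 3 × Fin 3) (h : (W0 t).M p r ≠ 0) :
    vd (!t) p ∧ vd false r := by
  revert p r
  cases t
  · intro p r h
    by_cases h1 : p.1 = p.2 ∧ r.1 = p.1 ∧ r.2 = 0
    · exact ⟨h1.1.le, h1.2.2⟩
    · exact absurd (if_neg h1) h
  · intro p r h
    by_cases h1 : p.2 = 0 ∧ r.2 = 0 ∧ p.1 = r.1
    · exact ⟨h1.1, h1.2.1⟩
    · exact absurd (if_neg h1) h

theorem vd_q (t : Bool) (p r : Fin 3 × Fin 3) (h : (W0 t).q p r ≠ 0) :
    vd t p ∧ vd true r := by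
  revert p r
  cases t
  · intro p r h
    by_cases h1 : p.2 = 0 ∧ r.1 = p.1 + 1 ∧ r.2 = p.1 + 1
    · exact ⟨h1.1, (h1.2.1.trans h1.2.2.symm).le⟩
    · exact absurd (if_neg h1) h
  · intro p r h
    by_cases h1 : p.1 = p.2 ∧ r.1 = p.1 + 1 ∧ r.2 = p.1 + 1
    · exact ⟨h1.1.le, (h1.2.1.trans h1.2.2.symm).le⟩
    · exact absurd (if_neg h1) h

theorem Vd_ex2 (i : Fin n) : Vd τ (ex2 τ i) := by
  constructor
  · intro α hα r
    have hα' : (∑ j : (Fin 3 × Fin 3) × (Fin 3 × Fin 3),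
      if α = A2 i j then (W0 (τ i)).M j.1 j.2 else 0) ≠ 0 := hα
    obtain ⟨j, rfl, hj⟩ := exists_of_sum_ne hα'
    have h := vd_M _ _ _ hj
    refine vd_A2 (dg τ) i j ?_ ?_ r
    · rw [dg_castSucc]; exact h.1
    · rw [dg_last]; exact h.2
  · intro α hα r
    have hα' : (∑ j : (Fin 3 × Fin 3) × (Fin 3 × Fin 3),
      if α = A2 i j then (W0 (τ i)).q j.1 j.2 else 0) ≠ 0 := hα
    obtain ⟨j, rfl, hj⟩ := exists_of_sum_ne hα'
    have h := vd_q _ _ _ hj
    refine vd_A2 (fun r => !(dg τ r)) i j ?_ ?_ r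
    · show vd (!(dg τ i.castSucc)) j.1
      rw [dg_castSucc, Bool.not_not]; exact h.1
    · show vd (!(dg τ (Fin.last n))) j.2
      rw [dg_last]; exact h.2

end ex

/-- The universal complete intersection. -/
noncomputable def uniS {n : ℕ} (τ : Fin n → Bool) : CD τ (MvPolynomial (MA τ ⊕ MB τ) ℤ) := toCD τ X

theorem uniS_map {S : Type*} [CommRing S] {n : ℕ} (τ : Fin n → Bool) (c : MA τ ⊕ MB τ → S) :
    (uniS τ).map (aeval c : MvPolynomial (MA τ ⊕ MB τ) ℤ →ₐ[ℤ] S).toRingHom = toCD τ c := by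
  unfold uniS
  rw [toCD_map]
  congr 1
  funext x
  exact aeval_X _ _

theorem dlo_uniS_ne {n : ℕ} (τ : Fin n → Bool) : dlo (uniS τ) ≠ 0 := by
  intro h
  obtain ⟨c, hc⟩ := exists_toCD τ (Vd_ex1 τ)
  have h1 := dlo_map (aeval c : MvPolynomial (MA τ ⊕ MB τ) ℤ →ₐ[ℤ] ℤ).toRingHom (uniS τ)
  rw [uniS_map, h, map_zero, hc] at h1
  unfold dlo at h1
  rw [ex1_lin, ex1_con] at h1
  revert h1
  decide

theorem dlw_uniS_ne {n : ℕ} (τ : Fin n → Bool) (δ : MvPolynomial WI ℤ) (i : Fin n)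
    (hδ : evW δ (W0 (τ i)) ≠ 0) : evW δ ((uniS τ).wd 1 i) ≠ 0 := by
  intro h
  obtain ⟨c, hc⟩ := exists_toCD τ (Vd_ex2 τ i)
  have h1 := wd_map_one (aeval c : MvPolynomial (MA τ ⊕ MB τ) ℤ →ₐ[ℤ] ℤ).toRingHom (uniS τ) i
  rw [uniS_map, hc, ex2_wd] at h1
  rw [h1, evW_map, h, map_zero] at hδ
  exact hδ rfl

/-- As `exists_Delta`, for coefficients indexed by monomials. -/
theorem exists_DeltaS {n : ℕ} (τ : Fin n → Bool) (δ : Bool → MvPolynomial WI ℤ)
    (hδ : ∀ t, evW (δ t) (W0 t) ≠ 0) :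
    ∃ Δ : MvPolynomial (MA τ ⊕ MB τ) ℤ, Δ ≠ 0 ∧ ∀ (K : Type u) [Field K] (c : MA τ ⊕ MB τ → K),
      aeval c Δ ≠ 0 → (toCD τ c).lin 1 0 ≠ 0 ∧
        qf ((toCD τ c).con 1) (crs ((toCD τ c).lin 1) ![0, 0, 1]) ≠ 0 ∧
        (bf ((toCD τ c).con 1) (crs ((toCD τ c).lin 1) ![0, 1, 0])
          (crs ((toCD τ c).lin 1) ![0, 0, 1])) ^ 2 -
          4 * qf ((toCD τ c).con 1) (crs ((toCD τ c).lin 1) ![0, 0, 1]) *
            qf ((toCD τ c).con 1) (crs ((toCD τ c).lin 1) ![0, 1, 0]) ≠ 0 ∧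
        ∀ i, evW (δ (τ i)) ((toCD τ c).wd 1 i) ≠ 0 := by
  have key : ∀ {S : Type _} [CommRing S] (c : MA τ ⊕ MB τ → S),
      aeval c (dl δ (uniS τ)) = dl δ (toCD τ c) := by
    intro S _ c
    have h := dl_map (aeval c : MvPolynomial (MA τ ⊕ MB τ) ℤ →ₐ[ℤ] S).toRingHom δ (uniS τ)
    rw [uniS_map] at h
    exact h.symm
  refine ⟨dl δ (uniS τ), ?_, ?_⟩
  · exact mul_ne_zero (dlo_uniS_ne τ)
      (Finset.prod_ne_zero_iff.mpr fun i _ => dlw_uniS_ne τ _ i (hδ _))
  · intro K _ c hc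
    rw [key c] at hc
    unfold dl dlo at hc
    have h1 := left_ne_zero_of_mul hc
    have h2 := left_ne_zero_of_mul h1
    have h3 := right_ne_zero_of_mul h1
    have h4 := left_ne_zero_of_mul h3
    have h5 := right_ne_zero_of_mul h3
    have h6 := right_ne_zero_of_mul hc
    exact ⟨h2, h4, h5, fun i => Finset.prod_ne_zero_iff.mp h6 i (Finset.mem_univ i)⟩

end Pool.Agent.Helper2.KX
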