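import Pool.Agent.Helper2.KX.S1
import Pool.Agent.Helper2.KX.F2

/-!
# Potential density of complete intersections of two ample divisors in a product of planes
-/

namespace Pool.Agent.Helper2.KX

open AlgebraicGeometry CategoryTheory Pool.Agent.Helper15 MvPolynomial

universe u

/-- The form of multidegree `d` with the coefficients `a`, in the affine chart. -/
noncomputable def formS {K : Type u} [Field K] {n : ℕ} (d : Fin (n + 1) → ℕ)
    (a : (∀ r, Sym (Fin 3) (d r)) → K) : MvPolynomial (Fin (n + 1) × Fin 2) K :=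
  ∑ s : ∀ r, Sym (Fin 3) (d r), C (a s) * ∏ r, ((s r : Multiset (Fin 3)).map (aff K n r)).prod

theorem eqL_toCD {K : Type u} [Field K] {n : ℕ} (τ : Fin n → Bool) (c : MA τ ⊕ MB τ → K) :
    eqL (toCD τ c) = formS (fun r => dgn (dg τ r)) (fun s => c (Sum.inl s)) := by
  unfold eqL
  rw [toCD_map]
  exact mev_tens (dg τ) _ _

theorem eqQ_toCD {K : Type u} [Field K] {n : ℕ} (τ : Fin n → Bool) (c : MA τ ⊕ MB τ → K) :
    eqQ (toCD τ c) = formS (fun r => dgn (!(dg τ r))) (fun s => c (Sum.inr s)) := by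
  unfold eqQ
  rw [toCD_map]
  exact mev_tens (fun r => !(dg τ r)) _ _

/-- The conclusion. -/
def Concl {K : Type u} [Field K] {n : ℕ} (F G : MvPolynomial (Fin (n + 1) × Fin 2) K) : Prop :=
  (∃ P : Ideal (MvPolynomial (Fin (n + 1) × Fin 2) K), P.IsPrime ∧ F ∈ P ∧ G ∈ P ∧
    Dominant P) ∧
  ∀ P : Ideal (MvPolynomial (Fin (n + 1) × Fin 2) K), P.IsPrime → F ∈ P → G ∈ P →
    Dominant P →
    ∀ (X : Scheme.{u}) (s : X ⟶ Spec (CommRingCat.of K)) [IrreducibleSpace X],
      BirationalOver K X (Spec (CommRingCat.of (MvPolynomial (Fin (n + 1) × Fin 2) K ⧸ P))) s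
        (Spec.map (CommRingCat.ofHom
          (algebraMap K (MvPolynomial (Fin (n + 1) × Fin 2) K ⧸ P)))) →
      PotentiallyDense K X s

theorem Concl.symm {K : Type u} [Field K] {n : ℕ} {F G : MvPolynomial (Fin (n + 1) × Fin 2) K}
    (h : Concl F G) : Concl G F := by
  obtain ⟨⟨P, hP, h1, h2, h3⟩, h4⟩ := h
  exact ⟨⟨P, hP, h2, h1, h3⟩, fun P hP hG hF => h4 P hP hF hG⟩

theorem main_tau (n : ℕ) (hn : 1 ≤ n) (τ : Fin n → Bool) :
    ∃ Δ : MvPolynomial (MA τ ⊕ MB τ) ℤ, Δ ≠ 0 ∧ ∀ (K : Type u) [Field K] [NumberField K]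
      (c : MA τ ⊕ MB τ → K), aeval c Δ ≠ 0 →
      Concl (formS (fun r => dgn (dg τ r)) fun s => c (Sum.inl s))
        (formS (fun r => dgn (!(dg τ r))) fun s => c (Sum.inr s)) := by
  choose δ hδ hδ0 using exists_delta
  obtain ⟨Δ, hΔ, hΔK⟩ := exists_DeltaS τ δ hδ0
  refine ⟨Δ, hΔ, fun K _ _ c hc => ?_⟩
  obtain ⟨hl, hA, hD, hw⟩ := hΔK K c hc
  obtain ⟨h1, L, iL, aL, hfin, h2⟩ := main hn hδ (toCD τ c) hl hA hD hw
  rw [← eqL_toCD, ← eqQ_toCD]
  refine ⟨h1, fun P hP hL hQ hdom X s _ hX => ?_⟩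
  refine PotentiallyDense.of_birational K X _ s _ hX ?_
  exact ⟨L, iL, aL, hfin, dense_ratPts_spec K L _ (h2 P hP hL hQ hdom)⟩

theorem main_one (n : ℕ) (hn : 1 ≤ n) (d d' : Fin (n + 1) → ℕ) (hd : ∀ r, 0 < d r)
    (hd' : ∀ r, 0 < d' r) (h : ∀ r, d r + d' r = 3) (hl : d (Fin.last n) = 1) :
    ∃ Δ : MvPolynomial ((∀ r, Sym (Fin 3) (d r)) ⊕ (∀ r, Sym (Fin 3) (d' r))) ℤ, Δ ≠ 0 ∧
      ∀ (K : Type u) [Field K] [NumberField K] (a : (∀ r, Sym (Fin 3) (d r)) → K)
        (b : (∀ r, Sym (Fin 3) (d' r)) → K), aeval (Sum.elim a b) Δ ≠ 0 →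
        Concl (formS d a) (formS d' b) := by
  obtain ⟨τ, rfl, rfl⟩ : ∃ τ : Fin n → Bool, d = (fun r => dgn (dg τ r)) ∧
      d' = fun r => dgn (!(dg τ r)) := by
    let τ : Fin n → Bool := fun i => d i.castSucc = 1
    have e1 : ∀ r, d r = dgn (dg τ r) := by
      intro r
      induction r using Fin.lastCases with
      | last => rw [dg_last, hl]; rfl
      | cast i =>
        rw [dg_castSucc]
        by_cases hi : d i.castSucc = 1
        · have : τ i = true := by simp [τ, hi]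
          rw [this, hi]; rfl
        · have : τ i = false := by simp [τ, hi]
          have h1 := hd i.castSucc
          have h2 := hd' i.castSucc
          have h3 := h i.castSucc
          have h4 : d i.castSucc = 2 := by omega
          rw [this, h4]; rfl
    have e2 : ∀ r, d' r = dgn (!(dg τ r)) := by
      intro r
      have h1 := e1 r
      have h3 := h r
      revert h1
      cases dg τ r
      · intro h1
        have h4 : d r = 1 := h1
        show d' r = 2
        omega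
      · intro h1
        have h4 : d r = 2 := h1
        show d' r = 1
        omega
    exact ⟨τ, funext e1, funext e2⟩
  obtain ⟨Δ, hΔ, hK⟩ := main_tau.{u} n hn τ
  refine ⟨Δ, hΔ, fun K _ _ a b hab => ?_⟩
  exact hK K (Sum.elim a b) hab

theorem main_all (n : ℕ) (hn : 1 ≤ n) (d d' : Fin (n + 1) → ℕ) (hd : ∀ r, 0 < d r)
    (hd' : ∀ r, 0 < d' r) (h : ∀ r, d r + d' r = 3) :
    ∃ Δ : MvPolynomial ((∀ r, Sym (Fin 3) (d r)) ⊕ (∀ r, Sym (Fin 3) (d' r))) ℤ, Δ ≠ 0 ∧
      ∀ (K : Type u) [Field K] [NumberField K] (a : (∀ r, Sym (Fin 3) (d r)) → K)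
        (b : (∀ r, Sym (Fin 3) (d' r)) → K), aeval (Sum.elim a b) Δ ≠ 0 →
        Concl (formS d a) (formS d' b) := by
  by_cases hl : d (Fin.last n) = 1
  · exact main_one n hn d d' hd hd' h hl
  · have h1 := hd (Fin.last n)
    have h2 := hd' (Fin.last n)
    have h3 := h (Fin.last n)
    obtain ⟨Δ, hΔ, hK⟩ := main_one.{u} n hn d' d hd' hd (fun r => by rw [add_comm]; exact h r)
      (by omega)
    refine ⟨rename (Equiv.sumComm _ _) Δ, fun h0 => hΔ ?_, fun K _ _ a b hab => ?_⟩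
    · exact rename_injective _ (Equiv.sumComm _ _).injective (h0.trans (map_zero _).symm)
    · refine (hK K b a ?_).symm
      rw [aeval_rename] at hab
      have e : (Sum.elim a b) ∘ (Equiv.sumComm (∀ r, Sym (Fin 3) (d' r))
          (∀ r, Sym (Fin 3) (d r))) = Sum.elim b a := by
        funext x
        rcases x with x | x <;> rfl
      rw [e] at hab
      exact hab

end Pool.Agent.Helper2.KX
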