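import Pool.Agent.Helper2.KX.Defs

/-!
# The second point of a line and a conic
-/

namespace Pool.Agent.Helper2.KX

section Vec

variable {R S : Type*} [CommRing R] [CommRing S]

theorem dot_comm (u v : V3 R) : dot u v = dot v u := by
  simp only [dot, Fin.sum_univ_three]; ring

theorem IsConj.symm {g : Fin 3 → Fin 3 → R} {u u' : V3 R} (h : IsConj g u u') : IsConj g u' u :=
  fun i j => by rw [← h i j]; ring

theorem conj_unique [Two R] {g : Fin 3 → Fin 3 → R} {u u' u'' : V3 R} (hu : Uni u)
    (h1 : IsConj g u u') (h2 : IsConj g u u'') : u' = u'' := by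
  obtain ⟨w, hw⟩ := hu
  have hd : ∀ i j, u i * (u' j - u'' j) + u j * (u' i - u'' i) = 0 := fun i j => by
    linear_combination h1 i j - h2 i j
  set d : V3 R := fun i => u' i - u'' i with hdd
  set c : R := dot w d with hc
  have h3 : ∀ j, d j = - (u j * c) := by
    intro j
    have e := hd
    simp only [dot, Fin.sum_univ_three] at hw hc
    rw [hc]
    linear_combination (w 0) * e 0 j + (w 1) * e 1 j + (w 2) * e 2 j - d j * hw
  have h4 : 2 * c = 0 := by
    have e0 := h3 0
    have e1 := h3 1
    have e2 := h3 2
    simp only [dot, Fin.sum_univ_three] at hw hc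
    linear_combination hc + w 0 * e0 + w 1 * e1 + w 2 * e2 - c * hw
  have h5 : c = 0 := by
    obtain ⟨a, ha⟩ := (Two.unit (R := R))
    have : (a : R) * c = 0 := by rw [ha]; exact h4
    exact (Units.mul_right_eq_zero a).mp this
  funext j
  have h6 := h3 j
  rw [h5, mul_zero, neg_zero] at h6
  exact sub_eq_zero.mp h6

theorem Uni.map (f : R →+* S) {u : V3 R} (h : Uni u) : Uni (vmap f u) := by
  obtain ⟨w, hw⟩ := h
  refine ⟨vmap f w, ?_⟩
  simp only [dot, vmap] at hw ⊢
  rw [← map_one f, ← hw, map_sum]
  exact Finset.sum_congr rfl fun i _ => (map_mul f _ _).symm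

theorem IsConj.map (f : R →+* S) {g : Fin 3 → Fin 3 → R} {u u' : V3 R} (h : IsConj g u u') :
    IsConj (fun i j => f (g i j)) (vmap f u) (vmap f u') := fun i j => by
  show f (u i) * f (u' j) + f (u j) * f (u' i) = f (g i j)
  rw [← h i j, map_add, map_mul, map_mul]

theorem vmap_crs (f : R →+* S) (u v : V3 R) : vmap f (crs u v) = crs (vmap f u) (vmap f v) := by
  funext i
  fin_cases i <;> simp [vmap, crs, map_sub, map_mul]

theorem map_dot (f : R →+* S) (u v : V3 R) : f (dot u v) = dot (vmap f u) (vmap f v) := by
  simp only [dot, vmap, map_sum, map_mul]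

theorem map_mon (f : R →+* S) (b : Bool) (u : V3 R) (p : Fin 3 × Fin 3) :
    f (mon b u p) = mon b (vmap f u) p := by
  cases b
  · by_cases h : p.2 = 0
    · simp [mon, h, vmap]
    · simp [mon, h]
  · simp [mon, vmap]

end Vec

namespace WD

variable {t : Bool} {R S : Type*} [CommRing R] [CommRing S]

omit [CommRing R] in
theorem swap_swap (W : WD t R) : W.swap.swap = W := by
  cases t <;> rfl

theorem swap_map (f : R →+* S) (W : WD t R) : (W.map f).swap = W.swap.map f := by
  cases t <;> rfl

theorem swap_isPt (W : WD t R) (u v : V3 R) : W.swap.IsPt v u ↔ W.IsPt u v := by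
  unfold IsPt
  cases t
  · have h1 : dot (W.swap.line u) v = qf (W.con v) u := by
      simp only [dot, qf, line, con, swap, mon, Fintype.sum_prod_type, Fin.sum_univ_three]
      simp
      ring
    have h2 : qf (W.swap.con u) v = dot (W.line v) u := by
      simp only [dot, qf, line, con, swap, mon, Fintype.sum_prod_type, Fin.sum_univ_three]
      simp
      ring
    rw [h1, h2, and_comm]
  · have h1 : dot (W.swap.line u) v = dot (W.line v) u := by
      simp only [dot, qf, line, con, swap, mon, Fintype.sum_prod_type, Fin.sum_univ_three]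
      simp
      ring
    have h2 : qf (W.swap.con u) v = qf (W.con v) u := by
      simp only [dot, qf, line, con, swap, mon, Fintype.sum_prod_type, Fin.sum_univ_three]
      simp
      ring
    rw [h1, h2]

theorem line_map (f : R →+* S) (W : WD t R) (v : V3 R) :
    (W.map f).line (vmap f v) = vmap f (W.line v) := by
  funext i
  cases t <;> simp [line, map, vmap, map_sum, map_mul, map_mon]

theorem con_map (f : R →+* S) (W : WD t R) (v : V3 R) :
    (W.map f).con (vmap f v) = fun i j => f (W.con v i j) := by
  funext i j
  cases t <;> simp [con, map, map_sum, map_mul, map_mon]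

theorem G_map (f : R →+* S) (W : WD t R) (v : V3 R) :
    (W.map f).G (vmap f v) = fun i j => f (W.G v i j) := by
  funext i j
  have e : ∀ i : Fin 3, crs ((W.map f).line (vmap f v)) (Pi.single i 1)
      = vmap f (crs (W.line v) (Pi.single i 1)) := by
    intro i
    rw [vmap_crs, line_map]
    congr 1
    funext j
    by_cases h : j = i
    · subst h; simp [vmap]
    · simp [vmap, h]
  unfold G gm
  rw [e, e, con_map]
  simp only [bf, vmap, map_sum, map_mul, map_add]

theorem IsPt.map (f : R →+* S) {W : WD t R} {u v : V3 R} (h : W.IsPt u v) :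
    (W.map f).IsPt (vmap f u) (vmap f v) := by
  constructor
  · rw [line_map, ← map_dot, h.1, map_zero]
  · rw [con_map, ← map_zero f, ← h.2]
    simp only [qf, vmap, map_sum, map_mul]

theorem exists_conj (W : WD t R) {u v : V3 R} (hu : Uni u) (h : W.IsPt u v) :
    ∃ u', IsConj (W.G v) u u' ∧ W.IsPt u' v := by
  obtain ⟨w, hw⟩ := hu
  obtain ⟨hl, hq⟩ := h
  set l := W.line v with hldef
  set c := W.con v with hcdef
  set t := crs l w with ht
  have hlt : dot l t = 0 := by
    simp only [ht, dot, crs, Fin.sum_univ_three, Matrix.cons_val]; ring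
  refine ⟨fun i => qf c t * u i - bf c u t * t i, ?_, ?_, ?_⟩
  · -- `l × e = t (u · e) - u (t · e)`
    have hlu : ∀ r, l r = crs u t r := by
      simp only [dot, Fin.sum_univ_three] at hw hl
      intro r
      fin_cases r <;> simp [ht, crs]
      · linear_combination (-(l 0)) * hw + (w 0) * hl
      · linear_combination (-(l 1)) * hw + (w 1) * hl
      · linear_combination (-(l 2)) * hw + (w 2) * hl
    have hlu' : l = crs u t := funext hlu
    have key : ∀ i : Fin 3, crs l (Pi.single i 1) = fun r => t r * u i - u r * t i := by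
      intro i
      rw [hlu']
      funext r
      fin_cases i <;> fin_cases r <;> simp [crs] <;> ring
    intro i j
    show _ = bf c (crs l (Pi.single i 1)) (crs l (Pi.single j 1))
    rw [key, key]
    simp only [qf, bf, Fin.sum_univ_three] at hq ⊢
    linear_combination (-2 * t i * t j) * hq
  · show dot l _ = 0
    simp only [dot, Fin.sum_univ_three] at hl hlt ⊢
    linear_combination (qf c t) * hl - bf c u t * hlt
  · show qf c _ = 0
    have : qf c (fun i => qf c t * u i - bf c u t * t i)
        = (qf c t) ^ 2 * qf c u - qf c t * bf c u t * bf c u t + (bf c u t) ^ 2 * qf c t := by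
      simp only [qf, bf, Fin.sum_univ_three]; ring
    rw [this, hq]; ring

end WD

end Pool.Agent.Helper2.KX
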