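import Pool.Agent.Helper2.KX.T1

/-!
# The two involutions on points of good Wehler surfaces over a ring, and their composition
-/

namespace Pool.Agent.Helper2.KX

/-- The degree of the double coverings. -/
def dd (t : Bool) : ℕ := if t then 4 else 5

theorem four_le_dd (t : Bool) : 4 ≤ dd t := by cases t <;> simp [dd]

section Basic

variable {t : Bool} {R S : Type*} [CommRing R] [CommRing S]

/-- In a good surface the second point is again given by a unimodular vector. -/
theorem uni_conj {W : WD t R} (hW : W.Half) {u u' v : V3 R} (hv : Uni v)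
    (h : IsConj (W.G v) u u') : Uni u' := by
  classical
  obtain ⟨N, hN⟩ := hW
  have hG : (MvPolynomial.eval v : MvPolynomial (Fin 3) R →+* R).comp
      (MvPolynomial.C : R →+* MvPolynomial (Fin 3) R) = RingHom.id R := by
    ext a; simp
  have hmap : (W.map (MvPolynomial.C : R →+* MvPolynomial (Fin 3) R)).map
      (MvPolynomial.eval v) = W := by
    cases W
    simp [WD.map]
  have hX : vmap (MvPolynomial.eval v : MvPolynomial (Fin 3) R →+* R) MvPolynomial.X = v := by
    funext i; simp [vmap]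
  have hg : ∀ i j, MvPolynomial.eval v
      ((W.map (MvPolynomial.C : R →+* MvPolynomial (Fin 3) R)).G MvPolynomial.X i j)
      = W.G v i j := by
    intro i j
    have := WD.G_map (MvPolynomial.eval v : MvPolynomial (Fin 3) R →+* R)
      (W.map (MvPolynomial.C : R →+* MvPolynomial (Fin 3) R)) MvPolynomial.X
    rw [hmap, hX] at this
    exact (congrFun (congrFun this i) j).symm
  set I : Ideal R := Ideal.span (Set.range u') with hI
  have hgI : ∀ i j, W.G v i j ∈ I := by
    intro i j
    rw [← h i j]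
    exact I.add_mem (I.mul_mem_left _ (Ideal.subset_span ⟨j, rfl⟩))
      (I.mul_mem_left _ (Ideal.subset_span ⟨i, rfl⟩))
  have hvI : ∀ k, v k ^ N ∈ I := by
    intro k
    have h1 := Ideal.mem_map_of_mem (MvPolynomial.eval v : MvPolynomial (Fin 3) R →+* R) (hN k)
    rw [map_pow, MvPolynomial.eval_X, Ideal.map_span] at h1
    refine (Ideal.span_le.mpr ?_) h1
    rintro _ ⟨_, ⟨ij, rfl⟩, rfl⟩
    rw [SetLike.mem_coe, hg]
    exact hgI _ _
  have htop : I = ⊤ := by
    have h2 : Ideal.span (Set.range v) = ⊤ := by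
      obtain ⟨w, hw⟩ := hv
      rw [Ideal.eq_top_iff_one, ← hw]
      exact Ideal.sum_mem _ fun i _ => Ideal.mul_mem_left _ _ (Ideal.subset_span ⟨i, rfl⟩)
    have h3 := Ideal.span_pow_eq_top (Set.range v) h2 N
    rw [eq_top_iff, ← h3, Ideal.span_le]
    rintro _ ⟨_, ⟨k, rfl⟩, rfl⟩
    exact hvI k
  have h1 : (1 : R) ∈ Ideal.span (Set.range u') := by
    rw [← hI, htop]; exact Submodule.mem_top
  rw [Ideal.mem_span_range_iff_exists_fun] at h1
  obtain ⟨w, hw⟩ := h1
  exact ⟨w, hw⟩

theorem evW_map (f : R →+* S) (δ : MvPolynomial WI ℤ) (W : WD t R) :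
    evW δ (W.map f) = f (evW δ W) := by
  unfold evW
  rw [MvPolynomial.aeval_def, MvPolynomial.aeval_def, MvPolynomial.hom_eval₂]
  congr 1
  · exact RingHom.ext_int _ _
  · funext a
    rcases a with a | a <;> rfl

theorem vmap_comp {T : Type*} [CommRing T] (g : S →+* T) (f : R →+* S) (u : V3 R) :
    vmap g (vmap f u) = vmap (g.comp f) u := rfl

theorem WD.map_map {T : Type*} [CommRing T] (g : S →+* T) (f : R →+* S) (W : WD t R) :
    (W.map f).map g = W.map (g.comp f) := rfl

end Basic

namespace TP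

variable {t : Bool} {δ : MvPolynomial WI ℤ} {R : Type} [CommRing R]

/-- Exchange of the two planes for the equations of `δ`. -/
theorem exists_s1 [hδ : Fact (Nice t δ)] (x : TP t δ R) :
    ∃ y : TP t δ R, y.W = x.W ∧ y.v = x.v ∧ IsConj (x.W.G x.v) x.u y.u := by
  obtain ⟨u', h1, h2⟩ := x.W.exists_conj x.hu x.pt
  exact ⟨⟨x.W, u', x.v, x.hd, uni_conj (hδ.out R x.W x.hd).1 x.hv h1, x.hv, h2⟩, rfl, rfl, h1⟩

theorem exists_s2 [hδ : Fact (Nice t δ)] (x : TP t δ R) :
    ∃ y : TP t δ R, y.W = x.W ∧ y.u = x.u ∧ IsConj (x.W.swap.G x.u) x.v y.v := by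
  obtain ⟨v', h1, h2⟩ := x.W.swap.exists_conj x.hv ((x.W.swap_isPt x.u x.v).mpr x.pt)
  exact ⟨⟨x.W, x.u, v', x.hd, x.hu, uni_conj (hδ.out R x.W x.hd).2 x.hu h1,
    (x.W.swap_isPt x.u v').mp h2⟩, rfl, rfl, h1⟩

/-- The second point over `v`. -/
noncomputable def s1 [Fact (Nice t δ)] (x : TP t δ R) : TP t δ R := (exists_s1 x).choose

/-- The second point over `u`. -/
noncomputable def s2 [Fact (Nice t δ)] (x : TP t δ R) : TP t δ R := (exists_s2 x).choose

section

variable [Fact (Nice t δ)]

@[simp] theorem s1_W (x : TP t δ R) : x.s1.W = x.W := (exists_s1 x).choose_spec.1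

@[simp] theorem s1_v (x : TP t δ R) : x.s1.v = x.v := (exists_s1 x).choose_spec.2.1

theorem s1_conj (x : TP t δ R) : IsConj (x.W.G x.v) x.u x.s1.u := (exists_s1 x).choose_spec.2.2

@[simp] theorem s2_W (x : TP t δ R) : x.s2.W = x.W := (exists_s2 x).choose_spec.1

@[simp] theorem s2_u (x : TP t δ R) : x.s2.u = x.u := (exists_s2 x).choose_spec.2.1

theorem s2_conj (x : TP t δ R) : IsConj (x.W.swap.G x.u) x.v x.s2.v :=
  (exists_s2 x).choose_spec.2.2

theorem s1_unique [Two R] {x y : TP t δ R} (h1 : y.W = x.W) (h2 : y.v = x.v)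
    (h3 : IsConj (x.W.G x.v) x.u y.u) : y = x.s1 := by
  refine TP.ext (by rw [h1, s1_W]) ?_ (by rw [h2, s1_v])
  exact conj_unique x.hu h3 x.s1_conj

theorem s2_unique [Two R] {x y : TP t δ R} (h1 : y.W = x.W) (h2 : y.u = x.u)
    (h3 : IsConj (x.W.swap.G x.u) x.v y.v) : y = x.s2 := by
  refine TP.ext (by rw [h1, s2_W]) (by rw [h2, s2_u]) ?_
  exact conj_unique x.hv h3 x.s2_conj

theorem s1_s1 [Two R] (x : TP t δ R) : x.s1.s1 = x := by
  refine (s1_unique ?_ ?_ ?_).symm
  · rw [s1_W]
  · rw [s1_v]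
  · rw [s1_W, s1_v]
    exact x.s1_conj.symm

theorem s2_s2 [Two R] (x : TP t δ R) : x.s2.s2 = x := by
  refine (s2_unique ?_ ?_ ?_).symm
  · rw [s2_W]
  · rw [s2_u]
  · rw [s2_W, s2_u]
    exact x.s2_conj.symm

/-- The composition of the two involutions. -/
noncomputable def F [Two R] : Equiv.Perm (TP t δ R) where
  toFun x := x.s1.s2
  invFun x := x.s2.s1
  left_inv x := by simp only [s2_s2, s1_s1]
  right_inv x := by simp only [s2_s2, s1_s1]

theorem F_apply [Two R] (x : TP t δ R) : F x = x.s1.s2 := rfl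

theorem F_symm_apply [Two R] (x : TP t δ R) : F.symm x = x.s2.s1 := rfl

@[simp] theorem F_W [Two R] (x : TP t δ R) : (F x).W = x.W := by rw [F_apply, s2_W, s1_W]

@[simp] theorem F_symm_W [Two R] (x : TP t δ R) : (F.symm x).W = x.W := by
  rw [F_symm_apply, s1_W, s2_W]

theorem zpow_W [Two R] (n : ℤ) (x : TP t δ R) : ((F ^ n : Equiv.Perm (TP t δ R)) x).W = x.W := by
  induction n generalizing x with
  | zero => rfl
  | succ n ih => rw [zpow_add_one, Equiv.Perm.mul_apply, ih, F_W]
  | pred n ih => rw [zpow_sub_one, Equiv.Perm.mul_apply, ih]; exact F_symm_W x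

theorem pow_W [Two R] (n : ℕ) (x : TP t δ R) : ((F ^ n : Equiv.Perm (TP t δ R)) x).W = x.W :=
  zpow_W n x

end

/-! ### Functoriality -/

section Map

variable {S : Type} [CommRing S]

/-- Base change of points. -/
def map (f : R →+* S) (x : TP t δ R) : TP t δ S where
  W := x.W.map f
  u := vmap f x.u
  v := vmap f x.v
  hd := by rw [evW_map]; exact x.hd.map f
  hu := x.hu.map f
  hv := x.hv.map f
  pt := x.pt.map f

@[simp] theorem map_W (f : R →+* S) (x : TP t δ R) : (x.map f).W = x.W.map f := rfl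
@[simp] theorem map_u (f : R →+* S) (x : TP t δ R) : (x.map f).u = vmap f x.u := rfl
@[simp] theorem map_v (f : R →+* S) (x : TP t δ R) : (x.map f).v = vmap f x.v := rfl

variable [Fact (Nice t δ)] [Two S]

theorem map_s1 (f : R →+* S) (x : TP t δ R) : x.s1.map f = (x.map f).s1 := by
  refine s1_unique ?_ ?_ ?_
  · simp
  · simp
  · have := x.s1_conj.map f
    simp only [map_W, map_u, map_v]
    rw [WD.G_map]
    exact this

theorem map_s2 (f : R →+* S) (x : TP t δ R) : x.s2.map f = (x.map f).s2 := by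
  refine s2_unique ?_ ?_ ?_
  · simp
  · simp
  · have := x.s2_conj.map f
    simp only [map_W, map_u, map_v]
    rw [WD.swap_map, WD.G_map]
    exact this

variable [Two R]

theorem map_F (f : R →+* S) (x : TP t δ R) : (F x).map f = F (x.map f) := by
  rw [F_apply, F_apply, map_s2, map_s1]

theorem map_F_symm (f : R →+* S) (x : TP t δ R) : (F.symm x).map f = F.symm (x.map f) := by
  rw [F_symm_apply, F_symm_apply, map_s1, map_s2]

theorem map_zpow (f : R →+* S) (n : ℤ) (x : TP t δ R) :
    ((F ^ n : Equiv.Perm (TP t δ R)) x).map f = (F ^ n : Equiv.Perm (TP t δ S)) (x.map f) := by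
  induction n generalizing x with
  | zero => rfl
  | succ n ih =>
    rw [zpow_add_one, zpow_add_one, Equiv.Perm.mul_apply, Equiv.Perm.mul_apply, ih, map_F]
  | pred n ih =>
    rw [zpow_sub_one, zpow_sub_one, Equiv.Perm.mul_apply, Equiv.Perm.mul_apply, ih]
    exact congrArg _ (map_F_symm f x)

theorem map_pow (f : R →+* S) (n : ℕ) (x : TP t δ R) :
    ((F ^ n : Equiv.Perm (TP t δ R)) x).map f = (F ^ n : Equiv.Perm (TP t δ S)) (x.map f) :=
  map_zpow f n x

omit [Fact (Nice t δ)] [Two S] [Two R] in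
theorem map_injective {f : R →+* S} (hf : Function.Injective f) :
    Function.Injective (map f : TP t δ R → TP t δ S) := by
  intro x y h
  have h1 : x.W.map f = y.W.map f := congrArg TP.W h
  have h2 : vmap f x.u = vmap f y.u := congrArg TP.u h
  have h3 : vmap f x.v = vmap f y.v := congrArg TP.v h
  refine TP.ext ?_ (funext fun i => hf (congrFun h2 i)) (funext fun i => hf (congrFun h3 i))
  refine WD.ext ?_ ?_
  · funext i k
    exact hf (congrFun (congrFun (congrArg WD.M h1) i) k)
  · funext i k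
    exact hf (congrFun (congrFun (congrArg WD.q h1) i) k)

end Map

/-- Some power of `F` is the identity over a finite ring. -/
theorem exists_pow_eq_one (t : Bool) (δ : MvPolynomial WI ℤ) [Fact (Nice t δ)] (R : Type) [CommRing R]
    [Two R] [Finite R] : ∃ M : ℕ, 0 < M ∧ (F : Equiv.Perm (TP t δ R)) ^ M = 1 := by
  have : Finite (TP t δ R) := by
    refine Finite.of_injective (fun x : TP t δ R => ((x.W.M, x.W.q), x.u, x.v)) ?_
    intro x y h
    simp only [Prod.mk.injEq] at h
    exact TP.ext (WD.ext h.1.1 h.1.2) h.2.1 h.2.2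
  exact ⟨orderOf F, orderOf_pos F, pow_orderOf_eq_one F⟩

/-- Two points are equal as points of the product of the planes (over a local ring, and
for the same equations). -/
def Par {R : Type} [CommRing R] (x y : TP t δ R) : Prop := crs x.u y.u = 0 ∧ crs x.v y.v = 0

theorem Par.map {S : Type} [CommRing S] (f : R →+* S) {x y : TP t δ R} (h : Par x y) :
    Par (x.map f) (y.map f) := by
  constructor
  · rw [map_u, map_u, ← vmap_crs, h.1]; funext i; simp [vmap]
  · rw [map_v, map_v, ← vmap_crs, h.2]; funext i; simp [vmap]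

end TP

end Pool.Agent.Helper2.KX
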